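import Pool.Agent.Zk40.W.Energy

/-!
Waring's problem for almost all real exponents: the energy for almost all exponents.
-/

namespace Pool.Agent.Zk40.W

open Finset MeasureTheory Filter

lemma markov {ι : Type} [DecidableEq ι] (s : Finset ι) (S : ι → Set ℝ) (I : Set ℝ) (hI : MeasurableSet I)
    (hIf : volume I ≠ ⊤) (hS : ∀ i ∈ s, MeasurableSet (S i)) (l : ℝ) (hl : 0 < l) (E : ℝ → ℝ)
    (hE : ∀ x, E x = ∑ i ∈ s, (S i).indicator (fun _ => (1 : ℝ)) x) :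
    volume {x | x ∈ I ∧ l ≤ E x} ≤ ENNReal.ofReal ((∑ i ∈ s, volume.real (I ∩ S i)) / l) := by
  classical
  have hm : ∀ i ∈ s, MeasurableSet (I ∩ S i) := fun i hi => hI.inter (hS i hi)
  set f : ℝ → ENNReal := fun x => ∑ i ∈ s, (I ∩ S i).indicator (fun _ => (1 : ENNReal)) x with hf
  have hfm : Measurable f := Finset.measurable_fun_sum s fun i hi => measurable_const.indicator (hm i hi)
  have h1 : ∫⁻ x, f x = ∑ i ∈ s, volume (I ∩ S i) := by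
    rw [hf, lintegral_finsetSum' s fun i hi => (measurable_const.indicator (hm i hi)).aemeasurable]
    apply sum_congr rfl
    intro i hi
    rw [lintegral_indicator_const (hm i hi), one_mul]
  have hl' : ENNReal.ofReal l ≠ 0 := by
    rw [ne_eq, ENNReal.ofReal_eq_zero, not_le]; exact hl
  have h2 : {x | x ∈ I ∧ l ≤ E x} ⊆ {x | ENNReal.ofReal l ≤ f x} := by
    rintro x ⟨hx, hx2⟩
    have h3 : f x = ENNReal.ofReal (E x) := by
      rw [hE, ENNReal.ofReal_sum_of_nonneg]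
      · apply sum_congr rfl
        intro i _
        by_cases h : x ∈ S i
        · rw [Set.indicator_of_mem h, Set.indicator_of_mem (show x ∈ I ∩ S i from ⟨hx, h⟩), ENNReal.ofReal_one]
        · rw [Set.indicator_of_notMem h, Set.indicator_of_notMem (show x ∉ I ∩ S i from fun h2 => h h2.2),
            ENNReal.ofReal_zero]
      · intro i _
        exact Set.indicator_nonneg (fun _ _ => zero_le_one) x
    rw [Set.mem_ofPred_eq, h3]
    exact ENNReal.ofReal_le_ofReal hx2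
  have hfin : ∀ i ∈ s, volume (I ∩ S i) ≠ ⊤ := fun i _ =>
    ne_of_lt ((measure_mono Set.inter_subset_left).trans_lt (lt_top_iff_ne_top.2 hIf))
  calc volume {x | x ∈ I ∧ l ≤ E x} ≤ volume {x | ENNReal.ofReal l ≤ f x} := measure_mono h2
    _ ≤ (∫⁻ x, f x) / ENNReal.ofReal l := meas_ge_le_lintegral_div hfm.aemeasurable hl' ENNReal.ofReal_ne_top
    _ = (∑ i ∈ s, volume (I ∩ S i)) / ENNReal.ofReal l := by rw [h1]
    _ = ENNReal.ofReal (∑ i ∈ s, volume.real (I ∩ S i)) / ENNReal.ofReal l := by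
      congr 1
      rw [ENNReal.ofReal_sum_of_nonneg (fun i _ => measureReal_nonneg)]
      apply sum_congr rfl
      intro i hi
      rw [Measure.real, ENNReal.ofReal_toReal (hfin i hi)]
    _ = _ := (ENNReal.ofReal_div_of_pos hl).symm

/-- the energy -/
noncomputable def En (θ κ K₀ : ℝ) (P u : ℕ) : ℝ :=
  ((((Y (Qs κ P) u ×ˢ Y (Qs κ P) u).filter (fun p => |G θ p.1 - G θ p.2| ≤ K₀)).card : ℕ) : ℝ)

lemma Y_pos (κ : ℝ) (P u : ℕ) : 0 < ((Y (Qs κ P) u).card : ℝ) := by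
  rw [card_Y]
  apply prod_pos
  intro i _
  rw [box_card]
  positivity

lemma ev_pow (C p : ℝ) (hp : 0 < p) : ∀ᶠ j : ℕ in atTop, C ≤ ((2 ^ j : ℕ) : ℝ) ^ p := by
  have h1 : Tendsto (fun j : ℕ => ((2 ^ j : ℕ) : ℝ)) atTop atTop := by
    push_cast
    exact tendsto_pow_atTop_atTop_of_one_lt (by norm_num)
  exact ((tendsto_rpow_atTop hp).comp h1).eventually_ge_atTop C

lemma ev_log (p : ℝ) (hp : 0 < p) : ∀ᶠ j : ℕ in atTop, Real.log (4 * ((2 ^ j : ℕ) : ℝ)) + 1 ≤ ((2 ^ j : ℕ) : ℝ) ^ p := by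
  have h1 : Tendsto (fun j : ℕ => ((2 ^ j : ℕ) : ℝ)) atTop atTop := by
    push_cast
    exact tendsto_pow_atTop_atTop_of_one_lt (by norm_num)
  have h2 : ∀ᶠ x : ℝ in atTop, Real.log (4 * x) + 1 ≤ x ^ p := by
    have h3 := (isLittleO_log_rpow_atTop (show 0 < p / 2 by positivity)).bound (show (0 : ℝ) < 1 by norm_num)
    have h4 : ∀ᶠ x : ℝ in atTop, Real.log 4 + 2 ≤ x ^ (p / 2) := (tendsto_rpow_atTop (by positivity)).eventually_ge_atTop _
    filter_upwards [h3, h4, eventually_ge_atTop (1 : ℝ)] with x a1 a2 a3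
    have hl : 0 ≤ Real.log x := Real.log_nonneg a3
    rw [Real.norm_of_nonneg hl, Real.norm_of_nonneg (by positivity), one_mul] at a1
    rw [Real.log_mul (by norm_num) (by linarith)]
    have h5 : 0 ≤ Real.log 4 := Real.log_nonneg (by norm_num)
    have h6 : x ^ p = x ^ (p / 2) * x ^ (p / 2) := by
      rw [← Real.rpow_add (by linarith)]; congr 1; ring
    rw [h6]
    have h7 : 0 ≤ x ^ (p / 2) := by positivity
    nlinarith
  exact h1.eventually h2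

/-- almost all exponents in a short interval -/
theorem ae_local (u : ℕ) (hu : 1 ≤ u) (θ₀ : ℝ) (hθ₀ : 1 < θ₀) (K₀ : ℝ) (hK₀ : 0 ≤ K₀) (hκu : (1 - 1 / θ₀) ^ u ≤ 1 / 2)
    (τ η : ℝ) (hη0 : 0 < η) (hη1 : η ≤ 1) (hητ : η * (24 * u + 9) ≤ τ / 2) :
    ∀ᵐ θ : ℝ, θ ∈ Set.Icc θ₀ (θ₀ + η) → ∀ᶠ j : ℕ in atTop,
      En θ (1 - 1 / θ₀) K₀ (2 ^ j) u ≤ ((Y (Qs (1 - 1 / θ₀) (2 ^ j)) u).card : ℝ) ^ 2 * ((2 ^ j : ℕ) : ℝ) ^ (-θ + τ) := by
  classical
  have hθ0 : 0 < θ₀ := by linarith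
  have hκ : 0 ≤ 1 - 1 / θ₀ := by
    rw [sub_nonneg, div_le_one hθ0]; exact hθ₀.le
  have hτ : 0 < τ := by
    have : 0 < η * (24 * u + 9) := by positivity
    linarith
  obtain ⟨C, hC, hE⟩ := energy u hu θ₀ hθ₀ K₀ hK₀ hκu
  obtain ⟨κ, hκdef⟩ : ∃ κ : ℝ, κ = 1 - 1 / θ₀ := ⟨_, rfl⟩
  rw [← hκdef] at hκ hE ⊢
  set I := Set.Icc θ₀ (θ₀ + η) with hI
  have hev := (ev_log (2 * η) (by positivity)).and (ev_pow ((2 : ℝ) ^ (θ₀ + 1)) η hη0)
  obtain ⟨j₀, hj₀⟩ := eventually_atTop.1 hev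
  set s : ℕ → Set ℝ := fun j => {θ | θ ∈ I ∧ ((Y (Qs κ (2 ^ j)) u).card : ℝ) ^ 2 * ((2 ^ j : ℕ) : ℝ) ^ (-θ₀ - η + τ) ≤
    En θ κ K₀ (2 ^ j) u} with hs
  have hmeas : ∀ j ≥ j₀, volume (s j) ≤ ENNReal.ofReal (C * ((2 : ℝ) ^ (-(τ / 2))) ^ j) := by
    intro j hj
    obtain ⟨e1, e2⟩ := hj₀ j hj
    obtain ⟨P, hP⟩ : ∃ P : ℕ, P = 2 ^ j := ⟨_, rfl⟩
    have hP1 : 1 ≤ P := by rw [hP]; exact Nat.one_le_two_pow
    rw [← hP] at e1 e2
    have hPr : (1 : ℝ) ≤ P := by exact_mod_cast hP1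
    have hP0 : (0 : ℝ) < P := by linarith
    have e3 : (2 : ℝ) ^ (θ₀ + 1) * (P : ℝ) ^ η ≤ (P : ℝ) ^ (2 * η) := by
      rw [show 2 * η = η + η by ring, Real.rpow_add hP0]
      exact mul_le_mul_of_nonneg_right e2 (by positivity)
    have h1 := hE η P ((P : ℝ) ^ (2 * η)) hη0.le hη1 hP1 e1 e3
    have hYc := Y_pos κ P u
    set Yc := ((Y (Qs κ P) u).card : ℝ) with hYcd
    have hl : 0 < Yc ^ 2 * (P : ℝ) ^ (-θ₀ - η + τ) := by positivity
    have h2 := markov (Y (Qs κ P) u ×ˢ Y (Qs κ P) u) (fun p => {θ | |G θ p.1 - G θ p.2| ≤ K₀}) I measurableSet_Icc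
      (by rw [hI, Real.volume_Icc]; exact ENNReal.ofReal_ne_top)
      (by
        intro p hp
        rw [mem_product] at hp
        apply IsClosed.measurableSet
        have c1 : Continuous fun θ => G θ p.1 :=
          continuous_iff_continuousAt.2 fun θ => (G_der (Qs_one hκ hP1) hp.1 θ).continuousAt
        have c2 : Continuous fun θ => G θ p.2 :=
          continuous_iff_continuousAt.2 fun θ => (G_der (Qs_one hκ hP1) hp.2 θ).continuousAt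
        exact isClosed_le (c1.sub c2).abs continuous_const)
      _ hl (fun θ => En θ κ K₀ P u)
      (by
        intro θ
        unfold En
        rw [card_filter]
        push_cast
        apply sum_congr rfl
        intro p _
        by_cases h : |G θ p.1 - G θ p.2| ≤ K₀
        · rw [if_pos h, Set.indicator_of_mem (show θ ∈ {θ | |G θ p.1 - G θ p.2| ≤ K₀} from h)]
        · rw [if_neg h, Set.indicator_of_notMem (show θ ∉ {θ | |G θ p.1 - G θ p.2| ≤ K₀} from h)])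
    have hsj : s j = {x | x ∈ I ∧ Yc ^ 2 * (P : ℝ) ^ (-θ₀ - η + τ) ≤ En x κ K₀ P u} := by
      simp only [hs, hYcd, hP]
    rw [hsj]
    refine h2.trans (ENNReal.ofReal_le_ofReal ?_)
    rw [div_le_iff₀ hl]
    refine h1.trans ?_
    have hpow : ((P : ℝ) ^ (2 * η)) ^ (12 * u + 4) = (P : ℝ) ^ (2 * η * (12 * u + 4)) := by
      rw [← Real.rpow_natCast, ← Real.rpow_mul hP0.le]
      congr 1
      push_cast
      ring
    have h2j : ((2 : ℝ) ^ (-(τ / 2))) ^ j = (P : ℝ) ^ (-(τ / 2)) := by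
      rw [hP]
      push_cast
      rw [← Real.rpow_natCast, ← Real.rpow_natCast, ← Real.rpow_mul (by norm_num), ← Real.rpow_mul (by norm_num)]
      congr 1
      ring
    rw [hpow, h2j]
    have h3 : (P : ℝ) ^ (2 * η * (12 * u + 4)) * (P : ℝ) ^ (-θ₀) ≤ (P : ℝ) ^ (-(τ / 2)) * (P : ℝ) ^ (-θ₀ - η + τ) := by
      rw [← Real.rpow_add hP0, ← Real.rpow_add hP0]
      apply Real.rpow_le_rpow_of_exponent_le hPr
      nlinarith
    calc C * (P : ℝ) ^ (2 * η * (12 * u + 4)) * Yc ^ 2 * (P : ℝ) ^ (-θ₀)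
        = (C * Yc ^ 2) * ((P : ℝ) ^ (2 * η * (12 * u + 4)) * (P : ℝ) ^ (-θ₀)) := by ring
      _ ≤ (C * Yc ^ 2) * ((P : ℝ) ^ (-(τ / 2)) * (P : ℝ) ^ (-θ₀ - η + τ)) :=
          mul_le_mul_of_nonneg_left h3 (by positivity)
      _ = _ := by ring
  -- the summation
  set t : ℕ → Set ℝ := fun j => s (j₀ + j) with ht
  have hsum : ∑' j, volume (t j) ≠ ⊤ := by
    have hq0 : (0 : ℝ) < (2 : ℝ) ^ (-(τ / 2)) := by positivity
    have hq1 : (2 : ℝ) ^ (-(τ / 2)) < 1 := Real.rpow_lt_one_of_one_lt_of_neg (by norm_num) (by linarith)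
    have hle : ∀ j, volume (t j) ≤ ENNReal.ofReal (C * ((2 : ℝ) ^ (-(τ / 2))) ^ j) := by
      intro j
      refine (hmeas (j₀ + j) (by omega)).trans (ENNReal.ofReal_le_ofReal ?_)
      apply mul_le_mul_of_nonneg_left _ (by linarith)
      exact pow_le_pow_of_le_one hq0.le hq1.le (by omega)
    refine ne_top_of_le_ne_top ?_ (ENNReal.tsum_le_tsum hle)
    have hsm : Summable fun j : ℕ => C * ((2 : ℝ) ^ (-(τ / 2))) ^ j :=
      (summable_geometric_of_lt_one hq0.le hq1).mul_left C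
    exact hsm.tsum_ofReal_ne_top
  filter_upwards [ae_eventually_notMem hsum] with θ hθ hθI
  obtain ⟨j₁, hj₁⟩ := eventually_atTop.1 hθ
  rw [eventually_atTop]
  refine ⟨j₀ + j₁, fun j hj => ?_⟩
  have h1 := hj₁ (j - j₀) (by omega)
  simp only [ht, hs, show j₀ + (j - j₀) = j by omega, Set.mem_ofPred_eq, not_and, not_le] at h1
  refine (h1 hθI).le.trans ?_
  apply mul_le_mul_of_nonneg_left _ (by positivity)
  apply Real.rpow_le_rpow_of_exponent_le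
  · exact_mod_cast Nat.one_le_two_pow
  · linarith [hθI.2]

/-- almost all exponents -/
theorem ae_energy (u : ℕ) (hu : 1 ≤ u) (K₀ : ℝ) (hK₀ : 0 ≤ K₀) :
    ∀ᵐ θ : ℝ, 1 < θ → (1 - 1 / θ) ^ u < 1 / 2 → ∀ τ : ℝ, 0 < τ → ∃ κ : ℝ, 0 ≤ κ ∧ κ ≤ 1 ∧ ∀ᶠ j : ℕ in atTop,
      En θ κ K₀ (2 ^ j) u ≤ ((Y (Qs κ (2 ^ j)) u).card : ℝ) ^ 2 * ((2 ^ j : ℕ) : ℝ) ^ (-θ + τ) := by
  obtain ⟨η, hη⟩ : ∃ η : ℕ → ℝ, ∀ m : ℕ, η m = min 1 (1 / ((m : ℝ) + 1) / (2 * (24 * (u : ℝ) + 9))) := ⟨_, fun m => rfl⟩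
  have hη0 : ∀ m, 0 < η m := fun m => by rw [hη]; exact lt_min (by norm_num) (by positivity)
  have hη1 : ∀ m, η m ≤ 1 := fun m => by rw [hη]; exact min_le_left _ _
  have hη2 : ∀ m, η m * (24 * u + 9) ≤ (1 / ((m : ℝ) + 1)) / 2 := by
    intro m
    have : η m ≤ 1 / ((m : ℝ) + 1) / (2 * (24 * (u : ℝ) + 9)) := by rw [hη]; exact min_le_right _ _
    calc η m * (24 * u + 9) ≤ 1 / ((m : ℝ) + 1) / (2 * (24 * (u : ℝ) + 9)) * (24 * u + 9) :=
          mul_le_mul_of_nonneg_right this (by positivity)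
      _ = _ := by field_simp
  have hall : ∀ᵐ θ : ℝ, ∀ (q : ℚ) (m : ℕ), 1 < (q : ℝ) → (1 - 1 / (q : ℝ)) ^ u ≤ 1 / 2 →
      θ ∈ Set.Icc (q : ℝ) (q + η m) → ∀ᶠ j : ℕ in atTop,
      En θ (1 - 1 / (q : ℝ)) K₀ (2 ^ j) u ≤
        ((Y (Qs (1 - 1 / (q : ℝ)) (2 ^ j)) u).card : ℝ) ^ 2 * ((2 ^ j : ℕ) : ℝ) ^ (-θ + 1 / ((m : ℝ) + 1)) := by
    rw [ae_all_iff]
    intro q
    rw [ae_all_iff]
    intro m
    by_cases h1 : 1 < (q : ℝ)
    · by_cases h2 : (1 - 1 / (q : ℝ)) ^ u ≤ 1 / 2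
      · filter_upwards [ae_local u hu q h1 K₀ hK₀ h2 (1 / ((m : ℝ) + 1)) (η m) (hη0 m) (hη1 m) (hη2 m)] with θ hθ _ _ hI
        exact hθ hI
      · exact ae_of_all _ fun θ _ h3 => absurd h3 h2
    · exact ae_of_all _ fun θ h3 => absurd h3 h1
  filter_upwards [hall] with θ hθ h1 h2 τ hτ
  obtain ⟨m, hm⟩ : ∃ m : ℕ, 1 / ((m : ℝ) + 1) < τ := exists_nat_one_div_lt hτ
  obtain ⟨q, hq1, hq2⟩ := exists_rat_btwn (show max 1 (θ - η m) < θ by
    apply max_lt h1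
    linarith [hη0 m])
  have hq3 : 1 < (q : ℝ) := lt_of_le_of_lt (le_max_left _ _) hq1
  have hq4 : θ - η m < (q : ℝ) := lt_of_le_of_lt (le_max_right _ _) hq1
  have hq0 : 0 < (q : ℝ) := by linarith
  have hκ : 0 ≤ 1 - 1 / (q : ℝ) := by
    rw [sub_nonneg, div_le_one hq0]; exact hq3.le
  have hκ1 : 1 - 1 / (q : ℝ) ≤ 1 := by
    have : 0 ≤ 1 / (q : ℝ) := by positivity
    linarith
  have hκ2 : (1 - 1 / (q : ℝ)) ^ u ≤ 1 / 2 := by
    refine le_trans (pow_le_pow_left₀ hκ ?_ u) h2.le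
    have : 1 / θ ≤ 1 / (q : ℝ) := one_div_le_one_div_of_le hq0 hq2.le
    linarith
  refine ⟨1 - 1 / (q : ℝ), hκ, hκ1, ?_⟩
  filter_upwards [hθ q m hq3 hκ2 ⟨hq2.le, by linarith⟩] with j hj
  refine hj.trans ?_
  apply mul_le_mul_of_nonneg_left _ (by positivity)
  apply Real.rpow_le_rpow_of_exponent_le
  · exact_mod_cast Nat.one_le_two_pow
  · linarith

end Pool.Agent.Zk40.W
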