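import Pool.Agent.Zk40.W.Window

/-!
Waring's problem for almost all real exponents: every large integer is represented.
-/

namespace Pool.Agent.Zk40.W

open Finset Filter Topology MeasureTheory

lemma Vw_up (θ κ : ℝ) (hθ : 0 < θ) (hκ : 0 ≤ κ) (hκ1 : κ ≤ 1) (P u : ℕ) (hP : 1 ≤ P) (x : Fin u → ℕ × ℕ)
    (hx : x ∈ Y (Qs κ P) u) : (Vw θ x : ℝ) ≤ 2 * u * (4 : ℝ) ^ θ * (P : ℝ) ^ θ := by
  have hmem := Fintype.mem_piFinset.1 hx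
  refine (Vw_near θ x).1.trans ?_
  unfold G
  have h1 : ∀ i, g θ (x i) ≤ 2 * ((4 : ℝ) ^ θ * (P : ℝ) ^ θ) := by
    intro i
    have h2 := hmem i
    simp only [box, mem_product, mem_Icc] at h2
    have h3 := Qs_le hκ hκ1 hP (i : ℕ)
    unfold g
    rw [← Real.mul_rpow (by norm_num) (Nat.cast_nonneg _)]
    have e1 : ((x i).1 : ℝ) ≤ 4 * P := by
      have : (x i).1 ≤ 4 * P := by omega
      exact_mod_cast this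
    have e2 : ((x i).2 : ℝ) ≤ 4 * P := by
      have : (x i).2 ≤ 4 * P := by omega
      exact_mod_cast this
    have f1 := Real.rpow_le_rpow (Nat.cast_nonneg _) e1 hθ.le
    have f2 := Real.rpow_le_rpow (Nat.cast_nonneg _) e2 hθ.le
    linarith
  calc ∑ i, g θ (x i) ≤ ∑ _i : Fin u, 2 * ((4 : ℝ) ^ θ * (P : ℝ) ^ θ) := sum_le_sum fun i _ => h1 i
    _ = _ := by rw [sum_const, card_univ, Fintype.card_fin, nsmul_eq_mul]; ring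

/-- one scale -/
theorem one_scale (θ : ℝ) (h1 : 1 < θ) (hn : ∀ m : ℕ, θ ≠ m) (u : ℕ)
    (hE : ∀ τ : ℝ, 0 < τ → ∃ κ : ℝ, 0 ≤ κ ∧ κ ≤ 1 ∧ ∀ᶠ j : ℕ in atTop, En θ κ (2 * u) (2 ^ j) u ≤
      ((Y (Qs κ (2 ^ j)) u).card : ℝ) ^ 2 * ((2 ^ j : ℕ) : ℝ) ^ (-θ + τ)) :
    ∃ C₁ : ℕ, 1 ≤ C₁ ∧ ∀ᶠ j : ℕ in atTop, ∀ N : ℕ, (2 * ((C₁ * 2 ^ j : ℕ) : ℝ)) ^ θ ≤ N → (N : ℝ) < (4 * ((C₁ * 2 ^ j : ℕ) : ℝ)) ^ θ →
      ∃ (x y : Fin u → ℕ × ℕ) (z₁ z₂ : ℕ), Vw θ x + Vw θ y + (wt θ z₁ + wt θ z₂) = N := by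
  have hθ0 : 0 < θ := by linarith
  obtain ⟨A, hA⟩ : ∃ A : ℝ, A = (4 : ℝ) ^ θ := ⟨_, rfl⟩
  have hA1 : 1 ≤ A := by rw [hA]; exact Real.one_le_rpow (by norm_num) hθ0.le
  obtain ⟨C₂, hC₂⟩ : ∃ C₂ : ℝ, C₂ = (4 * u + 1) * A := ⟨_, rfl⟩
  obtain ⟨C₁, hC₁d⟩ : ∃ C₁ : ℕ, C₁ = ⌈C₂⌉₊ + 2 := ⟨_, rfl⟩
  have hC₁ : 1 ≤ C₁ := by omega
  have hC₁r : (1 : ℝ) ≤ C₁ := by exact_mod_cast hC₁
  have hC₁C₂ : C₂ + 2 ≤ C₁ := by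
    rw [hC₁d]
    push_cast
    linarith [Nat.le_ceil C₂]
  obtain ⟨C, σ, hC, hσ, hσ1, hexp⟩ := exp_both θ h1 hn C₁ hC₁
  obtain ⟨κ, hκ, hκ1, hEn⟩ := hE σ hσ
  obtain ⟨D₀, hD₀⟩ : ∃ D₀ : ℝ, D₀ = θ * (5 * (C₁ : ℝ)) ^ (θ - 1) := ⟨_, rfl⟩
  have hD₀1 : 1 ≤ D₀ := by
    have : 1 ≤ (5 * (C₁ : ℝ)) ^ (θ - 1) := Real.one_le_rpow (by linarith) (by linarith)
    rw [hD₀]
    nlinarith
  have hD₀0 : 0 < D₀ := by linarith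
  obtain ⟨c₀, hc₀⟩ : ∃ c₀ : ℝ, c₀ = 1 / (2 * D₀) := ⟨_, rfl⟩
  have hc₀0 : 0 < c₀ := by rw [hc₀]; positivity
  refine ⟨C₁, hC₁, ?_⟩
  have t2 : Tendsto (fun j : ℕ => 2 ^ j) atTop atTop := tendsto_pow_atTop_atTop_of_one_lt (r := 2) (by norm_num)
  filter_upwards [t2.eventually hexp, hEn, ev_pow (4 * D₀) (1 / 2) (by norm_num), ev_log (1 / 4) (by norm_num),
    ev_pow (112 * C ^ 2 * θ / c₀) (1 / 4) (by norm_num), ev_pow (16 * C ^ 2 / c₀) σ hσ] with j k1 k2 k3 k4 k5 k6 N hN1 hN2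
  obtain ⟨P, hPd⟩ : ∃ P : ℕ, P = 2 ^ j := ⟨_, rfl⟩
  rw [← hPd] at k1 k2 k3 k4 k5 k6 hN1 hN2
  have hP : 1 ≤ P := by rw [hPd]; exact Nat.one_le_two_pow
  have hPr : (1 : ℝ) ≤ P := by exact_mod_cast hP
  have hP0 : (0 : ℝ) < P := by linarith
  obtain ⟨M, hM⟩ : ∃ M : ℕ, M = C₁ * P := ⟨_, rfl⟩
  rw [← hM] at hN1 hN2 k1
  have hMr : (M : ℝ) = C₁ * P := by rw [hM]; push_cast; ring
  have hM1 : 1 ≤ M := by rw [hM]; exact Nat.one_le_iff_ne_zero.2 (by positivity)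
  obtain ⟨W, hW⟩ : ∃ W : ℕ, W = ⌊(P : ℝ) ^ (θ - 1 / 2)⌋₊ := ⟨_, rfl⟩
  have hPw1 : 1 ≤ (P : ℝ) ^ (θ - 1 / 2) := Real.one_le_rpow hPr (by linarith)
  have hW1 : 1 ≤ W := by rw [hW]; exact Nat.le_floor (by exact_mod_cast hPw1)
  have hWr : (1 : ℝ) ≤ W := by exact_mod_cast hW1
  have hWup : (W : ℝ) ≤ (P : ℝ) ^ (θ - 1 / 2) := by rw [hW]; exact Nat.floor_le (by positivity)
  have hWlow : (P : ℝ) ^ (θ - 1 / 2) ≤ 2 * W := by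
    have : (P : ℝ) ^ (θ - 1 / 2) < W + 1 := by rw [hW]; exact Nat.lt_floor_add_one _
    linarith
  have hmono : ∀ s t : ℝ, s ≤ t → (P : ℝ) ^ s ≤ (P : ℝ) ^ t := fun s t h => Real.rpow_le_rpow_of_exponent_le hPr h
  obtain ⟨D, hD⟩ : ∃ D : ℝ, D = θ * (5 * (M : ℝ)) ^ (θ - 1) := ⟨_, rfl⟩
  have hDD : D = D₀ * (P : ℝ) ^ (θ - 1) := by
    rw [hD, hD₀, hMr, ← mul_assoc, Real.mul_rpow (by positivity) hP0.le]
    ring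
  have hDW : 2 * D ≤ W := by
    have e1 : (P : ℝ) ^ (θ - 1 / 2) = (P : ℝ) ^ ((1 : ℝ) / 2) * (P : ℝ) ^ (θ - 1) := by
      rw [← Real.rpow_add hP0]; congr 1; ring
    have e2 : 4 * D₀ * (P : ℝ) ^ (θ - 1) ≤ (P : ℝ) ^ ((1 : ℝ) / 2) * (P : ℝ) ^ (θ - 1) :=
      mul_le_mul_of_nonneg_right k3 (by positivity)
    rw [hDD]
    linarith
  have hPθ : (P : ℝ) ^ θ = P * (P : ℝ) ^ (θ - 1) := by
    rw [← Real.rpow_one_add' hP0.le (by linarith)]; congr 1; ring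
  have hWP : (W : ℝ) ≤ (P : ℝ) ^ θ := hWup.trans (hmono _ _ (by linarith))
  have hWMD : (W : ℝ) ≤ M * D := by
    rw [hMr, hDD]
    calc (W : ℝ) ≤ P * (P : ℝ) ^ (θ - 1) := by rw [← hPθ]; exact hWP
      _ ≤ (C₁ * D₀) * (P * (P : ℝ) ^ (θ - 1)) := by
        apply le_mul_of_one_le_left (by positivity)
        nlinarith
      _ = _ := by ring
  -- the sizes
  have hsmall : ∀ x ∈ Y (Qs κ P) u, ∀ y ∈ Y (Qs κ P) u, ∀ z₂ ∈ Ioc P (2 * P),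
      (Vw θ x : ℝ) + Vw θ y + wt θ z₂ ≤ C₂ * (P : ℝ) ^ θ := by
    intro x hx y hy z hz
    have e1 := Vw_up θ κ hθ0 hκ hκ1 P u hP x hx
    have e2 := Vw_up θ κ hθ0 hκ hκ1 P u hP y hy
    have e3 : (wt θ z : ℝ) ≤ A * (P : ℝ) ^ θ := by
      refine (wt_near θ z).1.trans ?_
      rw [hA, ← Real.mul_rpow (by norm_num) hP0.le]
      apply Real.rpow_le_rpow (Nat.cast_nonneg _) _ hθ0.le
      have : z ≤ 4 * P := by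
        rw [mem_Ioc] at hz; omega
      exact_mod_cast this
    rw [← hA] at e1 e2
    rw [hC₂]
    nlinarith
  have hMθ : C₂ * (P : ℝ) ^ θ + W ≤ (M : ℝ) ^ θ := by
    rw [hMr, Real.mul_rpow (by linarith) hP0.le]
    have e1 : (C₁ : ℝ) ≤ (C₁ : ℝ) ^ θ := by
      calc (C₁ : ℝ) = (C₁ : ℝ) ^ (1 : ℝ) := (Real.rpow_one _).symm
        _ ≤ _ := Real.rpow_le_rpow_of_exponent_le hC₁r h1.le
    have e2 : (C₂ + 2) * (P : ℝ) ^ θ ≤ (C₁ : ℝ) ^ θ * (P : ℝ) ^ θ :=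
      mul_le_mul_of_nonneg_right (hC₁C₂.trans e1) (by positivity)
    nlinarith
  have h2M : 2 * (M : ℝ) ^ θ ≤ (2 * (M : ℝ)) ^ θ := by
    rw [Real.mul_rpow (by norm_num) (Nat.cast_nonneg _)]
    apply mul_le_mul_of_nonneg_right _ (by positivity)
    calc (2 : ℝ) = 2 ^ (1 : ℝ) := (Real.rpow_one _).symm
      _ ≤ _ := Real.rpow_le_rpow_of_exponent_le (by norm_num) h1.le
  have hmany : ∀ x ∈ Y (Qs κ P) u, ∀ y ∈ Y (Qs κ P) u, ∀ z₂ ∈ Ioc P (2 * P), (W : ℝ) / (2 * D) ≤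
      ((((Ioc M (4 * M)).filter (fun z => ((N : ℤ) - Vw θ x - Vw θ y - wt θ z₂) - W < (wt θ z : ℤ) ∧
      (wt θ z : ℤ) ≤ (N : ℤ) - Vw θ x - Vw θ y - wt θ z₂)).card : ℕ) : ℝ) := by
    intro x hx y hy z₂ hz₂
    have e1 := hsmall x hx y hy z₂ hz₂
    apply many_z θ h1 M W hM1 hW1 _ D hD _ _ hDW hWMD
    · push_cast
      linarith
    · push_cast
      have a1 : (0 : ℝ) ≤ Vw θ x := Nat.cast_nonneg _
      have a2 : (0 : ℝ) ≤ Vw θ y := Nat.cast_nonneg _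
      have a3 : (0 : ℝ) ≤ wt θ z₂ := Nat.cast_nonneg _
      linarith
  have hwin := window (Y (Qs κ P) u) (Vw θ) (Ioc M (4 * M)) (Ioc P (2 * P)) (wt θ) W N _ hmany
  obtain ⟨Yc, hYc⟩ : ∃ Yc : ℝ, Yc = ((Y (Qs κ P) u).card : ℝ) := ⟨_, rfl⟩
  have hYc0 : 0 < Yc := by rw [hYc]; exact Y_pos κ P u
  have hen : ((((Y (Qs κ P) u) ×ˢ (Y (Qs κ P) u)).filter (fun p => Vw θ p.1 = Vw θ p.2)).card : ℝ) ≤
      Yc ^ 2 * (P : ℝ) ^ (-θ + σ) := by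
    rw [hYc]
    refine le_trans ?_ k2
    unfold En
    have : ((Y (Qs κ P) u) ×ˢ (Y (Qs κ P) u)).filter (fun p => Vw θ p.1 = Vw θ p.2) ⊆
        ((Y (Qs κ P) u) ×ˢ (Y (Qs κ P) u)).filter (fun p => |G θ p.1 - G θ p.2| ≤ 2 * u) := by
      intro p hp
      rw [mem_filter] at hp ⊢
      exact ⟨hp.1, Vw_eq_imp θ _ _ hp.2⟩
    exact_mod_cast card_le_card this
  have hPθ1 : 1 ≤ (P : ℝ) ^ θ := Real.one_le_rpow hPr hθ0.le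
  have hcir := circle (Y (Qs κ P) u) (Vw θ) (Ioc M (4 * M)) (Ioc P (2 * P)) (wt θ) ((P : ℝ) ^ θ) (C * P) (C * (P : ℝ) ^ (1 - σ))
    hPθ1 (by positivity) (by positivity) (fun β hβ => (k1 β hβ).1) (fun β hβ => (k1 β hβ).2) _ hen W hW1 N
  rw [← hYc] at hwin hcir
  set R : ℝ := (((((Y (Qs κ P) u ×ˢ Y (Qs κ P) u) ×ˢ ((Ioc M (4 * M)) ×ˢ (Ioc P (2 * P)))).filter
    (fun p => (Vw θ p.1.1 + Vw θ p.1.2) + (wt θ p.2.1 + wt θ p.2.2) = N)).card : ℕ) : ℝ) with hR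
  have hZ₂ : ((Ioc P (2 * P)).card : ℝ) = P := by
    rw [Nat.card_Ioc, show 2 * P - P = P by omega]
  rw [hZ₂] at hwin
  have hD0 : 0 < D := by rw [hDD]; positivity
  have hW0 : (0 : ℝ) < W := by linarith
  -- main term
  have hP2 : (P : ℝ) ^ (2 - θ) = P / (P : ℝ) ^ (θ - 1) := by
    rw [eq_div_iff (by positivity), ← Real.rpow_add hP0]
    rw [show 2 - θ + (θ - 1) = 1 by ring, Real.rpow_one]
  have hmain : c₀ * Yc ^ 2 * (P : ℝ) ^ (2 - θ) ≤ (1 / (W : ℝ)) * ∑ j ∈ range W,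
      (((((Y (Qs κ P) u ×ˢ Y (Qs κ P) u) ×ˢ ((Ioc M (4 * M)) ×ˢ (Ioc P (2 * P)))).filter
      (fun p => (((Vw θ p.1.1 + Vw θ p.1.2) + (wt θ p.2.1 + wt θ p.2.2) : ℕ) : ℤ) = (N : ℤ) - j)).card : ℕ) : ℝ) := by
    have e1 : c₀ * Yc ^ 2 * (P : ℝ) ^ (2 - θ) = (1 / (W : ℝ)) * (Yc ^ 2 * P * ((W : ℝ) / (2 * D))) := by
      rw [hc₀, hDD, hP2]
      field_simp
    rw [e1]
    exact mul_le_mul_of_nonneg_left hwin (by positivity)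
  -- first error
  have herr1 : 28 * Yc ^ 2 * (C * P) ^ 2 * W * Real.log (1 + (P : ℝ) ^ θ / 2) / ((P : ℝ) ^ θ) ^ 2 ≤
      c₀ / 4 * Yc ^ 2 * (P : ℝ) ^ (2 - θ) := by
    have hlog : Real.log (1 + (P : ℝ) ^ θ / 2) ≤ θ * (P : ℝ) ^ ((1 : ℝ) / 4) := by
      have e1 : 1 + (P : ℝ) ^ θ / 2 ≤ (4 * (P : ℝ)) ^ θ := by
        rw [Real.mul_rpow (by norm_num) hP0.le]
        have e2 : (4 : ℝ) ≤ 4 ^ θ := by
          calc (4 : ℝ) = 4 ^ (1 : ℝ) := (Real.rpow_one _).symm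
            _ ≤ _ := Real.rpow_le_rpow_of_exponent_le (by norm_num) h1.le
        nlinarith
      have e3 := Real.log_le_log (by positivity) e1
      rw [Real.log_rpow (by positivity)] at e3
      refine e3.trans (mul_le_mul_of_nonneg_left ?_ hθ0.le)
      linarith
    have hlog0 : 0 ≤ Real.log (1 + (P : ℝ) ^ θ / 2) := Real.log_nonneg (by linarith [show 0 < (P : ℝ) ^ θ by positivity])
    have e5 : 112 * C ^ 2 * θ ≤ c₀ * (P : ℝ) ^ ((1 : ℝ) / 4) := by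
      rw [div_le_iff₀ hc₀0] at k5
      linarith
    have hPθ2 : ((P : ℝ) ^ θ) ^ 2 = (P : ℝ) ^ (2 * θ) := by
      rw [← Real.rpow_natCast, ← Real.rpow_mul hP0.le]; congr 1; push_cast; ring
    have hPsq : (P : ℝ) ^ 2 = (P : ℝ) ^ (2 : ℝ) := by norm_num
    rw [div_le_iff₀ (by positivity)]
    calc 28 * Yc ^ 2 * (C * P) ^ 2 * W * Real.log (1 + (P : ℝ) ^ θ / 2)
        ≤ 28 * Yc ^ 2 * (C * P) ^ 2 * (P : ℝ) ^ (θ - 1 / 2) * (θ * (P : ℝ) ^ ((1 : ℝ) / 4)) := by gcongr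
      _ = Yc ^ 2 * (112 * C ^ 2 * θ) / 4 * (P : ℝ) ^ 2 * (P : ℝ) ^ (θ - 1 / 2) * (P : ℝ) ^ ((1 : ℝ) / 4) := by ring
      _ ≤ Yc ^ 2 * (c₀ * (P : ℝ) ^ ((1 : ℝ) / 4)) / 4 * (P : ℝ) ^ 2 * (P : ℝ) ^ (θ - 1 / 2) * (P : ℝ) ^ ((1 : ℝ) / 4) := by
        gcongr
      _ = c₀ / 4 * Yc ^ 2 * (P : ℝ) ^ (2 - θ) * ((P : ℝ) ^ θ) ^ 2 := by
        rw [hPθ2, hPsq]
        have e6 : (P : ℝ) ^ ((1 : ℝ) / 4) * (P : ℝ) ^ (2 : ℝ) * (P : ℝ) ^ (θ - 1 / 2) * (P : ℝ) ^ ((1 : ℝ) / 4) =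
            (P : ℝ) ^ (2 - θ) * (P : ℝ) ^ (2 * θ) := by
          rw [← Real.rpow_add hP0, ← Real.rpow_add hP0, ← Real.rpow_add hP0, ← Real.rpow_add hP0]
          congr 1
          ring
        calc _ = c₀ / 4 * Yc ^ 2 * ((P : ℝ) ^ ((1 : ℝ) / 4) * (P : ℝ) ^ (2 : ℝ) * (P : ℝ) ^ (θ - 1 / 2) * (P : ℝ) ^ ((1 : ℝ) / 4)) := by ring
          _ = _ := by rw [e6]; ring
  -- second error
  have herr2 : 4 * (C * (P : ℝ) ^ (1 - σ)) ^ 2 * (Yc ^ 2 * (P : ℝ) ^ (-θ + σ)) ≤ c₀ / 4 * Yc ^ 2 * (P : ℝ) ^ (2 - θ) := by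
    have e5 : 16 * C ^ 2 ≤ c₀ * (P : ℝ) ^ σ := by
      rw [div_le_iff₀ hc₀0] at k6
      linarith
    have e6 : ((P : ℝ) ^ (1 - σ)) ^ 2 * (P : ℝ) ^ (-θ + σ) * (P : ℝ) ^ σ = (P : ℝ) ^ (2 - θ) := by
      rw [← Real.rpow_natCast, ← Real.rpow_mul hP0.le, ← Real.rpow_add hP0, ← Real.rpow_add hP0]
      congr 1
      push_cast
      ring
    calc 4 * (C * (P : ℝ) ^ (1 - σ)) ^ 2 * (Yc ^ 2 * (P : ℝ) ^ (-θ + σ))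
        = (16 * C ^ 2) * (Yc ^ 2 / 4 * (((P : ℝ) ^ (1 - σ)) ^ 2 * (P : ℝ) ^ (-θ + σ))) := by ring
      _ ≤ (c₀ * (P : ℝ) ^ σ) * (Yc ^ 2 / 4 * (((P : ℝ) ^ (1 - σ)) ^ 2 * (P : ℝ) ^ (-θ + σ))) :=
          mul_le_mul_of_nonneg_right e5 (by positivity)
      _ = c₀ / 4 * Yc ^ 2 * (((P : ℝ) ^ (1 - σ)) ^ 2 * (P : ℝ) ^ (-θ + σ) * (P : ℝ) ^ σ) := by ring
      _ = _ := by rw [e6]
  have hpos : 0 < c₀ / 2 * Yc ^ 2 * (P : ℝ) ^ (2 - θ) := by positivity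
  have hRpos : 0 < R := by
    have := hmain.trans hcir
    linarith
  have hne : ((((Y (Qs κ P) u ×ˢ Y (Qs κ P) u) ×ˢ ((Ioc M (4 * M)) ×ˢ (Ioc P (2 * P)))).filter
    (fun p => (Vw θ p.1.1 + Vw θ p.1.2) + (wt θ p.2.1 + wt θ p.2.2) = N))).Nonempty := by
    rw [← card_pos]
    rw [hR] at hRpos
    exact_mod_cast hRpos
  obtain ⟨p, hp⟩ := hne
  exact ⟨p.1.1, p.1.2, p.2.1, p.2.2, (mem_filter.1 hp).2⟩

/-- all large integers -/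
theorem all_large (θ : ℝ) (h1 : 1 < θ) (hn : ∀ m : ℕ, θ ≠ m) (u : ℕ)
    (hE : ∀ τ : ℝ, 0 < τ → ∃ κ : ℝ, 0 ≤ κ ∧ κ ≤ 1 ∧ ∀ᶠ j : ℕ in atTop, En θ κ (2 * u) (2 ^ j) u ≤
      ((Y (Qs κ (2 ^ j)) u).card : ℝ) ^ 2 * ((2 ^ j : ℕ) : ℝ) ^ (-θ + τ)) :
    ∃ N₀ : ℕ, ∀ N ≥ N₀, ∃ (x y : Fin u → ℕ × ℕ) (z₁ z₂ : ℕ), Vw θ x + Vw θ y + (wt θ z₁ + wt θ z₂) = N := by
  have hθ0 : 0 < θ := by linarith
  obtain ⟨C₁, hC₁, hev⟩ := one_scale θ h1 hn u hE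
  obtain ⟨j₀, hj₀⟩ := eventually_atTop.1 hev
  have hC₁r : (1 : ℝ) ≤ C₁ := by exact_mod_cast hC₁
  set f : ℕ → ℝ := fun j => (2 * ((C₁ * 2 ^ j : ℕ) : ℝ)) ^ θ with hf
  have hmono : Monotone f := by
    intro i j hij
    apply Real.rpow_le_rpow (by positivity) _ hθ0.le
    have : C₁ * 2 ^ i ≤ C₁ * 2 ^ j := Nat.mul_le_mul_left _ (Nat.pow_le_pow_right (by norm_num) hij)
    have : ((C₁ * 2 ^ i : ℕ) : ℝ) ≤ ((C₁ * 2 ^ j : ℕ) : ℝ) := by exact_mod_cast this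
    linarith
  have hunb : ∀ N : ℕ, (N : ℝ) < f (N + 1) := by
    intro N
    have e1 : (N : ℝ) < 2 ^ N := by exact_mod_cast Nat.lt_two_pow_self
    have e2 : (2 : ℝ) ^ N ≤ 2 * ((C₁ * 2 ^ (N + 1) : ℕ) : ℝ) := by
      push_cast
      rw [pow_succ]
      have : (0 : ℝ) < 2 ^ N := by positivity
      nlinarith
    have e3 : 1 ≤ 2 * ((C₁ * 2 ^ (N + 1) : ℕ) : ℝ) := by
      have : (1 : ℝ) ≤ 2 ^ N := one_le_pow₀ (by norm_num)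
      linarith
    calc (N : ℝ) < 2 * ((C₁ * 2 ^ (N + 1) : ℕ) : ℝ) := by linarith
      _ = (2 * ((C₁ * 2 ^ (N + 1) : ℕ) : ℝ)) ^ (1 : ℝ) := (Real.rpow_one _).symm
      _ ≤ _ := Real.rpow_le_rpow_of_exponent_le e3 h1.le
  refine ⟨⌈f j₀⌉₊, fun N hN => ?_⟩
  have hN' : f j₀ ≤ N := Nat.ceil_le.1 hN
  have hex : ∃ j : ℕ, (N : ℝ) < f (j + 1) := ⟨N, hunb N⟩
  obtain ⟨j, hj⟩ : ∃ j, j = Nat.find hex := ⟨_, rfl⟩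
  have hj1 : (N : ℝ) < f (j + 1) := by rw [hj]; exact Nat.find_spec hex
  have hjj : j₀ ≤ j := by
    by_contra hcon
    push Not at hcon
    have := hmono (show j + 1 ≤ j₀ by omega)
    linarith
  have hj2 : f j ≤ N := by
    rcases Nat.eq_zero_or_pos j with h0 | h0
    · rw [h0]; exact (hmono (Nat.zero_le j₀)).trans hN'
    · have := Nat.find_min hex (show j - 1 < Nat.find hex by rw [← hj]; omega)
      push Not at this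
      rwa [show j - 1 + 1 = j by omega] at this
  apply hj₀ j hjj N hj2
  refine hj1.trans_le (le_of_eq ?_)
  simp only [hf]
  congr 1
  push_cast
  ring

end Pool.Agent.Zk40.W
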