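import Mathlib
import Pool.Agent.H469R2.NK.KL

/-!
An abstract form of the circle method with two variables whose exponential sums are small away from zero, and an
energy bound.
-/

namespace Pool.Agent.Zk40.W

open Finset MeasureTheory intervalIntegral
open Pool.Agent.H469R2.NK (e norm_e e_add conj_e e_zero)

/-- the exponential sum -/
noncomputable def ES {ι : Type} (S : Finset ι) (v : ι → ℕ) (β : ℝ) : ℂ := ∑ t ∈ S, e (β * v t)

lemma e_cont : Continuous e := by
  unfold e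
  fun_prop

lemma ES_cont {ι : Type} (S : Finset ι) (v : ι → ℕ) : Continuous (ES S v) := by
  unfold ES
  exact continuous_finsetSum _ fun t _ => e_cont.comp (by fun_prop)

lemma int_e (k : ℤ) : ∫ β in (-(1 / 2) : ℝ)..(1 / 2), e (β * k) = if k = 0 then 1 else 0 := by
  split_ifs with hk
  · rw [hk]
    simp only [Int.cast_zero, mul_zero, e_zero]
    rw [intervalIntegral.integral_const]
    norm_num
  · have hc : (2 * Real.pi * k * Complex.I : ℂ) ≠ 0 := by
      have h1 : (k : ℂ) ≠ 0 := by exact_mod_cast hk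
      have h2 : (Real.pi : ℂ) ≠ 0 := by exact_mod_cast Real.pi_ne_zero
      exact mul_ne_zero (mul_ne_zero (mul_ne_zero two_ne_zero h2) h1) Complex.I_ne_zero
    have h1 : ∀ β : ℝ, e (β * k) = Complex.exp ((2 * Real.pi * k * Complex.I : ℂ) * β) := by
      intro β
      unfold e
      congr 1
      push_cast
      ring
    simp_rw [h1]
    rw [integral_exp_mul_complex hc]
    have h2 : Complex.exp ((2 * Real.pi * k * Complex.I : ℂ) * ((1 / 2 : ℝ) : ℂ)) =
        Complex.exp ((2 * Real.pi * k * Complex.I : ℂ) * ((-(1 / 2) : ℝ) : ℂ)) := by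
      have h3 : (2 * Real.pi * k * Complex.I : ℂ) * ((1 / 2 : ℝ) : ℂ) =
          (2 * Real.pi * k * Complex.I : ℂ) * ((-(1 / 2) : ℝ) : ℂ) + k * (2 * Real.pi * Complex.I) := by
        push_cast; ring
      rw [h3, Complex.exp_add, Complex.exp_int_mul_two_pi_mul_I, mul_one]
    rw [h2, sub_self, zero_div]

lemma int_sum {ι : Type} (S : Finset ι) (k : ι → ℤ) :
    ∫ β in (-(1 / 2) : ℝ)..(1 / 2), ∑ t ∈ S, e (β * k t) = (((S.filter (fun t => k t = 0)).card : ℕ) : ℂ) := by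
  rw [intervalIntegral.integral_finsetSum]
  · simp_rw [int_e]
    rw [card_filter]
    push_cast
    rfl
  · intro t _
    exact (e_cont.comp (by fun_prop)).intervalIntegrable _ _

lemma ES_mul {ι ι' : Type} (S : Finset ι) (S' : Finset ι') (v : ι → ℕ) (v' : ι' → ℕ) (β : ℝ) :
    ES S v β * ES S' v' β = ES (S ×ˢ S') (fun p => v p.1 + v' p.2) β := by
  unfold ES
  rw [sum_mul_sum, sum_product]
  apply sum_congr rfl
  intro a _
  apply sum_congr rfl
  intro b _
  rw [← e_add]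
  congr 1
  push_cast
  ring

lemma coeff {ι : Type} (S : Finset ι) (v : ι → ℕ) (n : ℤ) :
    ∫ β in (-(1 / 2) : ℝ)..(1 / 2), ES S v β * e (-(β * n)) = (((S.filter (fun t => (v t : ℤ) = n)).card : ℕ) : ℂ) := by
  have h1 : ∀ β : ℝ, ES S v β * e (-(β * n)) = ∑ t ∈ S, e (β * ((v t : ℤ) - n : ℤ)) := by
    intro β
    unfold ES
    rw [sum_mul]
    apply sum_congr rfl
    intro t _
    rw [← e_add]
    congr 1
    push_cast
    ring
  simp_rw [h1]
  rw [int_sum]
  congr 2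
  ext t
  simp only [mem_filter]
  constructor
  · rintro ⟨a, b⟩; exact ⟨a, by omega⟩
  · rintro ⟨a, b⟩; exact ⟨a, by omega⟩

lemma parseval {ι : Type} (S : Finset ι) (v : ι → ℕ) :
    ∫ β in (-(1 / 2) : ℝ)..(1 / 2), ‖ES S v β‖ ^ 2 = (((S ×ˢ S).filter (fun p => v p.1 = v p.2)).card : ℝ) := by
  have h1 : ∀ β : ℝ, ((‖ES S v β‖ ^ 2 : ℝ) : ℂ) = ∑ p ∈ S ×ˢ S, e (β * ((v p.1 : ℤ) - v p.2 : ℤ)) := by
    intro β
    rw [← Complex.normSq_eq_norm_sq, ← Complex.mul_conj]
    unfold ES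
    rw [map_sum, sum_mul_sum, sum_product]
    apply sum_congr rfl
    intro a _
    apply sum_congr rfl
    intro b _
    rw [conj_e, ← e_add]
    congr 1
    push_cast
    ring
  have h2 : ((∫ β in (-(1 / 2) : ℝ)..(1 / 2), ‖ES S v β‖ ^ 2 : ℝ) : ℂ) =
      (((((S ×ˢ S).filter (fun p => v p.1 = v p.2)).card : ℝ)) : ℂ) := by
    rw [← intervalIntegral.integral_ofReal]
    simp_rw [h1]
    rw [int_sum]
    push_cast
    congr 2
    ext p
    simp only [mem_filter]
    constructor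
    · rintro ⟨a, b⟩; exact ⟨a, by omega⟩
    · rintro ⟨a, b⟩; exact ⟨a, by omega⟩
  exact_mod_cast h2

/-- the average of the characters over a window -/
noncomputable def DW (W : ℕ) (β : ℝ) : ℂ := (1 / (W : ℂ)) * ∑ j ∈ range W, e (β * j)

lemma e_near (x : ℝ) : ‖e x - 1‖ ≤ 7 * |x| := by
  have h2 := Real.norm_exp_I_mul_ofReal_sub_one_le (x := 2 * Real.pi * x)
  have h3 : e x = Complex.exp (Complex.I * ((2 * Real.pi * x : ℝ) : ℂ)) := by
    unfold e
    rw [mul_comm]
  rw [h3]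
  refine h2.trans ?_
  rw [Real.norm_eq_abs, abs_mul, abs_of_pos (by positivity)]
  apply mul_le_mul_of_nonneg_right _ (abs_nonneg _)
  linarith [Real.pi_lt_d2]

lemma DW_bound (W : ℕ) (hW : 1 ≤ W) (β : ℝ) : ‖1 - DW W β‖ ≤ 2 ∧ ‖1 - DW W β‖ ≤ 7 * W * |β| := by
  have hW0 : (0 : ℝ) < W := by exact_mod_cast hW
  have hWc : (W : ℂ) ≠ 0 := by exact_mod_cast hW0.ne'
  have h1 : 1 - DW W β = (1 / (W : ℂ)) * ∑ j ∈ range W, (1 - e (β * j)) := by
    unfold DW
    rw [sum_sub_distrib, sum_const, card_range, nsmul_eq_mul]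
    field_simp
  have h4 : ‖(1 / (W : ℂ))‖ = 1 / W := by rw [norm_div, norm_one, Complex.norm_natCast]
  constructor
  · rw [h1, norm_mul, h4]
    calc 1 / (W : ℝ) * ‖∑ j ∈ range W, (1 - e (β * j))‖ ≤ 1 / (W : ℝ) * ∑ _j ∈ range W, (2 : ℝ) := by
          apply mul_le_mul_of_nonneg_left _ (by positivity)
          refine (norm_sum_le _ _).trans (sum_le_sum fun j _ => ?_)
          refine (norm_sub_le _ _).trans ?_
          rw [norm_one, norm_e]
          norm_num
      _ = 2 := by rw [sum_const, card_range, nsmul_eq_mul]; field_simp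
  · rw [h1, norm_mul, h4]
    calc 1 / (W : ℝ) * ‖∑ j ∈ range W, (1 - e (β * j))‖ ≤ 1 / (W : ℝ) * ∑ _j ∈ range W, (7 * W * |β|) := by
          apply mul_le_mul_of_nonneg_left _ (by positivity)
          refine (norm_sum_le _ _).trans (sum_le_sum fun j hj => ?_)
          rw [norm_sub_rev]
          refine (e_near _).trans ?_
          rw [abs_mul, Nat.abs_cast]
          have : (j : ℝ) ≤ W := by exact_mod_cast (mem_range.1 hj).le
          have h5 : |β| * j ≤ |β| * W := mul_le_mul_of_nonneg_left this (abs_nonneg _)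
          linarith
      _ = 7 * W * |β| := by rw [sum_const, card_range, nsmul_eq_mul]; field_simp

lemma int_log (N₀ : ℝ) (hN : 1 ≤ N₀) : ∫ β in (-(1 / 2) : ℝ)..(1 / 2), 1 / (1 + N₀ * |β|) = 2 / N₀ * Real.log (1 + N₀ / 2) := by
  have hN0 : 0 < N₀ := by linarith
  have hcont : Continuous fun β : ℝ => 1 / (1 + N₀ * |β|) := by
    apply Continuous.div continuous_const (by fun_prop)
    intro β
    positivity
  have hright : ∫ β in (0 : ℝ)..(1 / 2), 1 / (1 + N₀ * |β|) = 1 / N₀ * Real.log (1 + N₀ / 2) := by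
    have h1 : ∫ β in (0 : ℝ)..(1 / 2), 1 / (1 + N₀ * |β|) = ∫ β in (0 : ℝ)..(1 / 2), 1 / (1 + N₀ * β) := by
      apply intervalIntegral.integral_congr
      intro β hβ
      rw [Set.uIcc_of_le (by norm_num)] at hβ
      simp only
      rw [abs_of_nonneg hβ.1]
    rw [h1]
    have h2 : ∀ β ∈ Set.uIcc (0 : ℝ) (1 / 2), HasDerivAt (fun β => 1 / N₀ * Real.log (1 + N₀ * β)) (1 / (1 + N₀ * β)) β := by
      intro β hβ
      rw [Set.uIcc_of_le (by norm_num)] at hβ
      have hpos : 0 < 1 + N₀ * β := by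
        have := mul_nonneg hN0.le hβ.1
        linarith
      have h3 : HasDerivAt (fun β => 1 + N₀ * β) N₀ β := by
        simpa using ((hasDerivAt_id β).const_mul N₀).const_add 1
      have h4 := (h3.log hpos.ne').const_mul (1 / N₀)
      have h5 : 1 / (1 + N₀ * β) = 1 / N₀ * (N₀ / (1 + N₀ * β)) := by field_simp
      rw [h5]
      exact h4
    rw [intervalIntegral.integral_eq_sub_of_hasDerivAt h2]
    · rw [mul_zero, add_zero, Real.log_one, mul_zero, sub_zero]
      congr 2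
      ring
    · apply ContinuousOn.intervalIntegrable
      intro β hβ
      rw [Set.uIcc_of_le (by norm_num)] at hβ
      have hpos : 0 < 1 + N₀ * β := by
        have := mul_nonneg hN0.le hβ.1
        linarith
      apply ContinuousAt.continuousWithinAt
      exact ContinuousAt.div (f := fun _ => (1 : ℝ)) (g := fun x => 1 + N₀ * x) continuousAt_const (by fun_prop) hpos.ne'
  have hleft : ∫ β in (-(1 / 2) : ℝ)..0, 1 / (1 + N₀ * |β|) = 1 / N₀ * Real.log (1 + N₀ / 2) := by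
    rw [← hright]
    have h1 := intervalIntegral.integral_comp_neg (a := (0 : ℝ)) (b := 1 / 2) (fun β : ℝ => 1 / (1 + N₀ * |β|))
    simp only [abs_neg, neg_zero] at h1
    exact h1.symm
  rw [← intervalIntegral.integral_add_adjacent_intervals (hcont.intervalIntegrable _ 0) (hcont.intervalIntegrable 0 _),
    hleft, hright]
  ring

/-- The comparison of the number of representations with the average over a window. -/
theorem circle {ι : Type} (Ys : Finset ι) (V : ι → ℕ) (Z₁ Z₂ : Finset ℕ) (w : ℕ → ℕ) (N₀ X₁ X₂ : ℝ) (hN₀ : 1 ≤ N₀)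
    (hX₁ : 0 ≤ X₁) (hX₂ : 0 ≤ X₂)
    (hZ₁ : ∀ β : ℝ, |β| ≤ 1 / 2 → ‖ES Z₁ w β‖ ≤ X₁ / (1 + N₀ * |β|) + X₂)
    (hZ₂ : ∀ β : ℝ, |β| ≤ 1 / 2 → ‖ES Z₂ w β‖ ≤ X₁ / (1 + N₀ * |β|) + X₂)
    (E : ℝ) (hE : (((Ys ×ˢ Ys).filter (fun p => V p.1 = V p.2)).card : ℝ) ≤ E) (W : ℕ) (hW : 1 ≤ W) (N : ℕ) :
    (1 / (W : ℝ)) * ∑ j ∈ range W, (((((Ys ×ˢ Ys) ×ˢ (Z₁ ×ˢ Z₂)).filter
      (fun p => (((V p.1.1 + V p.1.2) + (w p.2.1 + w p.2.2) : ℕ) : ℤ) = (N : ℤ) - j)).card : ℕ) : ℝ) ≤
    (((((Ys ×ˢ Ys) ×ˢ (Z₁ ×ˢ Z₂)).filter (fun p => (V p.1.1 + V p.1.2) + (w p.2.1 + w p.2.2) = N)).card : ℕ) : ℝ) +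
      28 * (Ys.card : ℝ) ^ 2 * X₁ ^ 2 * W * Real.log (1 + N₀ / 2) / N₀ ^ 2 + 4 * X₂ ^ 2 * E := by
  have hN0 : 0 < N₀ := by linarith
  have hW0 : (0 : ℝ) < W := by exact_mod_cast hW
  have hWc : (W : ℂ) ≠ 0 := by exact_mod_cast hW0.ne'
  set S := (Ys ×ˢ Ys) ×ˢ (Z₁ ×ˢ Z₂) with hS
  set v : (ι × ι) × (ℕ × ℕ) → ℕ := fun p => (V p.1.1 + V p.1.2) + (w p.2.1 + w p.2.2) with hv
  have hF : ∀ β, ES S v β = (ES Ys V β * ES Ys V β) * (ES Z₁ w β * ES Z₂ w β) := by
    intro β
    rw [ES_mul, ES_mul, ES_mul]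
  set R : ℤ → ℝ := fun n => (((S.filter (fun p => (v p : ℤ) = n)).card : ℕ) : ℝ) with hR
  have hRN : (((S.filter (fun p => v p = N)).card : ℕ) : ℝ) = R N := by
    rw [hR]
    simp only
    congr 2
    ext p
    simp only [mem_filter, Nat.cast_inj]
  -- the difference as an integral
  have hint : ((R N - (1 / (W : ℝ)) * ∑ j ∈ range W, R ((N : ℤ) - j) : ℝ) : ℂ) =
      ∫ β in (-(1 / 2) : ℝ)..(1 / 2), ES S v β * e (-(β * N)) * (1 - DW W β) := by
    have h1 : ∀ β : ℝ, ES S v β * e (-(β * N)) * (1 - DW W β) =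
        ES S v β * e (-(β * ((N : ℤ) : ℝ))) - (1 / (W : ℂ)) * ∑ j ∈ range W, ES S v β * e (-(β * (((N : ℤ) - j : ℤ) : ℝ))) := by
      intro β
      unfold DW
      rw [mul_sub, mul_one]
      push_cast
      congr 1
      rw [mul_comm (ES S v β * e (-(β * N))), mul_assoc, sum_mul]
      congr 1
      apply sum_congr rfl
      intro j _
      have : e (-(β * (N - j))) = e (-(β * N)) * e (β * j) := by
        rw [← e_add]; congr 1; ring
      rw [this]
      ring
    simp_rw [h1]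
    have hcont : ∀ n : ℤ, Continuous fun β : ℝ => ES S v β * e (-(β * (n : ℝ))) := by
      intro n
      exact (ES_cont S v).mul (e_cont.comp (by fun_prop))
    have i1 : IntervalIntegrable (fun β : ℝ => ES S v β * e (-(β * ((N : ℤ) : ℝ)))) volume (-(1 / 2)) (1 / 2) :=
      (hcont N).intervalIntegrable _ _
    have i2 : IntervalIntegrable (fun β : ℝ => (1 / (W : ℂ)) * ∑ j ∈ range W, ES S v β * e (-(β * (((N : ℤ) - j : ℤ) : ℝ))))
        volume (-(1 / 2)) (1 / 2) :=
      (continuous_const.mul (continuous_finsetSum _ fun j _ => hcont _)).intervalIntegrable _ _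
    rw [intervalIntegral.integral_sub i1 i2, intervalIntegral.integral_const_mul,
      intervalIntegral.integral_finsetSum (fun j _ => (hcont _).intervalIntegrable _ _)]
    simp_rw [coeff]
    push_cast
    simp only [hR]
    push_cast
    rfl
  have hbound : ‖∫ β in (-(1 / 2) : ℝ)..(1 / 2), ES S v β * e (-(β * N)) * (1 - DW W β)‖ ≤
      ∫ β in (-(1 / 2) : ℝ)..(1 / 2), ((14 * (Ys.card : ℝ) ^ 2 * X₁ ^ 2 * W / N₀) * (1 / (1 + N₀ * |β|)) +
        4 * X₂ ^ 2 * ‖ES Ys V β‖ ^ 2) := by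
    apply intervalIntegral.norm_integral_le_of_norm_le (by norm_num)
    · apply ae_of_all
      intro β hβ
      have hβ1 : |β| ≤ 1 / 2 := by
        rw [abs_le]
        exact ⟨hβ.1.le, hβ.2⟩
      have hβ0 := abs_nonneg β
      rw [norm_mul, norm_mul, norm_e, mul_one, hF, norm_mul, norm_mul, norm_mul]
      obtain ⟨d1, d2⟩ := DW_bound W hW β
      have z1 := hZ₁ β hβ1
      have z2 := hZ₂ β hβ1
      set a := X₁ / (1 + N₀ * |β|) with ha
      have hden : 0 < 1 + N₀ * |β| := by positivity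
      have ha0 : 0 ≤ a := by positivity
      set f := ‖ES Ys V β‖ with hf
      have hf0 : 0 ≤ f := norm_nonneg _
      have hfY : f ≤ Ys.card := by
        rw [hf]
        unfold ES
        refine (norm_sum_le _ _).trans ?_
        simp [norm_e]
      have hzz : ‖ES Z₁ w β‖ * ‖ES Z₂ w β‖ ≤ 2 * a ^ 2 + 2 * X₂ ^ 2 := by
        calc ‖ES Z₁ w β‖ * ‖ES Z₂ w β‖ ≤ (a + X₂) * (a + X₂) := mul_le_mul z1 z2 (norm_nonneg _) (by positivity)
          _ ≤ _ := by nlinarith [sq_nonneg (a - X₂)]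
      set d := ‖1 - DW W β‖ with hd
      have hd0 : 0 ≤ d := norm_nonneg _
      calc f * f * (‖ES Z₁ w β‖ * ‖ES Z₂ w β‖) * d ≤ f * f * (2 * a ^ 2 + 2 * X₂ ^ 2) * d := by gcongr
        _ = (f * f * (2 * a ^ 2)) * d + (f * f * (2 * X₂ ^ 2)) * d := by ring
        _ ≤ ((Ys.card : ℝ) * Ys.card * (2 * a ^ 2)) * (7 * W * |β|) + (f * f * (2 * X₂ ^ 2)) * 2 := by gcongr
        _ ≤ (14 * (Ys.card : ℝ) ^ 2 * X₁ ^ 2 * W / N₀) * (1 / (1 + N₀ * |β|)) + 4 * X₂ ^ 2 * f ^ 2 := by
          have h5 : a ^ 2 * |β| ≤ X₁ ^ 2 / N₀ * (1 / (1 + N₀ * |β|)) := by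
            have h6 : N₀ * |β| ≤ 1 + N₀ * |β| := by linarith
            rw [ha, div_pow, div_mul_eq_mul_div, div_mul_div_comm, mul_one, div_le_div_iff₀ (by positivity) (by positivity)]
            have h7 : 0 ≤ X₁ ^ 2 * (1 + N₀ * |β|) := by positivity
            nlinarith [mul_le_mul_of_nonneg_left h6 h7]
          have h8 : (Ys.card : ℝ) * Ys.card * (2 * a ^ 2) * (7 * W * |β|) =
              14 * (Ys.card : ℝ) ^ 2 * W * (a ^ 2 * |β|) := by ring
          rw [h8]
          have h9 : 14 * (Ys.card : ℝ) ^ 2 * W * (a ^ 2 * |β|) ≤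
              14 * (Ys.card : ℝ) ^ 2 * W * (X₁ ^ 2 / N₀ * (1 / (1 + N₀ * |β|))) :=
            mul_le_mul_of_nonneg_left h5 (by positivity)
          calc _ ≤ 14 * (Ys.card : ℝ) ^ 2 * W * (X₁ ^ 2 / N₀ * (1 / (1 + N₀ * |β|))) + f * f * (2 * X₂ ^ 2) * 2 := by
                linarith
            _ = _ := by ring
    · apply Continuous.intervalIntegrable
      apply Continuous.add
      · apply continuous_const.mul
        apply Continuous.div continuous_const (by fun_prop)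
        intro β
        positivity
      · exact continuous_const.mul ((ES_cont Ys V).norm.pow 2)
  have hval : ∫ β in (-(1 / 2) : ℝ)..(1 / 2), ((14 * (Ys.card : ℝ) ^ 2 * X₁ ^ 2 * W / N₀) * (1 / (1 + N₀ * |β|)) +
        4 * X₂ ^ 2 * ‖ES Ys V β‖ ^ 2) ≤ 28 * (Ys.card : ℝ) ^ 2 * X₁ ^ 2 * W * Real.log (1 + N₀ / 2) / N₀ ^ 2 + 4 * X₂ ^ 2 * E := by
    rw [intervalIntegral.integral_add, intervalIntegral.integral_const_mul, intervalIntegral.integral_const_mul,
      int_log N₀ hN₀, parseval]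
    · apply add_le_add
      · apply le_of_eq
        field_simp
        ring
      · exact mul_le_mul_of_nonneg_left hE (by positivity)
    · apply Continuous.intervalIntegrable
      apply continuous_const.mul
      apply Continuous.div continuous_const (by fun_prop)
      intro β
      positivity
    · exact (continuous_const.mul ((ES_cont Ys V).norm.pow 2)).intervalIntegrable _ _
  have hfin : ‖((R N - (1 / (W : ℝ)) * ∑ j ∈ range W, R ((N : ℤ) - j) : ℝ) : ℂ)‖ ≤
      28 * (Ys.card : ℝ) ^ 2 * X₁ ^ 2 * W * Real.log (1 + N₀ / 2) / N₀ ^ 2 + 4 * X₂ ^ 2 * E := by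
    rw [hint]
    exact hbound.trans hval
  rw [Complex.norm_real, Real.norm_eq_abs, abs_le] at hfin
  rw [hRN]
  have := hfin.1
  linarith

end Pool.Agent.Zk40.W
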