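import Pool.Agent.Zk40.W.Circle
import Pool.Agent.N193.PS.Dec

/-!
Waring's problem for almost all real exponents: exponential sums over the integer parts of `z ^ θ`.
-/

namespace Pool.Agent.Zk40.W

open Finset Filter Topology
open Pool.Agent.H469R2.NK (e norm_e e_add conj_e e_zero)
open Pool.Agent.N193.PS (SV)

/-- the derivatives of the power -/
noncomputable def pd (θ : ℝ) (m : ℕ) (t : ℝ) : ℝ := (∏ i ∈ range m, (θ - i)) * t ^ (θ - m)

lemma pd_zero (θ t : ℝ) : pd θ 0 t = t ^ θ := by simp [pd]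

lemma pd_sv (θ : ℝ) (h0 : 0 < θ) (hn : ∀ m : ℕ, θ ≠ m) : SV θ (pd θ) where
  pos := h0
  nat := hn
  der := by
    refine ⟨1, fun m t ht => ?_⟩
    have h1 := (Real.hasDerivAt_rpow_const (x := t) (p := θ - m) (Or.inl (by linarith))).const_mul
      (∏ i ∈ range m, (θ - (i : ℝ)))
    have h2 : pd θ (m + 1) t = (∏ i ∈ range m, (θ - (i : ℝ))) * ((θ - m) * t ^ (θ - m - 1)) := by
      unfold pd
      rw [prod_range_succ]
      push_cast
      rw [show θ - (m + 1) = θ - m - 1 by ring]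
      ring
    rw [h2]
    exact h1
  fpos := by
    filter_upwards [eventually_gt_atTop (0 : ℝ)] with t ht
    rw [pd_zero]
    positivity
  lim := by
    intro m
    apply tendsto_const_nhds.congr'
    filter_upwards [eventually_gt_atTop (0 : ℝ)] with t ht
    rw [pd_zero]
    unfold pd
    have h1 : t ^ m * t ^ (θ - m) = t ^ θ := by
      rw [← Real.rpow_natCast, ← Real.rpow_add ht]
      congr 1
      ring
    have h2 : t ^ θ ≠ 0 := by positivity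
    have h3 : t ^ m * ((∏ i ∈ range m, (θ - (i : ℝ))) * t ^ (θ - m)) = (∏ i ∈ range m, (θ - (i : ℝ))) * t ^ θ := by
      rw [← h1]; ring
    rw [h3, mul_div_assoc, div_self h2, mul_one]

/-- the weight -/
noncomputable def wt (θ : ℝ) (z : ℕ) : ℕ := ⌊(z : ℝ) ^ θ⌋₊

lemma wt_floor (θ : ℝ) (z : ℕ) : ((⌊(z : ℝ) ^ θ⌋ : ℤ) : ℝ) = (wt θ z : ℝ) := by
  unfold wt
  rw [← natCast_floor_eq_intCast_floor (by positivity)]

lemma ES_neg {ι : Type} (S : Finset ι) (v : ι → ℕ) (β : ℝ) : ‖ES S v (-β)‖ = ‖ES S v β‖ := by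
  have h1 : ES S v (-β) = (starRingEnd ℂ) (ES S v β) := by
    unfold ES
    rw [map_sum]
    apply sum_congr rfl
    intro t _
    rw [conj_e]
    congr 1
    ring
  rw [h1, Complex.norm_conj]

lemma ES_triv {ι : Type} (S : Finset ι) (v : ι → ℕ) (β : ℝ) : ‖ES S v β‖ ≤ S.card := by
  unfold ES
  refine (norm_sum_le _ _).trans ?_
  simp [norm_e]

/-- the bound for positive frequencies -/
theorem exp_pos (θ : ℝ) (h1 : 1 < θ) (hn : ∀ m : ℕ, θ ≠ m) : ∃ C σ : ℝ, 0 < C ∧ 0 < σ ∧ σ ≤ 1 ∧ ∀ᶠ x : ℕ in atTop,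
    ∀ β : ℝ, 0 < β → β ≤ 1 / 2 →
    ‖ES (Ioc x (2 * x)) (wt θ) β‖ ≤ C * ((x : ℝ) ^ (1 - θ) / β + (x : ℝ) ^ (1 - σ)) := by
  have hsv := pd_sv θ (by linarith) hn
  obtain ⟨b, C₁, hb, hC₁, hkl⟩ := hsv.kl
  obtain ⟨r, hr, σ₀, hσ₀, hσ₀', C₂, hC₂, hfl⟩ := hsv.floor'
  have hr0 : (0 : ℝ) < r := by exact_mod_cast hr
  obtain ⟨σ, hσ⟩ : ∃ σ : ℝ, σ = min (min (1 / (r : ℝ)) σ₀) (min (θ - 1) 1) := ⟨_, rfl⟩
  have hσ1 : σ ≤ 1 / r := by rw [hσ]; exact (min_le_left _ _).trans (min_le_left _ _)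
  have hσ2 : σ ≤ σ₀ := by rw [hσ]; exact (min_le_left _ _).trans (min_le_right _ _)
  have hσ3 : σ ≤ θ - 1 := by rw [hσ]; exact (min_le_right _ _).trans (min_le_left _ _)
  have hσ4 : σ ≤ 1 := by rw [hσ]; exact (min_le_right _ _).trans (min_le_right _ _)
  have hσ0 : 0 < σ := by
    rw [hσ]
    exact lt_min (lt_min (by positivity) hσ₀) (lt_min (by linarith) (by norm_num))
  have hbp : 0 < (1 / b) ^ (-(1 / (r : ℝ))) := by positivity
  refine ⟨3 * C₁ + 7 * (2 / b) + C₂ * (4 * (1 + (1 / b) ^ (-(1 / (r : ℝ))) + (1 / (b * 2 ^ θ)) ^ (-(1 / (r : ℝ)))) + 4), σ,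
    by positivity, hσ0, hσ4, ?_⟩
  have ht2 : Tendsto (fun x : ℕ => 2 * x) atTop atTop := tendsto_id.const_mul_atTop' (by norm_num)
  filter_upwards [ht2.eventually hkl, ht2.eventually hfl, hfl, eventually_ge_atTop 1] with x k1 k2 k3 hx β hβ hβ2
  have hxr : (1 : ℝ) ≤ x := by exact_mod_cast hx
  have hx0 : (0 : ℝ) < x := by linarith
  have hmono : ∀ s t : ℝ, s ≤ t → (x : ℝ) ^ s ≤ (x : ℝ) ^ t := fun s t h => Real.rpow_le_rpow_of_exponent_le hxr h
  have hX : 0 < (x : ℝ) ^ (1 - σ) := by positivity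
  have hX1 : 0 < (x : ℝ) ^ (1 - θ) / β := by positivity
  have hone : 1 ≤ (x : ℝ) ^ (1 - σ) := Real.one_le_rpow hxr (by linarith)
  set A₁ := (1 / b) ^ (-(1 / (r : ℝ))) with hA₁
  set A₂ := (1 / (b * 2 ^ θ)) ^ (-(1 / (r : ℝ))) with hA₂
  have hA₂0 : 0 < A₂ := by positivity
  rcases le_total (b * (β * pd θ 0 ((2 * x : ℕ) : ℝ))) ((2 * x : ℕ) : ℝ) with hc | hc
  · -- small frequencies
    have h2 := k1 β hβ hc (x + 1) x (by push_cast; linarith) (by omega) (by omega)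
    rw [pd_zero] at hc h2
    have h3 : ES (Ioc x (2 * x)) (wt θ) β = ∑ n ∈ range x, e (β * wt θ (x + 1 + n)) := by
      unfold ES
      have hI : Ioc x (2 * x) = Ico (x + 1) (2 * x + 1) := by
        ext n; simp only [mem_Ioc, mem_Ico]; omega
      rw [hI, sum_Ico_eq_sum_range]
      congr 1
      congr 1
      omega
    have h4 : ‖∑ n ∈ range x, e (β * wt θ (x + 1 + n)) - ∑ n ∈ range x, e (β * pd θ 0 (((x + 1 : ℕ) : ℝ) + n))‖ ≤
        7 * (x * β) := by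
      rw [← sum_sub_distrib]
      refine (norm_sum_le _ _).trans ?_
      calc ∑ n ∈ range x, ‖e (β * wt θ (x + 1 + n)) - e (β * pd θ 0 (((x + 1 : ℕ) : ℝ) + n))‖
          ≤ ∑ _n ∈ range x, 7 * β := by
            apply sum_le_sum
            intro n _
            refine (Pool.Agent.N193.PS.e_sub_le _ _).trans ?_
            apply mul_le_mul_of_nonneg_left _ (by norm_num)
            rw [← mul_sub, abs_mul, abs_of_pos hβ, pd_zero, ← wt_floor]
            have h5 : |((⌊(((x + 1 + n : ℕ) : ℝ)) ^ θ⌋ : ℤ) : ℝ) - (((x + 1 : ℕ) : ℝ) + n) ^ θ| ≤ 1 := by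
              push_cast
              rw [abs_le]
              constructor
              · linarith [Int.lt_floor_add_one (((x : ℝ) + 1 + n) ^ θ)]
              · linarith [Int.floor_le (((x : ℝ) + 1 + n) ^ θ)]
            calc β * |_| ≤ β * 1 := mul_le_mul_of_nonneg_left h5 hβ.le
              _ = β := mul_one _
        _ = 7 * (x * β) := by rw [sum_const, card_range, nsmul_eq_mul]; ring
    have h5 : ‖ES (Ioc x (2 * x)) (wt θ) β‖ ≤ 7 * (x * β) + C₁ * (1 + ((2 * x : ℕ) : ℝ) / (β * ((2 * x : ℕ) : ℝ) ^ θ)) := by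
      rw [h3]
      have := norm_add_le (∑ n ∈ range x, e (β * wt θ (x + 1 + n)) - ∑ n ∈ range x, e (β * pd θ 0 (((x + 1 : ℕ) : ℝ) + n)))
        (∑ n ∈ range x, e (β * pd θ 0 (((x + 1 : ℕ) : ℝ) + n)))
      rw [sub_add_cancel] at this
      linarith
    have h6 : ((2 * x : ℕ) : ℝ) / (β * ((2 * x : ℕ) : ℝ) ^ θ) ≤ 2 * ((x : ℝ) ^ (1 - θ) / β) := by
      have e1 : (x : ℝ) ^ θ ≤ ((2 * x : ℕ) : ℝ) ^ θ :=
        Real.rpow_le_rpow hx0.le (by push_cast; linarith) (by linarith)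
      have e2 : (x : ℝ) ^ (1 - θ) = x / (x : ℝ) ^ θ := by rw [Real.rpow_sub hx0, Real.rpow_one]
      rw [e2]
      calc ((2 * x : ℕ) : ℝ) / (β * ((2 * x : ℕ) : ℝ) ^ θ) ≤ ((2 * x : ℕ) : ℝ) / (β * (x : ℝ) ^ θ) := by
            apply div_le_div_of_nonneg_left (by positivity) (by positivity)
            exact mul_le_mul_of_nonneg_left e1 hβ.le
        _ = _ := by push_cast; field_simp
    have h7 : x * β ≤ 2 / b * (x : ℝ) ^ (1 - σ) := by
      have e1 : (x : ℝ) ^ θ ≤ ((2 * x : ℕ) : ℝ) ^ θ :=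
        Real.rpow_le_rpow hx0.le (by push_cast; linarith) (by linarith)
      have e2 : b * (β * (x : ℝ) ^ θ) ≤ 2 * x := by
        calc b * (β * (x : ℝ) ^ θ) ≤ b * (β * ((2 * x : ℕ) : ℝ) ^ θ) := by gcongr
          _ ≤ _ := hc
          _ = 2 * x := by push_cast; ring
      have e3 : (x : ℝ) ^ θ * (x : ℝ) ^ (1 - θ) = x := by
        rw [← Real.rpow_add hx0]; simp
      have e4 : β ≤ 2 / b * (x : ℝ) ^ (1 - θ) := by
        have hxθ : 0 < (x : ℝ) ^ θ := by positivity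
        have e5 : (b * β) * (x : ℝ) ^ θ ≤ (2 * (x : ℝ) ^ (1 - θ)) * (x : ℝ) ^ θ := by
          rw [mul_assoc, mul_assoc 2, mul_comm ((x : ℝ) ^ (1 - θ)), e3]
          exact e2
        have e6 := le_of_mul_le_mul_right e5 hxθ
        rw [div_mul_eq_mul_div, le_div_iff₀ hb]
        linarith
      have e7 : x * (x : ℝ) ^ (1 - θ) ≤ (x : ℝ) ^ (1 - σ) := by
        have : x * (x : ℝ) ^ (1 - θ) = (x : ℝ) ^ (1 + (1 - θ)) := by
          rw [Real.rpow_add hx0, Real.rpow_one]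
        rw [this]
        exact hmono _ _ (by linarith)
      calc x * β ≤ x * (2 / b * (x : ℝ) ^ (1 - θ)) := mul_le_mul_of_nonneg_left e4 hx0.le
        _ = 2 / b * (x * (x : ℝ) ^ (1 - θ)) := by ring
        _ ≤ _ := mul_le_mul_of_nonneg_left e7 (by positivity)
    have h8 : 0 ≤ C₂ * (4 * (1 + A₁ + A₂) + 4) := by positivity
    have h9 : 0 ≤ 7 * (2 / b) := by positivity
    calc ‖ES (Ioc x (2 * x)) (wt θ) β‖
        ≤ 7 * (2 / b * (x : ℝ) ^ (1 - σ)) + C₁ * (1 * (x : ℝ) ^ (1 - σ) + 2 * ((x : ℝ) ^ (1 - θ) / β)) := by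
          refine h5.trans (add_le_add (mul_le_mul_of_nonneg_left h7 (by norm_num)) (mul_le_mul_of_nonneg_left ?_ hC₁.le))
          linarith
      _ ≤ _ := by nlinarith [mul_nonneg h8 hX.le, mul_nonneg h8 hX1.le, mul_nonneg h9 hX.le, mul_nonneg h9 hX1.le,
          mul_nonneg hC₁.le hX.le, mul_nonneg hC₁.le hX1.le]
  · -- large frequencies
    have h2 := k2 β hβ hβ2
    have h3 := k3 β hβ hβ2
    rw [pd_zero] at hc h2 h3
    have hval : ∀ y : ℕ, ∑ n ∈ Icc 1 y, e (β * ⌊pd θ 0 n⌋) = ES (Icc 1 y) (wt θ) β := by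
      intro y
      unfold ES
      apply sum_congr rfl
      intro n _
      rw [pd_zero, wt_floor]
    rw [hval] at h2 h3
    have hsplit : ES (Ioc x (2 * x)) (wt θ) β = ES (Icc 1 (2 * x)) (wt θ) β - ES (Icc 1 x) (wt θ) β := by
      unfold ES
      rw [eq_sub_iff_add_eq, add_comm]
      have hU : Icc 1 (2 * x) = Icc 1 x ∪ Ioc x (2 * x) := by
        ext n; simp only [mem_union, mem_Icc, mem_Ioc]; omega
      rw [hU, sum_union]
      rw [disjoint_left]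
      intro n h1 h2
      simp only [mem_Icc, mem_Ioc] at h1 h2
      omega
    have hT : (x : ℝ) / b ≤ β * ((2 * x : ℕ) : ℝ) ^ θ := by
      rw [div_le_iff₀ hb]
      push_cast at hc ⊢
      nlinarith
    have hT' : (x : ℝ) / (b * 2 ^ θ) ≤ β * (x : ℝ) ^ θ := by
      rw [div_le_iff₀ (by positivity)]
      rw [div_le_iff₀ hb] at hT
      have e1 : ((2 * x : ℕ) : ℝ) ^ θ = 2 ^ θ * (x : ℝ) ^ θ := by
        push_cast
        rw [Real.mul_rpow (by norm_num) hx0.le]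
      rw [e1] at hT
      linarith
    have hr1 : -(1 / (r : ℝ)) ≤ 0 := by
      have : 0 < 1 / (r : ℝ) := by positivity
      linarith
    have hxr' : (x : ℝ) * (x : ℝ) ^ (-(1 / (r : ℝ))) ≤ (x : ℝ) ^ (1 - σ) := by
      have : (x : ℝ) * (x : ℝ) ^ (-(1 / (r : ℝ))) = (x : ℝ) ^ (1 + (-(1 / (r : ℝ)))) := by
        rw [Real.rpow_add hx0, Real.rpow_one]
      rw [this]
      exact hmono _ _ (by linarith)
    have g1 : (β * ((2 * x : ℕ) : ℝ) ^ θ) ^ (-(1 / (r : ℝ))) ≤ A₁ * (x : ℝ) ^ (-(1 / (r : ℝ))) := by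
      refine (Real.rpow_le_rpow_of_nonpos (by positivity) hT hr1).trans (le_of_eq ?_)
      rw [hA₁, ← Real.mul_rpow (by positivity) hx0.le]
      congr 1
      ring
    have g2 : (β * (x : ℝ) ^ θ) ^ (-(1 / (r : ℝ))) ≤ A₂ * (x : ℝ) ^ (-(1 / (r : ℝ))) := by
      refine (Real.rpow_le_rpow_of_nonpos (by positivity) hT' hr1).trans (le_of_eq ?_)
      rw [hA₂, ← Real.mul_rpow (by positivity) hx0.le]
      congr 1
      ring
    have g3 : ((2 * x : ℕ) : ℝ) ^ (1 - σ₀) ≤ 2 * (x : ℝ) ^ (1 - σ) := by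
      push_cast
      rw [Real.mul_rpow (by norm_num) hx0.le]
      apply mul_le_mul _ (hmono _ _ (by linarith)) (by positivity) (by norm_num)
      calc (2 : ℝ) ^ (1 - σ₀) ≤ 2 ^ (1 : ℝ) := Real.rpow_le_rpow_of_exponent_le (by norm_num) (by linarith)
        _ = 2 := Real.rpow_one 2
    have g4 : (x : ℝ) ^ (1 - σ₀) ≤ (x : ℝ) ^ (1 - σ) := hmono _ _ (by linarith)
    have g5 : ((2 * x : ℕ) : ℝ) * (β * ((2 * x : ℕ) : ℝ) ^ θ) ^ (-(1 / (r : ℝ))) ≤ 2 * A₁ * (x : ℝ) ^ (1 - σ) := by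
      calc ((2 * x : ℕ) : ℝ) * (β * ((2 * x : ℕ) : ℝ) ^ θ) ^ (-(1 / (r : ℝ)))
          ≤ ((2 * x : ℕ) : ℝ) * (A₁ * (x : ℝ) ^ (-(1 / (r : ℝ)))) := mul_le_mul_of_nonneg_left g1 (by positivity)
        _ = 2 * A₁ * (x * (x : ℝ) ^ (-(1 / (r : ℝ)))) := by push_cast; ring
        _ ≤ _ := mul_le_mul_of_nonneg_left hxr' (by positivity)
    have g6 : (x : ℝ) * (β * (x : ℝ) ^ θ) ^ (-(1 / (r : ℝ))) ≤ A₂ * (x : ℝ) ^ (1 - σ) := by
      calc (x : ℝ) * (β * (x : ℝ) ^ θ) ^ (-(1 / (r : ℝ))) ≤ x * (A₂ * (x : ℝ) ^ (-(1 / (r : ℝ)))) :=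
            mul_le_mul_of_nonneg_left g2 (by positivity)
        _ = A₂ * (x * (x : ℝ) ^ (-(1 / (r : ℝ)))) := by ring
        _ ≤ _ := mul_le_mul_of_nonneg_left hxr' (by positivity)
    rw [hsplit]
    refine (norm_sub_le _ _).trans ?_
    have h8 : 0 ≤ 3 * C₁ + 7 * (2 / b) := by positivity
    have h9 : 0 ≤ C₂ * (4 * (1 + A₁ + A₂) + 4) := by positivity
    calc ‖ES (Icc 1 (2 * x)) (wt θ) β‖ + ‖ES (Icc 1 x) (wt θ) β‖
        ≤ C₂ * (2 * A₁ * (x : ℝ) ^ (1 - σ) + 2 * (x : ℝ) ^ (1 - σ)) + C₂ * (A₂ * (x : ℝ) ^ (1 - σ) + (x : ℝ) ^ (1 - σ)) := by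
          apply add_le_add
          · exact h2.trans (mul_le_mul_of_nonneg_left (add_le_add g5 g3) hC₂.le)
          · exact h3.trans (mul_le_mul_of_nonneg_left (add_le_add g6 g4) hC₂.le)
      _ = C₂ * (2 * A₁ + 3 + A₂) * (x : ℝ) ^ (1 - σ) := by ring
      _ ≤ C₂ * (4 * (1 + A₁ + A₂) + 4) * (x : ℝ) ^ (1 - σ) := by
          apply mul_le_mul_of_nonneg_right _ hX.le
          apply mul_le_mul_of_nonneg_left _ hC₂.le
          linarith
      _ ≤ _ := by nlinarith [mul_nonneg h8 hX.le, mul_nonneg h8 hX1.le, mul_nonneg h9 hX1.le]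

end Pool.Agent.Zk40.W
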