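import Pool.Agent.Zk40.W.Exps
import Pool.Agent.Zk40.W.AE

/-!
Waring's problem for almost all real exponents: the assembly.
-/

namespace Pool.Agent.Zk40.W

open Finset Filter Topology MeasureTheory

/-- the integer value of a vector of pairs -/
noncomputable def Vw (θ : ℝ) {n : ℕ} (y : Fin n → ℕ × ℕ) : ℕ := ∑ i, (wt θ (y i).1 + wt θ (y i).2)

lemma wt_near (θ : ℝ) (z : ℕ) : (wt θ z : ℝ) ≤ (z : ℝ) ^ θ ∧ (z : ℝ) ^ θ ≤ wt θ z + 1 := by
  unfold wt
  exact ⟨Nat.floor_le (by positivity), (Nat.lt_floor_add_one _).le⟩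

lemma Vw_near (θ : ℝ) {n : ℕ} (y : Fin n → ℕ × ℕ) : (Vw θ y : ℝ) ≤ G θ y ∧ G θ y ≤ Vw θ y + 2 * n := by
  unfold Vw G g
  push_cast
  constructor
  · apply sum_le_sum
    intro i _
    linarith [(wt_near θ (y i).1).1, (wt_near θ (y i).2).1]
  · have h1 : ∑ i, (((y i).1 : ℝ) ^ θ + ((y i).2 : ℝ) ^ θ) ≤ ∑ i, (((wt θ (y i).1 : ℝ) + wt θ (y i).2) + 2) := by
      apply sum_le_sum
      intro i _
      linarith [(wt_near θ (y i).1).2, (wt_near θ (y i).2).2]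
    refine h1.trans (le_of_eq ?_)
    rw [sum_add_distrib, sum_const, card_univ, Fintype.card_fin, nsmul_eq_mul]
    ring

lemma Vw_eq_imp (θ : ℝ) {n : ℕ} (x y : Fin n → ℕ × ℕ) (h : Vw θ x = Vw θ y) : |G θ x - G θ y| ≤ 2 * n := by
  have h1 := Vw_near θ x
  have h2 := Vw_near θ y
  rw [h] at h1
  rw [abs_le]
  constructor <;> linarith

/-- both ranges for the bound of the exponential sums -/
lemma comb (X N₀ β t : ℝ) (hX : 0 ≤ X) (hN : 0 < N₀) (hβ : 0 < β) (B₂ : ℝ) (hB : 0 ≤ B₂) (h1 : t ≤ X)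
    (h2 : t ≤ X / (N₀ * β) + B₂) : t ≤ 2 * X / (1 + N₀ * β) + B₂ := by
  have hNβ : 0 < N₀ * β := by positivity
  rcases le_total (N₀ * β) 1 with h | h
  · have : X ≤ 2 * X / (1 + N₀ * β) := by
      rw [le_div_iff₀ (by linarith)]
      nlinarith
    linarith
  · have : X / (N₀ * β) ≤ 2 * X / (1 + N₀ * β) := by
      rw [div_le_div_iff₀ hNβ (by linarith)]
      nlinarith
    linarith

/-- the exponential sums over the two sets of variables -/
theorem exp_both (θ : ℝ) (h1 : 1 < θ) (hn : ∀ m : ℕ, θ ≠ m) (C₁ : ℕ) (hC₁ : 1 ≤ C₁) : ∃ C σ : ℝ, 1 ≤ C ∧ 0 < σ ∧ σ ≤ 1 ∧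
    ∀ᶠ P : ℕ in atTop, ∀ β : ℝ, |β| ≤ 1 / 2 →
    ‖ES (Ioc (C₁ * P) (4 * (C₁ * P))) (wt θ) β‖ ≤ C * P / (1 + (P : ℝ) ^ θ * |β|) + C * (P : ℝ) ^ (1 - σ) ∧
    ‖ES (Ioc P (2 * P)) (wt θ) β‖ ≤ C * P / (1 + (P : ℝ) ^ θ * |β|) + C * (P : ℝ) ^ (1 - σ) := by
  obtain ⟨C, σ, hC, hσ, hσ1, hev⟩ := exp_pos θ h1 hn
  have hC₁r : (1 : ℝ) ≤ C₁ := by exact_mod_cast hC₁
  refine ⟨2 * (3 * C₁ + 3 * C * C₁), σ, by nlinarith [mul_pos hC (by linarith : (0 : ℝ) < C₁)], hσ, hσ1, ?_⟩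
  have t1 : Tendsto (fun x : ℕ => C₁ * x) atTop atTop := tendsto_id.const_mul_atTop' (by omega)
  have t2 : Tendsto (fun x : ℕ => 2 * (C₁ * x)) atTop atTop := t1.const_mul_atTop' (by norm_num)
  filter_upwards [hev, t1.eventually hev, t2.eventually hev, eventually_ge_atTop 1] with P k1 k2 k3 hP
  have hPr : (1 : ℝ) ≤ P := by exact_mod_cast hP
  have hP0 : (0 : ℝ) < P := by linarith
  have hN : 0 < (P : ℝ) ^ θ := by positivity
  have hPσ : 0 < (P : ℝ) ^ (1 - σ) := by positivity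
  have hCC : 0 < C * C₁ := by positivity
  have hCC1 : C ≤ C * C₁ := le_mul_of_one_le_right hC.le hC₁r
  have hC₁0 : (0 : ℝ) < C₁ := by linarith
  have u1 : 2 * C ≤ 3 * C₁ + 3 * C * C₁ := by nlinarith
  have u2 : C ≤ 3 * C₁ + 3 * C * C₁ := by nlinarith
  have u3 : C ≤ 2 * (3 * C₁ + 3 * C * C₁) := by nlinarith
  have u4 : 3 * C * C₁ ≤ 2 * (3 * C₁ + 3 * C * C₁) := by nlinarith
  -- monotonicity in the frequency sign
  have key : ∀ β : ℝ, 0 < β → β ≤ 1 / 2 →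
      ‖ES (Ioc (C₁ * P) (4 * (C₁ * P))) (wt θ) β‖ ≤ 2 * (3 * C₁ + 3 * C * C₁) * P / (1 + (P : ℝ) ^ θ * β) + 2 * (3 * C₁ + 3 * C * C₁) * (P : ℝ) ^ (1 - σ) ∧
      ‖ES (Ioc P (2 * P)) (wt θ) β‖ ≤ 2 * (3 * C₁ + 3 * C * C₁) * P / (1 + (P : ℝ) ^ θ * β) + 2 * (3 * C₁ + 3 * C * C₁) * (P : ℝ) ^ (1 - σ) := by
    intro β hβ hβ2
    have a1 := k1 β hβ hβ2
    have a2 := k2 β hβ hβ2
    have a3 := k3 β hβ hβ2
    have hPθ : (P : ℝ) ^ (1 - θ) / β = P / ((P : ℝ) ^ θ * β) := by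
      rw [Real.rpow_sub hP0, Real.rpow_one]
      field_simp
    have hden : 0 < 1 + (P : ℝ) ^ θ * β := by positivity
    have hmono : ∀ y : ℕ, P ≤ y → (y : ℝ) ^ (1 - θ) ≤ (P : ℝ) ^ (1 - θ) := fun y hy =>
      Real.rpow_le_rpow_of_nonpos hP0 (by exact_mod_cast hy) (by linarith)
    have hup : ∀ c : ℝ, 1 ≤ c → (c * P) ^ (1 - σ) ≤ c * (P : ℝ) ^ (1 - σ) := by
      intro c hc
      rw [Real.mul_rpow (by linarith) hP0.le]
      apply mul_le_mul_of_nonneg_right _ hPσ.le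
      calc c ^ (1 - σ) ≤ c ^ (1 : ℝ) := Real.rpow_le_rpow_of_exponent_le hc (by linarith)
        _ = c := Real.rpow_one c
    have hPc : P ≤ C₁ * P := Nat.le_mul_of_pos_left P hC₁
    have hT : 0 < P / ((P : ℝ) ^ θ * β) := by positivity
    constructor
    · have hsplit : ES (Ioc (C₁ * P) (4 * (C₁ * P))) (wt θ) β =
          ES (Ioc (C₁ * P) (2 * (C₁ * P))) (wt θ) β + ES (Ioc (2 * (C₁ * P)) (2 * (2 * (C₁ * P)))) (wt θ) β := by
        unfold ES
        rw [← sum_union]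
        · congr 1
          ext n; simp only [mem_union, mem_Ioc]; omega
        · rw [disjoint_left]
          intro n b1 b2
          simp only [mem_Ioc] at b1 b2
          omega
      have hb : ‖ES (Ioc (C₁ * P) (4 * (C₁ * P))) (wt θ) β‖ ≤
          (2 * C * (P : ℝ)) / ((P : ℝ) ^ θ * β) + 3 * C * C₁ * (P : ℝ) ^ (1 - σ) := by
        rw [hsplit]
        refine (norm_add_le _ _).trans ((add_le_add a2 a3).trans ?_)
        have b1 : ((C₁ * P : ℕ) : ℝ) ^ (1 - θ) / β ≤ P / ((P : ℝ) ^ θ * β) := by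
          rw [← hPθ]
          exact div_le_div_of_nonneg_right (hmono _ hPc) hβ.le
        have b2 : ((2 * (C₁ * P) : ℕ) : ℝ) ^ (1 - θ) / β ≤ P / ((P : ℝ) ^ θ * β) := by
          rw [← hPθ]
          exact div_le_div_of_nonneg_right (hmono _ (by omega)) hβ.le
        have b3 : ((C₁ * P : ℕ) : ℝ) ^ (1 - σ) ≤ C₁ * (P : ℝ) ^ (1 - σ) := by
          push_cast; exact hup C₁ hC₁r
        have b4 : ((2 * (C₁ * P) : ℕ) : ℝ) ^ (1 - σ) ≤ 2 * C₁ * (P : ℝ) ^ (1 - σ) := by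
          push_cast
          rw [← mul_assoc]
          exact hup (2 * C₁) (by linarith)
        calc C * (((C₁ * P : ℕ) : ℝ) ^ (1 - θ) / β + ((C₁ * P : ℕ) : ℝ) ^ (1 - σ)) +
            C * (((2 * (C₁ * P) : ℕ) : ℝ) ^ (1 - θ) / β + ((2 * (C₁ * P) : ℕ) : ℝ) ^ (1 - σ))
            ≤ C * (P / ((P : ℝ) ^ θ * β) + C₁ * (P : ℝ) ^ (1 - σ)) +
              C * (P / ((P : ℝ) ^ θ * β) + 2 * C₁ * (P : ℝ) ^ (1 - σ)) := by gcongr
          _ = _ := by ring
      have htriv : ‖ES (Ioc (C₁ * P) (4 * (C₁ * P))) (wt θ) β‖ ≤ (3 * C₁ + 3 * C * C₁) * P := by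
        refine (ES_triv _ _ _).trans ?_
        rw [Nat.card_Ioc, show 4 * (C₁ * P) - C₁ * P = 3 * (C₁ * P) by omega]
        push_cast
        nlinarith
      have := comb ((3 * C₁ + 3 * C * C₁) * P) ((P : ℝ) ^ θ) β _ (by positivity) hN hβ
        (2 * (3 * C₁ + 3 * C * C₁) * (P : ℝ) ^ (1 - σ)) (by positivity) htriv (by
          refine hb.trans (add_le_add ?_ ?_)
          · exact div_le_div_of_nonneg_right (mul_le_mul_of_nonneg_right u1 hP0.le) (by positivity)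
          · exact mul_le_mul_of_nonneg_right u4 hPσ.le)
      refine this.trans (le_of_eq ?_)
      ring
    · have htriv : ‖ES (Ioc P (2 * P)) (wt θ) β‖ ≤ (3 * C₁ + 3 * C * C₁) * P := by
        refine (ES_triv _ _ _).trans ?_
        rw [Nat.card_Ioc, show 2 * P - P = P by omega]
        nlinarith
      have := comb ((3 * C₁ + 3 * C * C₁) * P) ((P : ℝ) ^ θ) β _ (by positivity) hN hβ
        (2 * (3 * C₁ + 3 * C * C₁) * (P : ℝ) ^ (1 - σ)) (by positivity) htriv (by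
          refine a1.trans ?_
          rw [hPθ, mul_add, mul_div_assoc']
          refine add_le_add ?_ ?_
          · exact div_le_div_of_nonneg_right (mul_le_mul_of_nonneg_right u2 hP0.le) (by positivity)
          · exact mul_le_mul_of_nonneg_right u3 hPσ.le)
      refine this.trans (le_of_eq ?_)
      ring
  intro β hβ
  rcases lt_trichotomy β 0 with h | h | h
  · have := key (-β) (by linarith) (by rw [abs_of_neg h] at hβ; exact hβ)
    rw [ES_neg, ES_neg] at this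
    rw [abs_of_neg h]
    exact this
  · rw [h, abs_zero, mul_zero, add_zero, div_one]
    constructor
    · refine (ES_triv _ _ _).trans ?_
      rw [Nat.card_Ioc, show 4 * (C₁ * P) - C₁ * P = 3 * (C₁ * P) by omega]
      push_cast
      nlinarith [mul_pos hCC hPσ, mul_pos hCC hP0]
    · refine (ES_triv _ _ _).trans ?_
      rw [Nat.card_Ioc, show 2 * P - P = P by omega]
      nlinarith [mul_pos hCC hPσ, mul_pos hCC hP0]
  · rw [abs_of_pos h]
    exact key β h (by rw [abs_of_pos h] at hβ; exact hβ)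

end Pool.Agent.Zk40.W
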