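import Mathlib

/-!
Waring's problem for almost all real exponents: the measure of the set where a function is small, by means of cells
whose length depends on the size of the derivative.
-/

namespace Pool.Agent.Zk40.W

open Finset MeasureTheory

lemma cell_mvt (φ φ' : ℝ → ℝ) (a b : ℝ) (hd : ∀ x ∈ Set.Icc a b, HasDerivAt φ (φ' x) x)
    (x y : ℝ) (hx : x ∈ Set.Icc a b) (hy : y ∈ Set.Icc a b) :
    ∃ z ∈ Set.Icc a b, φ x - φ y = φ' z * (x - y) := by
  have key : ∀ x y : ℝ, x ∈ Set.Icc a b → y ∈ Set.Icc a b → y < x → ∃ z ∈ Set.Icc a b, φ x - φ y = φ' z * (x - y) := by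
    intro x y hx hy hxy
    have hsub : ∀ z ∈ Set.Icc y x, z ∈ Set.Icc a b := fun z hz => ⟨hy.1.trans hz.1, hz.2.trans hx.2⟩
    obtain ⟨z, hz, hz2⟩ := exists_hasDerivAt_eq_slope φ φ' hxy
      (fun w hw => (hd w (hsub w hw)).continuousAt.continuousWithinAt)
      (fun w hw => hd w (hsub w ⟨hw.1.le, hw.2.le⟩))
    refine ⟨z, hsub z ⟨hz.1.le, hz.2.le⟩, ?_⟩
    have : x - y ≠ 0 := by linarith
    rw [hz2]
    field_simp
  rcases lt_trichotomy x y with h | h | h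
  · obtain ⟨z, hz, hz2⟩ := key y x hy hx h
    exact ⟨z, hz, by linarith⟩
  · exact ⟨x, hx, by rw [h]; ring⟩
  · exact key x y hx hy h

/-- the values at the left end of a cell -/
lemma cell_left (φ φ' : ℝ → ℝ) (a ℓ M T K : ℝ) (hT : 1 ≤ T) (hℓ : 0 ≤ ℓ) (hℓ1 : ℓ ≤ 1) (hM0 : 0 ≤ M)
    (hM : 2 * M * ℓ ≤ T) (hK : 0 ≤ K)
    (hd : ∀ x ∈ Set.Icc a (a + ℓ), HasDerivAt φ (φ' x) x)
    (hl : ∀ x ∈ Set.Icc a (a + ℓ), ∀ y ∈ Set.Icc a (a + ℓ), |φ' x - φ' y| ≤ M * |x - y|)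
    (x : ℝ) (hx : x ∈ Set.Icc a (a + ℓ)) (h1 : |φ x| ≤ K) (h2 : |φ' x| ≤ 2 * T) :
    |φ a| ≤ (K + 3) * T ∧ |φ' a| ≤ (K + 3) * T := by
  have ha : a ∈ Set.Icc a (a + ℓ) := ⟨le_rfl, by linarith⟩
  have hdist : ∀ z ∈ Set.Icc a (a + ℓ), ∀ w ∈ Set.Icc a (a + ℓ), |z - w| ≤ ℓ := by
    intro z hz w hw
    rw [abs_le]
    constructor <;> linarith [hz.1, hz.2, hw.1, hw.2]
  have hder : ∀ z ∈ Set.Icc a (a + ℓ), |φ' z| ≤ 3 * T := by
    intro z hz
    have e1 := hl z hz x hx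
    have e2 := hdist z hz x hx
    have e3 : M * |z - x| ≤ M * ℓ := mul_le_mul_of_nonneg_left e2 hM0
    have e4 : |φ' z| ≤ |φ' z - φ' x| + |φ' x| := by
      have := abs_add_le (φ' z - φ' x) (φ' x)
      rwa [sub_add_cancel] at this
    linarith
  constructor
  · obtain ⟨z, hz, hz2⟩ := cell_mvt φ φ' a (a + ℓ) hd a x ha hx
    have e1 : |φ a - φ x| ≤ 3 * T * 1 := by
      rw [hz2, abs_mul]
      exact mul_le_mul (hder z hz) ((hdist a ha x hx).trans hℓ1) (abs_nonneg _) (by linarith)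
    have e2 : |φ a| ≤ |φ a - φ x| + |φ x| := by
      have := abs_add_le (φ a - φ x) (φ x)
      rwa [sub_add_cancel] at this
    nlinarith
  · have := hder a ha
    nlinarith

/-- the measure of the set where the function is small and the derivative is not -/
lemma cell_meas (φ φ' : ℝ → ℝ) (a ℓ M T K : ℝ) (hT : 1 ≤ T) (hM0 : 0 ≤ M)
    (hM : 2 * M * ℓ ≤ T) (hK : 0 ≤ K)
    (hd : ∀ x ∈ Set.Icc a (a + ℓ), HasDerivAt φ (φ' x) x)
    (hl : ∀ x ∈ Set.Icc a (a + ℓ), ∀ y ∈ Set.Icc a (a + ℓ), |φ' x - φ' y| ≤ M * |x - y|) :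
    volume.real (Set.Icc a (a + ℓ) ∩ {x | |φ x| ≤ K ∧ T ≤ |φ' x| ∧ |φ' x| ≤ 2 * T}) ≤ 8 * K / T := by
  have hpos : 0 ≤ 8 * K / T := by positivity
  rcases Set.eq_empty_or_nonempty (Set.Icc a (a + ℓ) ∩ {x | |φ x| ≤ K ∧ T ≤ |φ' x| ∧ |φ' x| ≤ 2 * T}) with h | ⟨x, hx, hx1, hx2, hx3⟩
  · rw [h]; simpa using hpos
  have hsub : Set.Icc a (a + ℓ) ∩ {x | |φ x| ≤ K ∧ T ≤ |φ' x| ∧ |φ' x| ≤ 2 * T} ⊆
      Set.Icc (x - 4 * K / T) (x + 4 * K / T) := by
    rintro y ⟨hy, hy1, hy2, hy3⟩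
    obtain ⟨z, hz, hz2⟩ := cell_mvt φ φ' a (a + ℓ) hd y x hy hx
    have e1 : |φ' z - φ' x| ≤ M * ℓ := by
      refine (hl z hz x hx).trans (mul_le_mul_of_nonneg_left ?_ hM0)
      rw [abs_le]
      constructor <;> linarith [hz.1, hz.2, hx.1, hx.2]
    have e2 : T / 2 ≤ |φ' z| := by
      have : |φ' x| ≤ |φ' z| + |φ' z - φ' x| := by
        have := abs_add_le (φ' z) (-(φ' z - φ' x))
        rw [abs_neg] at this
        have h3 : φ' z + -(φ' z - φ' x) = φ' x := by ring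
        rwa [h3] at this
      linarith
    have e3 : |φ y - φ x| ≤ 2 * K := by
      have := abs_sub (φ y) (φ x)
      linarith
    rw [hz2, abs_mul] at e3
    have e4 : T / 2 * |y - x| ≤ 2 * K := (mul_le_mul_of_nonneg_right e2 (abs_nonneg _)).trans e3
    have e5 : |y - x| ≤ 4 * K / T := by
      rw [le_div_iff₀ (by linarith)]
      linarith
    rw [abs_le] at e5
    constructor <;> linarith [e5.1, e5.2]
  calc volume.real (Set.Icc a (a + ℓ) ∩ {x | |φ x| ≤ K ∧ T ≤ |φ' x| ∧ |φ' x| ≤ 2 * T})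
      ≤ volume.real (Set.Icc (x - 4 * K / T) (x + 4 * K / T)) := measureReal_mono hsub (by simp [Real.volume_Icc])
    _ = 8 * K / T := by
      rw [Real.volume_real_Icc]
      have : x + 4 * K / T - (x - 4 * K / T) = 8 * K / T := by ring
      rw [this, max_eq_left hpos]

/-- splitting an interval into cells -/
lemma split_cells (S : Set ℝ) (a b : ℝ) (hab : a ≤ b) (n : ℕ) (hn : 1 ≤ n) :
    volume.real (Set.Icc a b ∩ S) ≤ ∑ k ∈ range n, volume.real
      (Set.Icc (a + k * ((b - a) / n)) (a + k * ((b - a) / n) + (b - a) / n) ∩ S) := by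
  have hn0 : (0 : ℝ) < n := by exact_mod_cast hn
  have hsub : Set.Icc a b ∩ S ⊆ ⋃ k ∈ range n, (Set.Icc (a + k * ((b - a) / n)) (a + k * ((b - a) / n) + (b - a) / n) ∩ S) := by
    rintro x ⟨hx, hxS⟩
    simp only [Set.mem_iUnion, Finset.mem_range, exists_prop]
    rcases eq_or_lt_of_le hab with h | h
    · refine ⟨0, by omega, ?_, hxS⟩
      subst h
      simp only [sub_self, zero_div, mul_zero, add_zero]
      exact hx
    · have hba : 0 < b - a := by linarith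
      set ℓ := (b - a) / n with hℓ
      have hℓ0 : 0 < ℓ := by positivity
      have hnℓ : n * ℓ = b - a := by rw [hℓ]; field_simp
      have hr0 : 0 ≤ (x - a) / ℓ := div_nonneg (by linarith [hx.1]) hℓ0.le
      rcases Nat.lt_or_ge ⌊(x - a) / ℓ⌋₊ n with hk | hk
      · refine ⟨⌊(x - a) / ℓ⌋₊, hk, ⟨?_, ?_⟩, hxS⟩
        · have := Nat.floor_le hr0
          rw [le_div_iff₀ hℓ0] at this
          linarith
        · have := Nat.lt_floor_add_one ((x - a) / ℓ)
          rw [div_lt_iff₀ hℓ0] at this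
          linarith
      · refine ⟨n - 1, by omega, ⟨?_, ?_⟩, hxS⟩
        · have h1 : (n : ℝ) ≤ (x - a) / ℓ := by
            have := Nat.floor_le hr0
            exact le_trans (by exact_mod_cast hk) this
          rw [le_div_iff₀ hℓ0] at h1
          rw [Nat.cast_sub hn]
          push_cast
          nlinarith
        · rw [Nat.cast_sub hn]
          push_cast
          nlinarith [hx.2]
  calc volume.real (Set.Icc a b ∩ S) ≤ volume.real (⋃ k ∈ range n, (Set.Icc (a + k * ((b - a) / n)) (a + k * ((b - a) / n) + (b - a) / n) ∩ S)) := by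
        refine measureReal_mono hsub (ne_of_lt ((measure_biUnion_finset_le _ _).trans_lt ?_))
        refine ENNReal.sum_lt_top.2 fun k _ => ?_
        exact (measure_mono Set.inter_subset_left).trans_lt (by simp [Real.volume_Icc])
    _ ≤ _ := measureReal_biUnion_finset_le _ _

/-- the sum over a family, cells of a given size -/
lemma cells_sum {ι : Type} (s : Finset ι) (φ φ' : ι → ℝ → ℝ) (S : ι → Set ℝ) (a b M T K D w : ℝ) (hT : 1 ≤ T)
    (hab : a ≤ b) (hab1 : b ≤ a + 1) (hM0 : 0 ≤ M) (hK : 0 ≤ K) (n : ℕ) (hn : 1 ≤ n) (hnM : 2 * M * ((b - a) / n) ≤ T)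
    (hw : 0 ≤ w)
    (hd : ∀ i ∈ s, ∀ x ∈ Set.Icc a b, HasDerivAt (φ i) (φ' i x) x)
    (hl : ∀ i ∈ s, ∀ x ∈ Set.Icc a b, ∀ y ∈ Set.Icc a b, |φ' i x - φ' i y| ≤ M * |x - y|)
    (hS : ∀ i ∈ s, ∀ x ∈ Set.Icc a b, x ∈ S i → |φ i x| ≤ K ∧ |φ' i x| ≤ 2 * T)
    (hwS : ∀ i ∈ s, ∀ c, a ≤ c → c + (b - a) / n ≤ b → volume.real (Set.Icc c (c + (b - a) / n) ∩ S i) ≤ w)
    (hD : ∀ x ∈ Set.Icc a b, ((s.filter (fun i => |φ i x| ≤ (K + 3) * T ∧ |φ' i x| ≤ (K + 3) * T)).card : ℝ) ≤ D) :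
    ∑ i ∈ s, volume.real (Set.Icc a b ∩ S i) ≤ n * (w * D) := by
  classical
  have hn0 : (0 : ℝ) < n := by exact_mod_cast hn
  set ℓ := (b - a) / n with hℓ
  have hℓ0 : 0 ≤ ℓ := div_nonneg (by linarith) hn0.le
  have hℓ1 : ℓ ≤ 1 := by
    rw [hℓ, div_le_one hn0]
    have : (1 : ℝ) ≤ n := by exact_mod_cast hn
    linarith
  have hnℓ : n * ℓ = b - a := by rw [hℓ]; field_simp
  calc ∑ i ∈ s, volume.real (Set.Icc a b ∩ S i)
      ≤ ∑ i ∈ s, ∑ k ∈ range n, volume.real (Set.Icc (a + k * ℓ) (a + k * ℓ + ℓ) ∩ S i) :=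
        sum_le_sum fun i _ => split_cells (S i) a b hab n hn
    _ = ∑ k ∈ range n, ∑ i ∈ s, volume.real (Set.Icc (a + k * ℓ) (a + k * ℓ + ℓ) ∩ S i) := sum_comm
    _ ≤ ∑ _k ∈ range n, w * D := by
      apply sum_le_sum
      intro k hk
      have hk1 : (k : ℝ) + 1 ≤ n := by exact_mod_cast mem_range.1 hk
      have hkℓ : 0 ≤ k * ℓ := by positivity
      have hc1 : a ≤ a + k * ℓ := by linarith
      have hc2 : a + k * ℓ + ℓ ≤ b := by nlinarith
      have hsub : ∀ x ∈ Set.Icc (a + k * ℓ) (a + k * ℓ + ℓ), x ∈ Set.Icc a b := fun x hx =>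
        ⟨hc1.trans hx.1, hx.2.trans hc2⟩
      set F := s.filter (fun i => |φ i (a + k * ℓ)| ≤ (K + 3) * T ∧ |φ' i (a + k * ℓ)| ≤ (K + 3) * T) with hF
      have hzero : ∀ i ∈ s, i ∉ F → volume.real (Set.Icc (a + k * ℓ) (a + k * ℓ + ℓ) ∩ S i) = 0 := by
        intro i hi hiF
        have : Set.Icc (a + k * ℓ) (a + k * ℓ + ℓ) ∩ S i = ∅ := by
          rw [Set.eq_empty_iff_forall_notMem]
          rintro x ⟨hx, hxS⟩
          apply hiF
          rw [hF, mem_filter]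
          obtain ⟨e1, e2⟩ := hS i hi x (hsub x hx) hxS
          exact ⟨hi, cell_left (φ i) (φ' i) (a + k * ℓ) ℓ M T K hT hℓ0 hℓ1 hM0 hnM hK
            (fun y hy => hd i hi y (hsub y hy)) (fun y hy z hz => hl i hi y (hsub y hy) z (hsub z hz)) x hx e1 e2⟩
        rw [this]; simp
      have hsum : ∑ i ∈ s, volume.real (Set.Icc (a + k * ℓ) (a + k * ℓ + ℓ) ∩ S i) =
          ∑ i ∈ F, volume.real (Set.Icc (a + k * ℓ) (a + k * ℓ + ℓ) ∩ S i) := by
        symm
        apply sum_subset (filter_subset _ _)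
        exact hzero
      rw [hsum]
      calc ∑ i ∈ F, volume.real (Set.Icc (a + k * ℓ) (a + k * ℓ + ℓ) ∩ S i) ≤ ∑ _i ∈ F, w := by
            apply sum_le_sum
            intro i hi
            exact hwS i (mem_filter.1 hi).1 _ hc1 hc2
        _ = (F.card : ℝ) * w := by rw [sum_const, nsmul_eq_mul]
        _ ≤ D * w := mul_le_mul_of_nonneg_right (hD _ (hsub _ ⟨le_rfl, by linarith⟩)) hw
        _ = w * D := mul_comm _ _
    _ = n * (w * D) := by rw [sum_const, card_range, nsmul_eq_mul]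

/-- the measure of the smallness sets of a family -/
theorem family_meas {ι : Type} (s : Finset ι) (φ φ' : ι → ℝ → ℝ) (a b M K B T₀ : ℝ) (J : ℕ) (hT : 1 ≤ T₀)
    (hab : a ≤ b) (hab1 : b ≤ a + 1) (hM0 : 0 ≤ M) (hK : 0 ≤ K)
    (hd : ∀ i ∈ s, ∀ x ∈ Set.Icc a b, HasDerivAt (φ i) (φ' i x) x)
    (hl : ∀ i ∈ s, ∀ x ∈ Set.Icc a b, ∀ y ∈ Set.Icc a b, |φ' i x - φ' i y| ≤ M * |x - y|)
    (hJ : ∀ i ∈ s, ∀ x ∈ Set.Icc a b, |φ' i x| ≤ 2 ^ (J + 1) * T₀)
    (hB : ∀ t ≤ J, ∀ x ∈ Set.Icc a b, ((s.filter (fun i => |φ i x| ≤ (K + 3) * (2 ^ t * T₀) ∧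
      |φ' i x| ≤ (K + 3) * (2 ^ t * T₀))).card : ℝ) ≤ B * (2 ^ t * T₀) ^ 2) :
    ∑ i ∈ s, volume.real (Set.Icc a b ∩ {x | |φ i x| ≤ K}) ≤
      B * T₀ ^ 2 + 8 * K * B * J * (2 * M + 2 ^ J * T₀) := by
  classical
  have hB0 : 0 ≤ B := by
    have h1 := hB 0 (Nat.zero_le _) a ⟨le_rfl, hab⟩
    have h2 : 0 ≤ B * (2 ^ 0 * T₀) ^ 2 := le_trans (Nat.cast_nonneg _) h1
    have h3 : 0 < (2 ^ 0 * T₀) ^ 2 := by positivity
    by_contra hneg
    push Not at hneg
    nlinarith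
  set Ss : ℕ → ι → Set ℝ := fun t i => if t = 0 then {x | |φ i x| ≤ K ∧ |φ' i x| ≤ 2 * T₀} else
    {x | |φ i x| ≤ K ∧ 2 ^ t * T₀ ≤ |φ' i x| ∧ |φ' i x| ≤ 2 * (2 ^ t * T₀)} with hSs
  have hcover : ∀ i ∈ s, Set.Icc a b ∩ {x | |φ i x| ≤ K} ⊆ ⋃ t ∈ range (J + 1), (Set.Icc a b ∩ Ss t i) := by
    rintro i hi x ⟨hx, hxK⟩
    simp only [Set.mem_iUnion, Finset.mem_range, exists_prop, Set.mem_inter_iff]
    rcases le_total (|φ' i x|) (2 * T₀) with h | h
    · refine ⟨0, by omega, hx, ?_⟩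
      simp only [hSs, if_true]
      exact ⟨hxK, h⟩
    · -- find `t` with `2 ^ t T₀ ≤ |φ'| ≤ 2 ^ (t + 1) T₀`
      have hex : ∃ t : ℕ, |φ' i x| ≤ 2 ^ (t + 1) * T₀ := ⟨J, hJ i hi x hx⟩
      set t := Nat.find hex with ht
      have ht1 : |φ' i x| ≤ 2 ^ (t + 1) * T₀ := Nat.find_spec hex
      have htJ : t ≤ J := Nat.find_min' hex (hJ i hi x hx)
      rcases Nat.eq_zero_or_pos t with h0 | h0
      · refine ⟨0, by omega, hx, ?_⟩
        simp only [hSs, if_true]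
        refine ⟨hxK, ?_⟩
        rw [h0] at ht1
        simpa using ht1
      · refine ⟨t, by omega, hx, ?_⟩
        simp only [hSs, if_neg (by omega : ¬ t = 0)]
        refine ⟨hxK, ?_, ?_⟩
        · have := Nat.find_min hex (show t - 1 < t by omega)
          push Not at this
          rw [show t - 1 + 1 = t by omega] at this
          exact this.le
        · rw [pow_succ] at ht1
          linarith
  have hfin : ∀ t i, volume (Set.Icc a b ∩ Ss t i) < ⊤ := fun t i =>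
    (measure_mono Set.inter_subset_left).trans_lt (by simp [Real.volume_Icc])
  have h1 : ∑ i ∈ s, volume.real (Set.Icc a b ∩ {x | |φ i x| ≤ K}) ≤
      ∑ t ∈ range (J + 1), ∑ i ∈ s, volume.real (Set.Icc a b ∩ Ss t i) := by
    rw [sum_comm]
    apply sum_le_sum
    intro i hi
    calc _ ≤ volume.real (⋃ t ∈ range (J + 1), (Set.Icc a b ∩ Ss t i)) := by
          refine measureReal_mono (hcover i hi) (ne_of_lt ((measure_biUnion_finset_le _ _).trans_lt ?_))
          exact ENNReal.sum_lt_top.2 fun t _ => hfin t i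
      _ ≤ _ := measureReal_biUnion_finset_le _ _
  have hncell : ∀ T : ℝ, 1 ≤ T → ∃ n : ℕ, 1 ≤ n ∧ 2 * M * ((b - a) / n) ≤ T ∧ (n : ℝ) ≤ 2 * M / T + 1 := by
    intro T hT
    have hT0 : 0 < T := by linarith
    refine ⟨⌊2 * M * (b - a) / T⌋₊ + 1, by omega, ?_, ?_⟩
    · have h2 := Nat.lt_floor_add_one (2 * M * (b - a) / T)
      rw [div_lt_iff₀ hT0] at h2
      push_cast
      rw [mul_div_assoc', div_le_iff₀ (by positivity)]
      linarith
    · have h3 : 0 ≤ 2 * M * (b - a) / T := div_nonneg (mul_nonneg (by linarith) (by linarith)) hT0.le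
      have h2 := Nat.floor_le h3
      have h4 : 2 * M * (b - a) / T ≤ 2 * M / T := by
        apply div_le_div_of_nonneg_right _ hT0.le
        nlinarith
      push_cast
      linarith
  have h0 : ∑ i ∈ s, volume.real (Set.Icc a b ∩ Ss 0 i) ≤ B * T₀ ^ 2 := by
    obtain ⟨n, hn, hn1, hn2⟩ := hncell T₀ hT
    have hn0 : (0 : ℝ) < n := by exact_mod_cast hn
    have hℓ0 : 0 ≤ (b - a) / n := div_nonneg (by linarith) hn0.le
    have := cells_sum s φ φ' (Ss 0) a b M T₀ K (B * T₀ ^ 2) ((b - a) / n) hT hab hab1 hM0 hK n hn hn1 hℓ0 hd hl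
      (by
        intro i hi x hx hxS
        simp only [hSs, if_true] at hxS
        exact hxS)
      (by
        intro i hi c hc1 hc2
        calc volume.real (Set.Icc c (c + (b - a) / n) ∩ Ss 0 i) ≤ volume.real (Set.Icc c (c + (b - a) / n)) :=
              measureReal_mono Set.inter_subset_left (by simp [Real.volume_Icc])
          _ = (b - a) / n := by
            rw [Real.volume_real_Icc, add_sub_cancel_left, max_eq_left hℓ0])
      (by
        intro x hx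
        have := hB 0 (Nat.zero_le _) x hx
        simpa using this)
    refine this.trans ?_
    have e1 : (n : ℝ) * ((b - a) / n * (B * T₀ ^ 2)) = (b - a) * (B * T₀ ^ 2) := by field_simp
    rw [e1]
    have : 0 ≤ B * T₀ ^ 2 := by positivity
    nlinarith
  have ht : ∀ t ∈ range J, ∑ i ∈ s, volume.real (Set.Icc a b ∩ Ss (t + 1) i) ≤ 8 * K * B * (2 * M + 2 ^ J * T₀) := by
    intro t htJ
    have htJ' : t + 1 ≤ J := mem_range.1 htJ
    set T := 2 ^ (t + 1) * T₀ with hTdef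
    have hT1 : 1 ≤ T := by
      have : (1 : ℝ) ≤ 2 ^ (t + 1) := one_le_pow₀ (by norm_num)
      nlinarith
    have hT0 : 0 < T := by linarith
    have hTJ : T ≤ 2 ^ J * T₀ := by
      apply mul_le_mul_of_nonneg_right _ (by linarith)
      exact pow_le_pow_right₀ (by norm_num) htJ'
    obtain ⟨n, hn, hn1, hn2⟩ := hncell T hT1
    have := cells_sum s φ φ' (Ss (t + 1)) a b M T K (B * T ^ 2) (8 * K / T) hT1 hab hab1 hM0 hK n hn hn1 (by positivity) hd hl
      (by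
        intro i hi x hx hxS
        simp only [hSs, if_neg (by omega : ¬ t + 1 = 0)] at hxS
        exact ⟨hxS.1, hxS.2.2⟩)
      (by
        intro i hi c hc1 hc2
        have hsub : ∀ x ∈ Set.Icc c (c + (b - a) / n), x ∈ Set.Icc a b := fun x hx =>
          ⟨hc1.trans hx.1, hx.2.trans hc2⟩
        have e := cell_meas (φ i) (φ' i) c ((b - a) / n) M T K hT1 hM0 hn1 hK
          (fun y hy => hd i hi y (hsub y hy)) (fun y hy z hz => hl i hi y (hsub y hy) z (hsub z hz))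
        simp only [hSs, if_neg (by omega : ¬ t + 1 = 0)]
        exact e)
      (by
        intro x hx
        exact hB (t + 1) htJ' x hx)
    refine this.trans ?_
    calc (n : ℝ) * (8 * K / T * (B * T ^ 2)) = n * (8 * K * B * T) := by field_simp
      _ ≤ (2 * M / T + 1) * (8 * K * B * T) := mul_le_mul_of_nonneg_right hn2 (by positivity)
      _ = 8 * K * B * (2 * M + T) := by field_simp
      _ ≤ 8 * K * B * (2 * M + 2 ^ J * T₀) := by
        apply mul_le_mul_of_nonneg_left _ (by positivity)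
        linarith
  calc _ ≤ ∑ t ∈ range (J + 1), ∑ i ∈ s, volume.real (Set.Icc a b ∩ Ss t i) := h1
    _ = ∑ t ∈ range J, ∑ i ∈ s, volume.real (Set.Icc a b ∩ Ss (t + 1) i) + ∑ i ∈ s, volume.real (Set.Icc a b ∩ Ss 0 i) :=
        sum_range_succ' _ _
    _ ≤ ∑ _t ∈ range J, 8 * K * B * (2 * M + 2 ^ J * T₀) + B * T₀ ^ 2 := add_le_add (sum_le_sum ht) h0
    _ = _ := by
      rw [sum_const, card_range, nsmul_eq_mul]
      ring

end Pool.Agent.Zk40.W
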