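import Pool.Agent.Zk40.W.Free
import Pool.Agent.Zk40.W.Cells

/-!
Waring's problem for almost all real exponents: the number of the pairs of vectors of pairs with close values of `G`
and `H`.
-/

namespace Pool.Agent.Zk40.W

open Finset

lemma Scales.mono {θ Λ Λ' A : ℝ} {Q : ℕ → ℕ} (hs : Scales θ Λ A Q) (h : Λ ≤ Λ') : Scales θ Λ' A Q where
  th := hs.th
  big := hs.big
  one := hs.one
  log := fun i => (hs.log i).trans h
  low := hs.low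
  up := fun i => (hs.up i).trans (mul_le_mul_of_nonneg_right h (by positivity))

lemma box_card (Q : ℕ) : ((box Q).card : ℝ) = ((Q : ℝ) + 1) ^ 2 := by
  unfold box
  rw [card_product, Nat.card_Icc, Nat.card_Icc]
  have h1 : 2 * Q + 1 - Q = Q + 1 := by omega
  have h2 : 4 * Q + 1 - 3 * Q = Q + 1 := by omega
  rw [h1, h2]
  push_cast
  ring

lemma prod_low {θ Λ A : ℝ} {Q : ℕ → ℕ} (hs : Scales θ Λ A Q) (i : ℕ) :
    (Q 0 : ℝ) ^ (2 * θ) ≤ (∏ l ∈ range (i + 1), ((box (Q l)).card : ℝ)) * ((Q i : ℝ) ^ (θ - 1)) ^ 2 * Λ ^ (2 * i) := by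
  have hΛ := hs.Λ1
  have hth := hs.th
  have hQ : ∀ l, (1 : ℝ) ≤ Q l := fun l => by exact_mod_cast hs.one l
  have hstep : ∀ l, ((Q l : ℝ) ^ θ) ^ 2 ≤ ((box (Q l)).card : ℝ) * ((Q l : ℝ) ^ (θ - 1)) ^ 2 := by
    intro l
    have hl := hQ l
    have e1 : (Q l : ℝ) ^ θ = Q l * (Q l : ℝ) ^ (θ - 1) := by
      rw [← Real.rpow_one_add' (by linarith) (by linarith)]; congr 1; ring
    rw [e1, mul_pow, box_card]
    apply mul_le_mul_of_nonneg_right _ (by positivity)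
    nlinarith
  induction i with
  | zero =>
    rw [zero_add, prod_range_one, mul_zero, pow_zero, mul_one]
    refine le_trans (le_of_eq ?_) (hstep 0)
    rw [mul_comm 2 θ, Real.rpow_mul (by linarith [hQ 0])]
    norm_num
  | succ i ih =>
    rw [prod_range_succ]
    refine ih.trans ?_
    have e1 : ((Q i : ℝ) ^ (θ - 1)) ^ 2 ≤ Λ ^ 2 * (((box (Q (i + 1))).card : ℝ) * ((Q (i + 1) : ℝ) ^ (θ - 1)) ^ 2) := by
      calc ((Q i : ℝ) ^ (θ - 1)) ^ 2 ≤ (Λ * (Q (i + 1) : ℝ) ^ θ) ^ 2 :=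
            pow_le_pow_left₀ (by positivity) (hs.up i) 2
        _ = Λ ^ 2 * ((Q (i + 1) : ℝ) ^ θ) ^ 2 := by ring
        _ ≤ _ := mul_le_mul_of_nonneg_left (hstep (i + 1)) (by positivity)
    calc (∏ l ∈ range (i + 1), ((box (Q l)).card : ℝ)) * ((Q i : ℝ) ^ (θ - 1)) ^ 2 * Λ ^ (2 * i)
        ≤ (∏ l ∈ range (i + 1), ((box (Q l)).card : ℝ)) *
          (Λ ^ 2 * (((box (Q (i + 1))).card : ℝ) * ((Q (i + 1) : ℝ) ^ (θ - 1)) ^ 2)) * Λ ^ (2 * i) := by gcongr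
      _ = _ := by ring

/-- the number of the pairs of vectors with close values -/
theorem pairs_count (u : ℕ) (hu : 1 ≤ u) (A : ℝ) (hA : 1 ≤ A) (K₁ K₂ : ℝ) (hK₁ : 1 ≤ K₁) (hK₂ : 1 ≤ K₂) :
    ∃ C : ℝ, 1 ≤ C ∧ ∀ (θ Λ : ℝ) (Q : ℕ → ℕ), Scales θ Λ A Q → ∀ T : ℝ, (Q (u - 1) : ℝ) ^ (θ - 1) ≤ T →
    T ≤ K₂ * Λ * (Q 0 : ℝ) ^ θ →
    (((Y Q u ×ˢ Y Q u).filter (fun p => |G θ p.1 - G θ p.2| ≤ K₁ * T ∧ |H θ p.1 - H θ p.2| ≤ K₁ * T)).card : ℝ) *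
      (Q 0 : ℝ) ^ (2 * θ) ≤ C * Λ ^ (6 * u) * T ^ 2 * ((Y Q u).card : ℝ) ^ 2 := by
  classical
  have hKK : 1 ≤ K₁ * K₂ := by nlinarith
  choose! C hC hI using fun (i : ℕ) (hi : i + 1 ≤ u) => level_free i u hi A hA (K₁ * K₂) hKK
  have hC0 : ∀ i ∈ range u, 0 ≤ C i := fun i hi => le_trans (by norm_num) (hC i (mem_range.1 hi))
  refine ⟨1 + (∑ i ∈ range u, C i) * K₁ ^ 2, ?_, ?_⟩
  · have : 0 ≤ (∑ i ∈ range u, C i) * K₁ ^ 2 := mul_nonneg (sum_nonneg hC0) (sq_nonneg _)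
    linarith
  intro θ Λ Q hs T hT1 hT2
  have hΛ := hs.Λ1
  have hth := hs.th
  have hQ : ∀ l, (1 : ℝ) ≤ Q l := fun l => by exact_mod_cast hs.one l
  have hT0 : 0 < T := lt_of_lt_of_le (Real.rpow_pos_of_pos (by linarith [hQ (u - 1)]) _) hT1
  -- the choice of the level
  have hex : ∃ i : ℕ, (Q i : ℝ) ^ (θ - 1) ≤ T := ⟨u - 1, hT1⟩
  set i := Nat.find hex with hi
  have hi1 : (Q i : ℝ) ^ (θ - 1) ≤ T := Nat.find_spec hex
  have hiu : i + 1 ≤ u := by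
    have := Nat.find_min' hex hT1
    omega
  set D : ℝ := (Q i : ℝ) ^ (θ - 1) with hD
  have hD0 : 0 < D := Real.rpow_pos_of_pos (by linarith [hQ i]) _
  have hqq : (Q i : ℝ) ^ θ = Q i * D := by
    rw [hD, ← Real.rpow_one_add' (by linarith [hQ i]) (by linarith)]; congr 1; ring
  have hTup : T ≤ K₂ * Λ * (Q i * D) := by
    rw [← hqq]
    rcases Nat.eq_zero_or_pos i with h0 | h0
    · rw [h0]; exact hT2
    · have h1 := Nat.find_min hex (show i - 1 < i by omega)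
      push Not at h1
      have h2 := hs.up (i - 1)
      rw [show i - 1 + 1 = i by omega] at h2
      have h3 : 0 ≤ Λ * (Q i : ℝ) ^ θ := by positivity
      nlinarith
  set R : ℝ := K₁ * T / D with hR
  have hRD : R * D = K₁ * T := by rw [hR]; field_simp
  have hR1 : 1 ≤ R := by
    rw [hR, one_le_div hD0]
    nlinarith
  have hR2 : R ≤ K₁ * K₂ * Λ * Q i := by
    rw [hR, div_le_iff₀ hD0]
    calc K₁ * T ≤ K₁ * (K₂ * Λ * (Q i * D)) := mul_le_mul_of_nonneg_left hTup (by linarith)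
      _ = _ := by ring
  have hone : ∀ y ∈ Y Q u, (((Y Q u).filter (fun x => |G θ x - G θ y| ≤ K₁ * T ∧ |H θ x - H θ y| ≤ K₁ * T)).card : ℝ) *
      (Q 0 : ℝ) ^ (2 * θ) ≤ (1 + (∑ i ∈ range u, C i) * K₁ ^ 2) * Λ ^ (6 * u) * T ^ 2 * ((Y Q u).card : ℝ) := by
    intro y _
    set S := (Y Q u).filter (fun x => |G θ x - G θ y| ≤ K₁ * T ∧ |H θ x - H θ y| ≤ K₁ * T) with hS
    have h1 := hI i hiu θ Λ Q hs R (G θ y) (H θ y) hR1 hR2 S (filter_subset _ _)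
      (by intro x hx; rw [hRD]; exact (mem_filter.1 hx).2.1)
      (by intro x hx; rw [hRD]; exact (mem_filter.1 hx).2.2)
    have h2 := prod_low hs i
    rw [← hD] at h2
    set Pr := ∏ l ∈ range (i + 1), ((box (Q l)).card : ℝ) with hPr
    have hCi : C i ≤ ∑ i ∈ range u, C i := single_le_sum hC0 (mem_range.2 (by omega))
    have hCi0 : 0 ≤ C i := hC0 i (mem_range.2 (by omega))
    have hpow : Λ ^ (4 * (i + 1)) * Λ ^ (2 * i) ≤ Λ ^ (6 * u) := by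
      rw [← pow_add]
      exact pow_le_pow_right₀ hΛ (by omega)
    calc (S.card : ℝ) * (Q 0 : ℝ) ^ (2 * θ) ≤ S.card * (Pr * D ^ 2 * Λ ^ (2 * i)) :=
          mul_le_mul_of_nonneg_left h2 (Nat.cast_nonneg _)
      _ = (S.card * Pr) * (D ^ 2 * Λ ^ (2 * i)) := by ring
      _ ≤ (C i * Λ ^ (4 * (i + 1)) * R ^ 2 * (Y Q u).card) * (D ^ 2 * Λ ^ (2 * i)) :=
          mul_le_mul_of_nonneg_right h1 (by positivity)
      _ = C i * (Λ ^ (4 * (i + 1)) * Λ ^ (2 * i)) * (R * D) ^ 2 * (Y Q u).card := by ring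
      _ = C i * K₁ ^ 2 * (Λ ^ (4 * (i + 1)) * Λ ^ (2 * i)) * T ^ 2 * (Y Q u).card := by rw [hRD]; ring
      _ ≤ (1 + (∑ i ∈ range u, C i) * K₁ ^ 2) * Λ ^ (6 * u) * T ^ 2 * ((Y Q u).card : ℝ) := by
        have : C i * K₁ ^ 2 ≤ 1 + (∑ i ∈ range u, C i) * K₁ ^ 2 := by
          have := mul_le_mul_of_nonneg_right hCi (sq_nonneg K₁)
          linarith
        have h5 : 0 ≤ 1 + (∑ i ∈ range u, C i) * K₁ ^ 2 := le_trans (by positivity) this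
        gcongr
  have hcard : (((Y Q u ×ˢ Y Q u).filter (fun p => |G θ p.1 - G θ p.2| ≤ K₁ * T ∧ |H θ p.1 - H θ p.2| ≤ K₁ * T)).card : ℝ) =
      ∑ y ∈ Y Q u, (((Y Q u).filter (fun x => |G θ x - G θ y| ≤ K₁ * T ∧ |H θ x - H θ y| ≤ K₁ * T)).card : ℝ) := by
    rw [card_filter, sum_product_right]
    push_cast
    apply sum_congr rfl
    intro y _
    rw [card_filter]
    push_cast
    rfl
  rw [hcard, sum_mul]
  calc _ ≤ ∑ _y ∈ Y Q u, (1 + (∑ i ∈ range u, C i) * K₁ ^ 2) * Λ ^ (6 * u) * T ^ 2 * ((Y Q u).card : ℝ) := sum_le_sum hone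
    _ = _ := by rw [sum_const, nsmul_eq_mul]; ring

end Pool.Agent.Zk40.W
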