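import Pool.Agent.Zk40.W.Levels

/-!
Waring's problem for almost all real exponents: the count of the vectors of pairs with free last pairs.
-/

namespace Pool.Agent.Zk40.W

open Finset

lemma card_Y (Q : ℕ → ℕ) (n : ℕ) : ((Y Q n).card : ℝ) = ∏ l ∈ range n, ((box (Q l)).card : ℝ) := by
  unfold Y
  rw [Fintype.card_piFinset, Nat.cast_prod, ← Fin.prod_univ_eq_prod_range (fun l => ((box (Q l)).card : ℝ)) n]

/-- one more free pair -/
lemma free_step (θ : ℝ) (Q : ℕ → ℕ) (n : ℕ) (R M : ℝ)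
    (ih : ∀ c d : ℝ, ∀ S ⊆ Y Q n, (∀ y ∈ S, |G θ y - c| ≤ R) → (∀ y ∈ S, |H θ y - d| ≤ R) → (S.card : ℝ) ≤ M) :
    ∀ c d : ℝ, ∀ S ⊆ Y Q (n + 1), (∀ y ∈ S, |G θ y - c| ≤ R) → (∀ y ∈ S, |H θ y - d| ≤ R) →
      (S.card : ℝ) ≤ M * ((box (Q n)).card : ℝ) := by
  intro c d S hS h1 h2
  have hM : 0 ≤ M := by
    have := ih 0 0 ∅ (empty_subset _) (by simp) (by simp)
    simpa using this
  have hfib := card_fib S (fun y : Fin (n + 1) → ℕ × ℕ => y (Fin.last n)) M (by
    intro p hp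
    have hinj : Set.InjOn (fun (y : Fin (n + 1) → ℕ × ℕ) (j : Fin n) => y j.castSucc)
        ((S.filter (fun y => y (Fin.last n) = p) : Finset _) : Set (Fin (n + 1) → ℕ × ℕ)) := by
      intro x hx y hy hxy
      have hx' := (mem_filter.1 (mem_coe.1 hx)).2
      have hy' := (mem_filter.1 (mem_coe.1 hy)).2
      funext j
      refine Fin.lastCases ?_ ?_ j
      · rw [hx', hy']
      · intro j'
        exact congrFun hxy j'
    rw [← card_image_of_injOn hinj]
    apply ih (c - g θ p) (d - h θ p)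
    · intro z hz
      rw [mem_image] at hz
      obtain ⟨y, hy, rfl⟩ := hz
      have := Fintype.mem_piFinset.1 (hS (mem_filter.1 hy).1)
      apply Fintype.mem_piFinset.2
      intro j
      exact this j.castSucc
    · intro z hz
      rw [mem_image] at hz
      obtain ⟨y, hy, rfl⟩ := hz
      have e1 := h1 y (mem_filter.1 hy).1
      have e2 : G θ y = G θ (fun j : Fin n => y j.castSucc) + g θ p := by
        unfold G; rw [Fin.sum_univ_castSucc, (mem_filter.1 hy).2]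
      rw [e2] at e1
      have e3 : G θ (fun j : Fin n => y j.castSucc) - (c - g θ p) =
        G θ (fun j : Fin n => y j.castSucc) + g θ p - c := by ring
      rw [e3]; exact e1
    · intro z hz
      rw [mem_image] at hz
      obtain ⟨y, hy, rfl⟩ := hz
      have e1 := h2 y (mem_filter.1 hy).1
      have e2 : H θ y = H θ (fun j : Fin n => y j.castSucc) + h θ p := by
        unfold H; rw [Fin.sum_univ_castSucc, (mem_filter.1 hy).2]
      rw [e2] at e1
      have e3 : H θ (fun j : Fin n => y j.castSucc) - (d - h θ p) =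
        H θ (fun j : Fin n => y j.castSucc) + h θ p - d := by ring
      rw [e3]; exact e1)
  refine hfib.trans ?_
  have himg : ((S.image (fun y : Fin (n + 1) → ℕ × ℕ => y (Fin.last n))).card : ℝ) ≤ ((box (Q n)).card : ℝ) := by
    have : S.image (fun y : Fin (n + 1) → ℕ × ℕ => y (Fin.last n)) ⊆ box (Q n) := by
      intro p hp
      rw [mem_image] at hp
      obtain ⟨y, hy, rfl⟩ := hp
      have := Fintype.mem_piFinset.1 (hS hy) (Fin.last n)
      simpa using this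
    exact_mod_cast card_le_card this
  exact mul_le_mul_of_nonneg_left himg hM

/-- the same with free pairs after the level `i` -/
theorem level_free (i n : ℕ) (hin : i + 1 ≤ n) (A : ℝ) (hA : 1 ≤ A) (K : ℝ) (hK : 1 ≤ K) : ∃ C : ℝ, 1 ≤ C ∧
    ∀ (θ Λ : ℝ) (Q : ℕ → ℕ), Scales θ Λ A Q →
    ∀ R c d : ℝ, 1 ≤ R → R ≤ K * Λ * Q i → ∀ S ⊆ Y Q n,
    (∀ y ∈ S, |G θ y - c| ≤ R * (Q i : ℝ) ^ (θ - 1)) → (∀ y ∈ S, |H θ y - d| ≤ R * (Q i : ℝ) ^ (θ - 1)) →
    (S.card : ℝ) * ∏ l ∈ range (i + 1), ((box (Q l)).card : ℝ) ≤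
      C * Λ ^ (4 * (i + 1)) * R ^ 2 * (Y Q n).card := by
  obtain ⟨C, hC, hI⟩ := level_count i K A hK hA
  refine ⟨C, hC, ?_⟩
  intro θ Λ Q hs R c d hR hRK S hS h1 h2
  have hΛ := hs.Λ1
  have main : ∀ n, i + 1 ≤ n → ∀ c d : ℝ, ∀ S ⊆ Y Q n,
      (∀ y ∈ S, |G θ y - c| ≤ R * (Q i : ℝ) ^ (θ - 1)) → (∀ y ∈ S, |H θ y - d| ≤ R * (Q i : ℝ) ^ (θ - 1)) →
      (S.card : ℝ) ≤ C * Λ ^ (4 * (i + 1)) * R ^ 2 * ∏ l ∈ Ico (i + 1) n, ((box (Q l)).card : ℝ) := by
    intro n hn
    induction n, hn using Nat.le_induction with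
    | base =>
      intro c d S hS h1 h2
      rw [Ico_self, prod_empty, mul_one]
      exact hI θ Λ Q hs R c d hR hRK S hS h1 h2
    | succ n hn ih =>
      intro c d S hS h1 h2
      rw [prod_Ico_succ_top hn, ← mul_assoc]
      exact free_step θ Q n _ _ ih c d S hS h1 h2
  have hfin := main n hin c d S hS h1 h2
  rw [card_Y, ← prod_range_mul_prod_Ico _ hin]
  have hP : 0 ≤ ∏ l ∈ range (i + 1), ((box (Q l)).card : ℝ) := by positivity
  calc (S.card : ℝ) * ∏ l ∈ range (i + 1), ((box (Q l)).card : ℝ)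
      ≤ (C * Λ ^ (4 * (i + 1)) * R ^ 2 * ∏ l ∈ Ico (i + 1) n, ((box (Q l)).card : ℝ)) *
        ∏ l ∈ range (i + 1), ((box (Q l)).card : ℝ) := mul_le_mul_of_nonneg_right hfin hP
    _ = _ := by ring

end Pool.Agent.Zk40.W
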