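import Pool.Agent.Zk40.W.Count

/-!
Waring's problem for almost all real exponents: derivatives with respect to the exponent.
-/

namespace Pool.Agent.Zk40.W

open Finset

/-- the derivative of `h` with respect to `θ` -/
noncomputable def h2 (θ : ℝ) (p : ℕ × ℕ) : ℝ :=
  (p.1 : ℝ) ^ θ * Real.log p.1 * Real.log p.1 + (p.2 : ℝ) ^ θ * Real.log p.2 * Real.log p.2

/-- the second derivative of `G` with respect to `θ` -/
noncomputable def H2 (θ : ℝ) {n : ℕ} (y : Fin n → ℕ × ℕ) : ℝ := ∑ i, h2 θ (y i)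

lemma g_der (θ : ℝ) (p : ℕ × ℕ) (h1 : 1 ≤ p.1) (h2 : 1 ≤ p.2) : HasDerivAt (fun θ => g θ p) (h θ p) θ := by
  have e1 : (0 : ℝ) < p.1 := by exact_mod_cast h1
  have e2 : (0 : ℝ) < p.2 := by exact_mod_cast h2
  exact ((Real.hasStrictDerivAt_const_rpow e1 θ).hasDerivAt).add ((Real.hasStrictDerivAt_const_rpow e2 θ).hasDerivAt)

lemma h_der (θ : ℝ) (p : ℕ × ℕ) (h1 : 1 ≤ p.1) (h3 : 1 ≤ p.2) : HasDerivAt (fun θ => h θ p) (h2 θ p) θ := by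
  have e1 : (0 : ℝ) < p.1 := by exact_mod_cast h1
  have e2 : (0 : ℝ) < p.2 := by exact_mod_cast h3
  exact (((Real.hasStrictDerivAt_const_rpow e1 θ).hasDerivAt).mul_const _).add
    (((Real.hasStrictDerivAt_const_rpow e2 θ).hasDerivAt).mul_const _)

lemma mem_pos {Q : ℕ → ℕ} (hQ : ∀ i, 1 ≤ Q i) {n : ℕ} {y : Fin n → ℕ × ℕ} (hy : y ∈ Y Q n) (i : Fin n) :
    1 ≤ (y i).1 ∧ 1 ≤ (y i).2 := by
  have h1 := Fintype.mem_piFinset.1 hy i
  simp only [box, mem_product, mem_Icc] at h1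
  have := hQ i
  omega

lemma G_der {Q : ℕ → ℕ} (hQ : ∀ i, 1 ≤ Q i) {n : ℕ} {y : Fin n → ℕ × ℕ} (hy : y ∈ Y Q n) (θ : ℝ) :
    HasDerivAt (fun θ => G θ y) (H θ y) θ := by
  unfold G H
  have := HasDerivAt.fun_sum (u := univ) (fun i (_ : i ∈ univ) => g_der θ (y i) (mem_pos hQ hy i).1 (mem_pos hQ hy i).2)
  exact this

lemma H_der {Q : ℕ → ℕ} (hQ : ∀ i, 1 ≤ Q i) {n : ℕ} {y : Fin n → ℕ × ℕ} (hy : y ∈ Y Q n) (θ : ℝ) :
    HasDerivAt (fun θ => H θ y) (H2 θ y) θ := by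
  unfold H H2
  have := HasDerivAt.fun_sum (u := univ) (fun i (_ : i ∈ univ) => h_der θ (y i) (mem_pos hQ hy i).1 (mem_pos hQ hy i).2)
  exact this

/-- the bounds for the values, if `Q i ≤ P` for all `i` -/
lemma bounds {θ Λ A : ℝ} {Q : ℕ → ℕ} (hs : Scales θ Λ A Q) (P : ℕ) (hP : ∀ i, Q i ≤ P) {n : ℕ} {y : Fin n → ℕ × ℕ}
    (hy : y ∈ Y Q n) : (0 ≤ G θ y ∧ G θ y ≤ 2 * n * A * (P : ℝ) ^ θ) ∧ (0 ≤ H θ y ∧ H θ y ≤ 2 * n * A * Λ * (P : ℝ) ^ θ) ∧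
      (0 ≤ H2 θ y ∧ H2 θ y ≤ 2 * n * A * Λ ^ 2 * (P : ℝ) ^ θ) := by
  have hΛ := hs.Λ1
  have hA := hs.A1
  have hth := hs.th
  have hmem := Fintype.mem_piFinset.1 hy
  have hmono : ∀ i, (Q i : ℝ) ^ θ ≤ (P : ℝ) ^ θ := fun i =>
    Real.rpow_le_rpow (Nat.cast_nonneg _) (by exact_mod_cast hP i) (by linarith)
  have hPθ : 0 ≤ (P : ℝ) ^ θ := by positivity
  have hg : ∀ i, 0 ≤ g θ (y i) ∧ g θ (y i) ≤ 2 * A * (P : ℝ) ^ θ := by
    intro i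
    have := g_bound hs i (y i) (hmem i)
    exact ⟨this.1, this.2.trans (mul_le_mul_of_nonneg_left (hmono i) (by positivity))⟩
  have hh : ∀ i, 0 ≤ h θ (y i) ∧ h θ (y i) ≤ 2 * A * Λ * (P : ℝ) ^ θ := by
    intro i
    have := h_bound hs i (y i) (hmem i)
    exact ⟨this.1, this.2.trans (mul_le_mul_of_nonneg_left (hmono i) (by positivity))⟩
  have hh2 : ∀ i, 0 ≤ h2 θ (y i) ∧ h2 θ (y i) ≤ 2 * A * Λ ^ 2 * (P : ℝ) ^ θ := by
    intro i
    obtain ⟨p1, p2⟩ := mem_pos hs.one hy i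
    have hm := hmem i
    simp only [box, mem_product, mem_Icc] at hm
    obtain ⟨⟨m1, m2⟩, m3, m4⟩ := hm
    have p1' : (1 : ℝ) ≤ (y i).1 := by exact_mod_cast p1
    have p2' : (1 : ℝ) ≤ (y i).2 := by exact_mod_cast p2
    have l1 : 0 ≤ Real.log (y i).1 := Real.log_nonneg p1'
    have l2 : 0 ≤ Real.log (y i).2 := Real.log_nonneg p2'
    have l3 : Real.log (y i).1 ≤ Λ := by
      have := Real.log_le_log (by linarith) (show ((y i).1 : ℝ) ≤ 4 * Q i by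
        have : (y i).1 ≤ 4 * Q i := by omega
        exact_mod_cast this)
      linarith [hs.log i]
    have l4 : Real.log (y i).2 ≤ Λ := by
      have := Real.log_le_log (by linarith) (show ((y i).2 : ℝ) ≤ 4 * Q i by exact_mod_cast m4)
      linarith [hs.log i]
    have e1 : 0 ≤ ((y i).1 : ℝ) ^ θ := by positivity
    have e2 : 0 ≤ ((y i).2 : ℝ) ^ θ := by positivity
    constructor
    · unfold h2; positivity
    · calc h2 θ (y i) ≤ ((y i).1 : ℝ) ^ θ * Real.log (y i).1 * Λ + ((y i).2 : ℝ) ^ θ * Real.log (y i).2 * Λ := by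
            unfold h2
            gcongr
        _ = h θ (y i) * Λ := by unfold h; ring
        _ ≤ 2 * A * Λ * (P : ℝ) ^ θ * Λ := mul_le_mul_of_nonneg_right (hh i).2 (by linarith)
        _ = _ := by ring
  have hsum : ∀ (f : Fin n → ℝ) (B : ℝ), (∀ i, 0 ≤ f i ∧ f i ≤ B) → 0 ≤ ∑ i, f i ∧ ∑ i, f i ≤ n * B := by
    intro f B hf
    constructor
    · exact sum_nonneg fun i _ => (hf i).1
    · calc ∑ i, f i ≤ ∑ _i : Fin n, B := sum_le_sum fun i _ => (hf i).2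
        _ = n * B := by simp
  refine ⟨?_, ?_, ?_⟩
  · obtain ⟨a1, a2⟩ := hsum _ _ hg
    exact ⟨a1, a2.trans (le_of_eq (by ring))⟩
  · obtain ⟨a1, a2⟩ := hsum _ _ hh
    exact ⟨a1, a2.trans (le_of_eq (by ring))⟩
  · obtain ⟨a1, a2⟩ := hsum _ _ hh2
    exact ⟨a1, a2.trans (le_of_eq (by ring))⟩

lemma abs_sub_le_of {a b B : ℝ} (ha : 0 ≤ a) (ha2 : a ≤ B) (hb : 0 ≤ b) (hb2 : b ≤ B) : |a - b| ≤ B := by
  rw [abs_le]; constructor <;> linarith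

end Pool.Agent.Zk40.W
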