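import Pool.Agent.Zk40.W.Deriv

/-!
Waring's problem for almost all real exponents: the mean value of the energy over an interval of exponents.
-/

namespace Pool.Agent.Zk40.W

open Finset MeasureTheory

/-- the scales -/
noncomputable def Qs (κ : ℝ) (P : ℕ) : ℕ → ℕ
  | 0 => P
  | i + 1 => ⌊(Qs κ P i : ℝ) ^ κ⌋₊

lemma Qs_one {κ : ℝ} {P : ℕ} (hκ : 0 ≤ κ) (hP : 1 ≤ P) : ∀ i, 1 ≤ Qs κ P i := by
  intro i
  induction i with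
  | zero => exact hP
  | succ i ih =>
    apply Nat.le_floor
    have : (1 : ℝ) ≤ Qs κ P i := by exact_mod_cast ih
    push_cast
    exact Real.one_le_rpow this hκ

lemma Qs_step {κ : ℝ} {P : ℕ} (i : ℕ) : (Qs κ P (i + 1) : ℝ) ≤ (Qs κ P i : ℝ) ^ κ :=
  Nat.floor_le (by positivity)

lemma Qs_step_low {κ : ℝ} {P : ℕ} (hκ : 0 ≤ κ) (hP : 1 ≤ P) (i : ℕ) : (Qs κ P i : ℝ) ^ κ / 2 ≤ (Qs κ P (i + 1) : ℝ) := by
  have h1 : (1 : ℝ) ≤ Qs κ P (i + 1) := by exact_mod_cast Qs_one hκ hP (i + 1)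
  have h2 : (Qs κ P i : ℝ) ^ κ < Qs κ P (i + 1) + 1 := Nat.lt_floor_add_one _
  linarith

lemma Qs_pow {κ : ℝ} {P : ℕ} (hκ : 0 ≤ κ) : ∀ i, (Qs κ P i : ℝ) ≤ (P : ℝ) ^ (κ ^ i) := by
  intro i
  induction i with
  | zero => simp [Qs]
  | succ i ih =>
    refine (Qs_step i).trans ?_
    rw [pow_succ, Real.rpow_mul (Nat.cast_nonneg _)]
    exact Real.rpow_le_rpow (Nat.cast_nonneg _) ih hκ

lemma Qs_le {κ : ℝ} {P : ℕ} (hκ : 0 ≤ κ) (hκ1 : κ ≤ 1) (hP : 1 ≤ P) (i : ℕ) : Qs κ P i ≤ P := by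
  have h1 := Qs_pow (P := P) hκ i
  have h2 : (1 : ℝ) ≤ P := by exact_mod_cast hP
  have h3 : (P : ℝ) ^ (κ ^ i) ≤ (P : ℝ) ^ (1 : ℝ) :=
    Real.rpow_le_rpow_of_exponent_le h2 (pow_le_one₀ hκ hκ1)
  rw [Real.rpow_one] at h3
  exact_mod_cast h1.trans h3

lemma scales (θ₀ η θ Λ : ℝ) (P : ℕ) (hθ₀ : 1 < θ₀) (hη : 0 ≤ η) (hη1 : η ≤ 1) (h1 : θ₀ ≤ θ) (h2 : θ ≤ θ₀ + η)
    (hP : 1 ≤ P) (hΛ1 : Real.log (4 * P) + 1 ≤ Λ) (hΛ2 : (2 : ℝ) ^ (θ₀ + 1) * (P : ℝ) ^ η ≤ Λ) :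
    Scales θ Λ ((4 : ℝ) ^ (θ₀ + 1)) (Qs (1 - 1 / θ₀) P) := by
  have hθ0 : 0 < θ₀ := by linarith
  have hκ : 0 ≤ 1 - 1 / θ₀ := by
    rw [sub_nonneg, div_le_one hθ0]; exact hθ₀.le
  have hκ1 : 1 - 1 / θ₀ ≤ 1 := by
    have : 0 ≤ 1 / θ₀ := by positivity
    linarith
  have hPr : (1 : ℝ) ≤ P := by exact_mod_cast hP
  set κ := 1 - 1 / θ₀ with hκdef
  have hQ : ∀ l, (1 : ℝ) ≤ Qs κ P l := fun l => by exact_mod_cast Qs_one hκ hP l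
  have hQP : ∀ l, (Qs κ P l : ℝ) ≤ P := fun l => by exact_mod_cast Qs_le hκ hκ1 hP l
  have hdiv : 1 ≤ θ / θ₀ := by rw [one_le_div hθ0]; exact h1
  refine ⟨by linarith, ?_, Qs_one hκ hP, ?_, ?_, ?_⟩
  · exact Real.rpow_le_rpow_of_exponent_le (by norm_num) (by linarith)
  · intro i
    have := Real.log_le_log (by linarith [hQ i]) (show 4 * (Qs κ P i : ℝ) ≤ 4 * P by linarith [hQP i])
    linarith
  · intro i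
    calc (Qs κ P (i + 1) : ℝ) ^ θ ≤ ((Qs κ P i : ℝ) ^ κ) ^ θ :=
          Real.rpow_le_rpow (Nat.cast_nonneg _) (Qs_step i) (by linarith)
      _ = (Qs κ P i : ℝ) ^ (κ * θ) := by rw [← Real.rpow_mul (Nat.cast_nonneg _)]
      _ ≤ (Qs κ P i : ℝ) ^ (θ - 1) := by
        apply Real.rpow_le_rpow_of_exponent_le (hQ i)
        rw [hκdef, sub_mul, one_mul, one_div, inv_mul_eq_div]
        linarith
  · intro i
    have hQi0 : (0 : ℝ) < Qs κ P i := by linarith [hQ i]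
    have e1 : (Qs κ P i : ℝ) ^ (θ - 1) = (Qs κ P i : ℝ) ^ (κ * θ) * (Qs κ P i : ℝ) ^ ((θ - θ₀) / θ₀) := by
      rw [← Real.rpow_add hQi0]
      congr 1
      rw [hκdef]
      field_simp
      ring
    have e2 : (Qs κ P i : ℝ) ^ ((θ - θ₀) / θ₀) ≤ (P : ℝ) ^ η := by
      have e3 : (θ - θ₀) / θ₀ ≤ η := by
        rw [div_le_iff₀ hθ0]
        nlinarith
      have e4 : 0 ≤ (θ - θ₀) / θ₀ := div_nonneg (by linarith) hθ0.le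
      calc (Qs κ P i : ℝ) ^ ((θ - θ₀) / θ₀) ≤ (P : ℝ) ^ ((θ - θ₀) / θ₀) := Real.rpow_le_rpow hQi0.le (hQP i) e4
        _ ≤ _ := Real.rpow_le_rpow_of_exponent_le hPr e3
    have e5 : (Qs κ P i : ℝ) ^ (κ * θ) ≤ 2 ^ θ * (Qs κ P (i + 1) : ℝ) ^ θ := by
      rw [← Real.mul_rpow (by norm_num) (Nat.cast_nonneg _), Real.rpow_mul hQi0.le]
      apply Real.rpow_le_rpow (by positivity) _ (by linarith)
      linarith [Qs_step_low (κ := κ) hκ hP i]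
    have e6 : (2 : ℝ) ^ θ ≤ 2 ^ (θ₀ + 1) := Real.rpow_le_rpow_of_exponent_le (by norm_num) (by linarith)
    rw [e1]
    calc (Qs κ P i : ℝ) ^ (κ * θ) * (Qs κ P i : ℝ) ^ ((θ - θ₀) / θ₀)
        ≤ (2 ^ θ * (Qs κ P (i + 1) : ℝ) ^ θ) * (P : ℝ) ^ η := mul_le_mul e5 e2 (by positivity) (by positivity)
      _ ≤ (2 ^ (θ₀ + 1) * (Qs κ P (i + 1) : ℝ) ^ θ) * (P : ℝ) ^ η := by gcongr
      _ = (2 ^ (θ₀ + 1) * (P : ℝ) ^ η) * (Qs κ P (i + 1) : ℝ) ^ θ := by ring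
      _ ≤ Λ * (Qs κ P (i + 1) : ℝ) ^ θ := mul_le_mul_of_nonneg_right hΛ2 (by positivity)

/-- the mean value of the energy -/
theorem energy (u : ℕ) (hu : 1 ≤ u) (θ₀ : ℝ) (hθ₀ : 1 < θ₀) (K₀ : ℝ) (hK₀ : 0 ≤ K₀) (hκu : (1 - 1 / θ₀) ^ u ≤ 1 / 2) :
    ∃ C : ℝ, 1 ≤ C ∧ ∀ (η : ℝ) (P : ℕ) (Λ : ℝ), 0 ≤ η → η ≤ 1 → 1 ≤ P → Real.log (4 * P) + 1 ≤ Λ →
    (2 : ℝ) ^ (θ₀ + 1) * (P : ℝ) ^ η ≤ Λ →
    ∑ p ∈ Y (Qs (1 - 1 / θ₀) P) u ×ˢ Y (Qs (1 - 1 / θ₀) P) u,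
      volume.real (Set.Icc θ₀ (θ₀ + η) ∩ {θ | |G θ p.1 - G θ p.2| ≤ K₀}) ≤
      C * Λ ^ (12 * u + 4) * ((Y (Qs (1 - 1 / θ₀) P) u).card : ℝ) ^ 2 * (P : ℝ) ^ (-θ₀) := by
  classical
  have hθ0 : 0 < θ₀ := by linarith
  have hκ : 0 ≤ 1 - 1 / θ₀ := by
    rw [sub_nonneg, div_le_one hθ0]; exact hθ₀.le
  have hκ1 : 1 - 1 / θ₀ ≤ 1 := by
    have : 0 ≤ 1 / θ₀ := by positivity
    linarith
  have hur : (1 : ℝ) ≤ u := by exact_mod_cast hu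
  obtain ⟨A, hA⟩ : ∃ A : ℝ, A = (4 : ℝ) ^ (θ₀ + 1) := ⟨_, rfl⟩
  have hA1 : 1 ≤ A := by rw [hA]; exact Real.one_le_rpow (by norm_num) (by linarith)
  obtain ⟨K₂, hK₂⟩ : ∃ K₂ : ℝ, K₂ = 2 * u * A := ⟨_, rfl⟩
  have hK₂1 : 1 ≤ K₂ := by
    rw [hK₂]
    nlinarith
  obtain ⟨C₁, hC₁, hcount⟩ := pairs_count u hu A hA1 (K₀ + 3) K₂ (by linarith) hK₂1
  obtain ⟨CJ, hCJ⟩ : ∃ CJ : ℝ, CJ = 2 * (Real.log K₂ + 2 + θ₀) := ⟨_, rfl⟩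
  have hlogK : 0 ≤ Real.log K₂ := Real.log_nonneg hK₂1
  have hCJ0 : 0 ≤ CJ := by rw [hCJ]; linarith
  refine ⟨C₁ * (1 + 24 * K₀ * CJ * K₂), ?_, ?_⟩
  · have : 0 ≤ 24 * K₀ * CJ * K₂ := by positivity
    nlinarith
  intro η P Λ hη hη1 hP hΛ1 hΛ2
  obtain ⟨κ, hκdef⟩ : ∃ κ : ℝ, κ = 1 - 1 / θ₀ := ⟨_, rfl⟩
  rw [← hκdef] at hκ hκ1 hκu ⊢
  have hPr : (1 : ℝ) ≤ P := by exact_mod_cast hP
  have hP0 : (0 : ℝ) < P := by linarith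
  have hsc : ∀ θ ∈ Set.Icc θ₀ (θ₀ + η), Scales θ Λ A (Qs κ P) := by
    intro θ hθ
    rw [hκdef, hA]
    exact scales θ₀ η θ Λ P hθ₀ hη hη1 hθ.1 hθ.2 hP hΛ1 hΛ2
  have hs0 := hsc θ₀ ⟨le_rfl, by linarith⟩
  have hΛ := hs0.Λ1
  have hΛ0 : 0 < Λ := by linarith
  have hPη : (P : ℝ) ^ η ≤ Λ := by
    refine le_trans ?_ hΛ2
    apply le_mul_of_one_le_left (by positivity)
    exact Real.one_le_rpow (by norm_num) (by linarith)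
  have hlogP : Real.log P ≤ Λ := by
    have := Real.log_le_log hP0 (show (P : ℝ) ≤ 4 * P by linarith)
    linarith
  have hone := hs0.one
  have hQP : ∀ i, Qs κ P i ≤ P := fun i => Qs_le hκ hκ1 hP i
  set Q := Qs κ P with hQ
  set θ₁ := θ₀ + η with hθ₁
  have hPθ₁ : (P : ℝ) ^ θ₁ ≤ Λ * (P : ℝ) ^ θ₀ := by
    rw [hθ₁, Real.rpow_add hP0, mul_comm]
    exact mul_le_mul_of_nonneg_right hPη (by positivity)
  have hPmono : ∀ θ ∈ Set.Icc θ₀ θ₁, (P : ℝ) ^ θ ≤ (P : ℝ) ^ θ₁ := fun θ hθ =>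
    Real.rpow_le_rpow_of_exponent_le hPr hθ.2
  obtain ⟨M₁, hM₁⟩ : ∃ M₁ : ℝ, M₁ = 2 * u * A * Λ * (P : ℝ) ^ θ₁ := ⟨_, rfl⟩
  obtain ⟨M, hM⟩ : ∃ M : ℝ, M = 2 * u * A * Λ ^ 2 * (P : ℝ) ^ θ₁ := ⟨_, rfl⟩
  have hM₁M : M₁ ≤ M := by
    rw [hM₁, hM]
    have : Λ ≤ Λ ^ 2 := by nlinarith
    gcongr
  have hM0 : 0 ≤ M := by rw [hM]; positivity
  obtain ⟨T₀, hT₀⟩ : ∃ T₀ : ℝ, T₀ = (Q (u - 1) : ℝ) ^ (θ₁ - 1) := ⟨_, rfl⟩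
  have hQu : (1 : ℝ) ≤ Q (u - 1) := by exact_mod_cast hone (u - 1)
  have hT₀1 : 1 ≤ T₀ := by rw [hT₀]; exact Real.one_le_rpow hQu (by linarith)
  have hT₀M : T₀ ≤ M₁ := by
    have e1 : T₀ ≤ (P : ℝ) ^ θ₁ := by
      rw [hT₀]
      calc (Q (u - 1) : ℝ) ^ (θ₁ - 1) ≤ (P : ℝ) ^ (θ₁ - 1) :=
            Real.rpow_le_rpow (by linarith) (by exact_mod_cast hQP (u - 1)) (by linarith)
        _ ≤ _ := Real.rpow_le_rpow_of_exponent_le hPr (by linarith)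
    have e2 : (1 : ℝ) ≤ 2 * u * A * Λ := by
      have : 1 ≤ K₂ * Λ := by nlinarith
      rw [hK₂] at this
      exact this
    rw [hM₁]
    exact e1.trans (le_mul_of_one_le_left (by positivity) e2)
  have hT₀0 : 0 < T₀ := by linarith
  obtain ⟨J, hJ⟩ : ∃ J : ℕ, J = Nat.log 2 ⌊M₁ / T₀⌋₊ := ⟨_, rfl⟩
  have hM₁0 : 0 < M₁ := by linarith
  have hfl1 : 1 ≤ ⌊M₁ / T₀⌋₊ := by
    apply Nat.le_floor
    push_cast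
    rw [one_le_div hT₀0]
    exact hT₀M
  have hJ1 : (2 : ℝ) ^ J * T₀ ≤ M₁ := by
    have h1 : 2 ^ J ≤ ⌊M₁ / T₀⌋₊ := by rw [hJ]; exact Nat.pow_log_le_self 2 (by omega)
    have h2 : (2 : ℝ) ^ J ≤ M₁ / T₀ := by
      calc (2 : ℝ) ^ J = ((2 ^ J : ℕ) : ℝ) := by push_cast; ring
        _ ≤ (⌊M₁ / T₀⌋₊ : ℝ) := by exact_mod_cast h1
        _ ≤ _ := Nat.floor_le (by positivity)
    rwa [le_div_iff₀ hT₀0] at h2
  have hJ2 : M₁ ≤ (2 : ℝ) ^ (J + 1) * T₀ := by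
    have h1 : ⌊M₁ / T₀⌋₊ < 2 ^ (J + 1) := by rw [hJ]; exact Nat.lt_pow_succ_log_self (by norm_num) _
    have h2 : M₁ / T₀ < ((2 ^ (J + 1) : ℕ) : ℝ) := (Nat.floor_lt (by positivity)).1 h1
    rw [div_lt_iff₀ hT₀0] at h2
    push_cast at h2
    exact h2.le
  have hM₁up : M₁ ≤ K₂ * Λ ^ 2 * (P : ℝ) ^ θ₀ := by
    rw [hM₁, hK₂]
    calc 2 * u * A * Λ * (P : ℝ) ^ θ₁ ≤ 2 * u * A * Λ * (Λ * (P : ℝ) ^ θ₀) := by gcongr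
      _ = _ := by ring
  have hMup : M ≤ K₂ * Λ ^ 3 * (P : ℝ) ^ θ₀ := by
    rw [hM, hK₂]
    calc 2 * u * A * Λ ^ 2 * (P : ℝ) ^ θ₁ ≤ 2 * u * A * Λ ^ 2 * (Λ * (P : ℝ) ^ θ₀) := by gcongr
      _ = _ := by ring
  have hJΛ : (J : ℝ) ≤ CJ * Λ := by
    have h1 : (2 : ℝ) ^ J ≤ K₂ * Λ ^ 2 * (P : ℝ) ^ θ₀ := by
      have : (2 : ℝ) ^ J ≤ (2 : ℝ) ^ J * T₀ := le_mul_of_one_le_right (by positivity) hT₀1
      linarith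
    have h2 := Real.log_le_log (by positivity) h1
    rw [Real.log_pow, Real.log_mul (by positivity) (by positivity), Real.log_mul (by positivity) (by positivity),
      Real.log_pow, Real.log_rpow hP0] at h2
    have h3 : Real.log Λ ≤ Λ := (Real.log_le_sub_one_of_pos hΛ0).trans (by linarith)
    have h4 : (1 : ℝ) / 2 ≤ Real.log 2 := by linarith [Real.log_two_gt_d9]
    have h5 : Real.log K₂ ≤ Real.log K₂ * Λ := le_mul_of_one_le_right hlogK hΛ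
    have h6 : θ₀ * Real.log P ≤ θ₀ * Λ := mul_le_mul_of_nonneg_left hlogP hθ0.le
    have h7 : (J : ℝ) * (1 / 2) ≤ J * Real.log 2 := mul_le_mul_of_nonneg_left h4 (Nat.cast_nonneg _)
    rw [hCJ]
    push_cast at h2
    nlinarith
  have hT₀sq : T₀ ^ 2 ≤ Λ ^ 2 * (P : ℝ) ^ θ₀ := by
    have e0 : (Q (u - 1) : ℝ) ≤ (P : ℝ) ^ (κ ^ (u - 1)) := Qs_pow hκ (u - 1)
    have e1 : T₀ ≤ (P : ℝ) ^ (κ ^ (u - 1) * (θ₁ - 1)) := by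
      rw [hT₀, Real.rpow_mul hP0.le]
      exact Real.rpow_le_rpow (by linarith) e0 (by linarith)
    have e2 : κ ^ (u - 1) * (θ₁ - 1) ≤ θ₀ / 2 + η := by
      have h1 : κ ^ (u - 1) * (θ₀ - 1) = κ ^ u * θ₀ := by
        have h2 : θ₀ - 1 = κ * θ₀ := by rw [hκdef]; field_simp
        have h3 : κ ^ u = κ ^ (u - 1) * κ := by rw [← pow_succ]; congr 1; omega
        rw [h2, h3]; ring
      have h4 : κ ^ (u - 1) ≤ 1 := pow_le_one₀ hκ hκ1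
      have h5 : κ ^ (u - 1) * (θ₁ - 1) = κ ^ (u - 1) * (θ₀ - 1) + κ ^ (u - 1) * η := by rw [hθ₁]; ring
      rw [h5, h1]
      nlinarith
    have e3 : T₀ ≤ (P : ℝ) ^ (θ₀ / 2) * Λ := by
      calc T₀ ≤ (P : ℝ) ^ (θ₀ / 2 + η) := e1.trans (Real.rpow_le_rpow_of_exponent_le hPr e2)
        _ = (P : ℝ) ^ (θ₀ / 2) * (P : ℝ) ^ η := Real.rpow_add hP0 _ _
        _ ≤ _ := mul_le_mul_of_nonneg_left hPη (by positivity)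
    calc T₀ ^ 2 ≤ ((P : ℝ) ^ (θ₀ / 2) * Λ) ^ 2 := pow_le_pow_left₀ hT₀0.le e3 2
      _ = Λ ^ 2 * (P : ℝ) ^ θ₀ := by
        rw [mul_pow, ← Real.rpow_natCast, ← Real.rpow_mul hP0.le]
        rw [show θ₀ / 2 * ((2 : ℕ) : ℝ) = θ₀ by push_cast; ring]
        ring
  obtain ⟨B, hB⟩ : ∃ B : ℝ, B = C₁ * Λ ^ (12 * u) * ((Y Q u).card : ℝ) ^ 2 * (P : ℝ) ^ (-(2 * θ₀)) := ⟨_, rfl⟩
  have hB0 : 0 ≤ B := by rw [hB]; positivity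
  have hbd : ∀ θ ∈ Set.Icc θ₀ θ₁, ∀ y ∈ Y Q u, (0 ≤ H θ y ∧ H θ y ≤ M₁) ∧ (0 ≤ H2 θ y ∧ H2 θ y ≤ M) := by
    intro θ hθ y hy
    obtain ⟨_, b2, b3⟩ := bounds (hsc θ hθ) P hQP hy
    refine ⟨⟨b2.1, b2.2.trans ?_⟩, ⟨b3.1, b3.2.trans ?_⟩⟩
    · rw [hM₁]; exact mul_le_mul_of_nonneg_left (hPmono θ hθ) (by positivity)
    · rw [hM]; exact mul_le_mul_of_nonneg_left (hPmono θ hθ) (by positivity)
  have key := family_meas (Y Q u ×ˢ Y Q u) (fun p θ => G θ p.1 - G θ p.2) (fun p θ => H θ p.1 - H θ p.2)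
    θ₀ θ₁ M K₀ B T₀ J hT₀1 (by linarith) (by linarith) hM0 hK₀
    (by
      intro p hp θ _
      rw [mem_product] at hp
      exact (G_der hone hp.1 θ).sub (G_der hone hp.2 θ))
    (by
      intro p hp x hx y hy
      rw [mem_product] at hp
      obtain ⟨z, hz, hz2⟩ := cell_mvt (fun θ => H θ p.1 - H θ p.2) (fun θ => H2 θ p.1 - H2 θ p.2) θ₀ θ₁
        (fun θ _ => (H_der hone hp.1 θ).sub (H_der hone hp.2 θ)) x y hx hy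
      rw [hz2, abs_mul]
      apply mul_le_mul_of_nonneg_right _ (abs_nonneg _)
      obtain ⟨_, c1⟩ := hbd z hz p.1 hp.1
      obtain ⟨_, c2⟩ := hbd z hz p.2 hp.2
      exact abs_sub_le_of c1.1 c1.2 c2.1 c2.2)
    (by
      intro p hp x hx
      rw [mem_product] at hp
      obtain ⟨c1, _⟩ := hbd x hx p.1 hp.1
      obtain ⟨c2, _⟩ := hbd x hx p.2 hp.2
      exact (abs_sub_le_of c1.1 c1.2 c2.1 c2.2).trans hJ2)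
    (by
      intro t ht θ hθ
      have h2t : (2 : ℝ) ^ t * T₀ ≤ 2 ^ J * T₀ := by
        apply mul_le_mul_of_nonneg_right _ hT₀0.le
        exact pow_le_pow_right₀ (by norm_num) ht
      have hPθ : (P : ℝ) ^ θ₀ ≤ (P : ℝ) ^ θ := Real.rpow_le_rpow_of_exponent_le hPr hθ.1
      have h2tge : T₀ ≤ (2 : ℝ) ^ t * T₀ := le_mul_of_one_le_left hT₀0.le (one_le_pow₀ (by norm_num))
      have hc := hcount θ (Λ ^ 2) Q ((hsc θ hθ).mono (by nlinarith)) (2 ^ t * T₀)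
        (by
          refine le_trans ?_ h2tge
          rw [hT₀]
          exact Real.rpow_le_rpow_of_exponent_le hQu (by linarith [hθ.2]))
        (by
          have : Q 0 = P := rfl
          rw [this]
          calc (2 : ℝ) ^ t * T₀ ≤ M₁ := h2t.trans hJ1
            _ ≤ K₂ * Λ ^ 2 * (P : ℝ) ^ θ₀ := hM₁up
            _ ≤ _ := mul_le_mul_of_nonneg_left hPθ (by positivity))
      have hQ0 : Q 0 = P := rfl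
      rw [hQ0, ← pow_mul, show 2 * (6 * u) = 12 * u by ring] at hc
      set N := (((Y Q u ×ˢ Y Q u).filter (fun p => |G θ p.1 - G θ p.2| ≤ (K₀ + 3) * (2 ^ t * T₀) ∧
        |H θ p.1 - H θ p.2| ≤ (K₀ + 3) * (2 ^ t * T₀))).card : ℝ) with hN
      have hN0 : 0 ≤ N := Nat.cast_nonneg _
      have hP2 : (P : ℝ) ^ (2 * θ₀) ≤ (P : ℝ) ^ (2 * θ) := Real.rpow_le_rpow_of_exponent_le hPr (by linarith [hθ.1])
      have h5 : N * (P : ℝ) ^ (2 * θ₀) ≤ C₁ * Λ ^ (12 * u) * (2 ^ t * T₀) ^ 2 * ((Y Q u).card : ℝ) ^ 2 :=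
        (mul_le_mul_of_nonneg_left hP2 hN0).trans hc
      rw [hB, Real.rpow_neg hP0.le]
      have hP20 : 0 < (P : ℝ) ^ (2 * θ₀) := by positivity
      rw [← le_div_iff₀ hP20] at h5
      refine h5.trans (le_of_eq ?_)
      rw [div_eq_mul_inv]
      ring)
  refine key.trans ?_
  have hfin : B * T₀ ^ 2 + 8 * K₀ * B * J * (2 * M + 2 ^ J * T₀) ≤ B * ((1 + 24 * K₀ * CJ * K₂) * Λ ^ 4 * (P : ℝ) ^ θ₀) := by
    have e1 : 2 * M + 2 ^ J * T₀ ≤ 3 * (K₂ * Λ ^ 3 * (P : ℝ) ^ θ₀) := by linarith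
    have e2 : 8 * K₀ * B * J * (2 * M + 2 ^ J * T₀) ≤ 8 * K₀ * B * (CJ * Λ) * (3 * (K₂ * Λ ^ 3 * (P : ℝ) ^ θ₀)) := by
      gcongr
    have e3 : B * T₀ ^ 2 ≤ B * (Λ ^ 2 * (P : ℝ) ^ θ₀) := mul_le_mul_of_nonneg_left hT₀sq hB0
    have e4 : Λ ^ 2 ≤ Λ ^ 4 := pow_le_pow_right₀ hΛ (by norm_num)
    have e5 : B * (Λ ^ 2 * (P : ℝ) ^ θ₀) ≤ B * (Λ ^ 4 * (P : ℝ) ^ θ₀) := by gcongr
    calc _ ≤ B * (Λ ^ 4 * (P : ℝ) ^ θ₀) + 8 * K₀ * B * (CJ * Λ) * (3 * (K₂ * Λ ^ 3 * (P : ℝ) ^ θ₀)) := by linarith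
      _ = _ := by ring
  refine hfin.trans (le_of_eq ?_)
  have e6 : (P : ℝ) ^ (-(2 * θ₀)) * (P : ℝ) ^ θ₀ = (P : ℝ) ^ (-θ₀) := by
    rw [← Real.rpow_add hP0]; congr 1; ring
  rw [hB, ← e6, pow_add]
  ring

end Pool.Agent.Zk40.W
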