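import Pool.Agent.Zk40.W.Pair

/-!
Waring's problem for almost all real exponents: vectors of pairs with diminishing ranges.
-/

namespace Pool.Agent.Zk40.W

open Finset

/-- vectors of pairs, the pair number `i` in the box of `Q i` -/
def Y (Q : ℕ → ℕ) (n : ℕ) : Finset (Fin n → ℕ × ℕ) := Fintype.piFinset fun i => box (Q i)

/-- the sum of the `θ`-th powers -/
noncomputable def G (θ : ℝ) {n : ℕ} (y : Fin n → ℕ × ℕ) : ℝ := ∑ i, g θ (y i)

/-- the derivative of `G` with respect to `θ` -/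
noncomputable def H (θ : ℝ) {n : ℕ} (y : Fin n → ℕ × ℕ) : ℝ := ∑ i, h θ (y i)

/-- the conditions on the scales -/
structure Scales (θ Λ A : ℝ) (Q : ℕ → ℕ) : Prop where
  th : 1 ≤ θ
  big : (4 : ℝ) ^ θ ≤ A
  one : ∀ i, 1 ≤ Q i
  log : ∀ i, Real.log (4 * Q i) + 1 ≤ Λ
  low : ∀ i, (Q (i + 1) : ℝ) ^ θ ≤ (Q i : ℝ) ^ (θ - 1)
  up : ∀ i, (Q i : ℝ) ^ (θ - 1) ≤ Λ * (Q (i + 1) : ℝ) ^ θ

lemma card_fib {α β : Type} [DecidableEq β] (S : Finset α) (f : α → β) (M : ℝ)
    (h : ∀ b ∈ S.image f, ((S.filter (fun a => f a = b)).card : ℝ) ≤ M) :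
    (S.card : ℝ) ≤ M * (S.image f).card := by
  have h1 : S.card = ∑ b ∈ S.image f, (S.filter (fun a => f a = b)).card :=
    card_eq_sum_card_fiberwise fun a ha => mem_image_of_mem f ha
  rw [h1, Nat.cast_sum, mul_comm, ← nsmul_eq_mul]
  exact sum_le_card_nsmul _ _ _ h

lemma Scales.Λ1 {θ Λ A : ℝ} {Q : ℕ → ℕ} (hs : Scales θ Λ A Q) : 1 ≤ Λ := by
  have h1 := hs.log 0
  have h2 : (1 : ℝ) ≤ Q 0 := by exact_mod_cast hs.one 0
  have h3 : 0 ≤ Real.log (4 * Q 0) := Real.log_nonneg (by linarith)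
  linarith

lemma Scales.A1 {θ Λ A : ℝ} {Q : ℕ → ℕ} (hs : Scales θ Λ A Q) : 1 ≤ A := by
  refine le_trans ?_ hs.big
  exact Real.one_le_rpow (by norm_num) (by linarith [hs.th])

lemma g_bound {θ Λ A : ℝ} {Q : ℕ → ℕ} (hs : Scales θ Λ A Q) (i : ℕ) (p : ℕ × ℕ) (hp : p ∈ box (Q i)) :
    0 ≤ g θ p ∧ g θ p ≤ 2 * A * (Q i : ℝ) ^ θ := by
  simp only [box, mem_product, mem_Icc] at hp
  obtain ⟨⟨p1, p2⟩, p3, p4⟩ := hp
  have hth := hs.th
  have p2' : (p.1 : ℝ) ≤ 4 * Q i := by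
    have : p.1 ≤ 4 * Q i := by omega
    exact_mod_cast this
  have p4' : (p.2 : ℝ) ≤ 4 * Q i := by exact_mod_cast p4
  have hQ0 : (0 : ℝ) ≤ Q i := Nat.cast_nonneg _
  have key : ∀ x : ℕ, (x : ℝ) ≤ 4 * Q i → (x : ℝ) ^ θ ≤ A * (Q i : ℝ) ^ θ := by
    intro x hx
    calc (x : ℝ) ^ θ ≤ (4 * Q i : ℝ) ^ θ := Real.rpow_le_rpow (Nat.cast_nonneg _) hx (by linarith)
      _ = (4 : ℝ) ^ θ * (Q i : ℝ) ^ θ := Real.mul_rpow (by norm_num) hQ0
      _ ≤ A * (Q i : ℝ) ^ θ := mul_le_mul_of_nonneg_right hs.big (by positivity)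
  unfold g
  constructor
  · positivity
  · linarith [key _ p2', key _ p4']

lemma h_bound {θ Λ A : ℝ} {Q : ℕ → ℕ} (hs : Scales θ Λ A Q) (i : ℕ) (p : ℕ × ℕ) (hp : p ∈ box (Q i)) :
    0 ≤ h θ p ∧ h θ p ≤ 2 * A * Λ * (Q i : ℝ) ^ θ := by
  have hg := g_bound hs i p hp
  simp only [box, mem_product, mem_Icc] at hp
  obtain ⟨⟨p1, p2⟩, p3, p4⟩ := hp
  have h1 := hs.one i
  have hQ1 : (1 : ℝ) ≤ Q i := by exact_mod_cast h1
  have p1' : (1 : ℝ) ≤ p.1 := by
    have : 1 ≤ p.1 := by omega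
    exact_mod_cast this
  have p3' : (1 : ℝ) ≤ p.2 := by
    have : 1 ≤ p.2 := by omega
    exact_mod_cast this
  have p2' : (p.1 : ℝ) ≤ 4 * Q i := by
    have : p.1 ≤ 4 * Q i := by omega
    exact_mod_cast this
  have p4' : (p.2 : ℝ) ≤ 4 * Q i := by exact_mod_cast p4
  have hl1 : 0 ≤ Real.log p.1 := Real.log_nonneg p1'
  have hl2 : 0 ≤ Real.log p.2 := Real.log_nonneg p3'
  have hl3 : Real.log p.1 ≤ Λ := by
    have := Real.log_le_log (by linarith) p2'
    linarith [hs.log i]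
  have hl4 : Real.log p.2 ≤ Λ := by
    have := Real.log_le_log (by linarith) p4'
    linarith [hs.log i]
  have e1 : 0 ≤ (p.1 : ℝ) ^ θ := by positivity
  have e2 : 0 ≤ (p.2 : ℝ) ^ θ := by positivity
  unfold h
  constructor
  · positivity
  · have hΛ : 0 ≤ Λ := by linarith [hs.Λ1]
    have e3 : (p.1 : ℝ) ^ θ * Real.log p.1 ≤ (p.1 : ℝ) ^ θ * Λ := mul_le_mul_of_nonneg_left hl3 e1
    have e4 : (p.2 : ℝ) ^ θ * Real.log p.2 ≤ (p.2 : ℝ) ^ θ * Λ := mul_le_mul_of_nonneg_left hl4 e2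
    have e5 : g θ p * Λ ≤ 2 * A * (Q i : ℝ) ^ θ * Λ := mul_le_mul_of_nonneg_right hg.2 hΛ
    unfold g at e5
    nlinarith

/-- the number of the vectors of pairs with given approximate values of `G` and `H` -/
theorem level_count (n : ℕ) : ∀ K A : ℝ, 1 ≤ K → 1 ≤ A → ∃ C : ℝ, 1 ≤ C ∧ ∀ (θ Λ : ℝ) (Q : ℕ → ℕ), Scales θ Λ A Q →
    ∀ R c d : ℝ, 1 ≤ R → R ≤ K * Λ * Q n → ∀ S ⊆ Y Q (n + 1),
    (∀ y ∈ S, |G θ y - c| ≤ R * (Q n : ℝ) ^ (θ - 1)) → (∀ y ∈ S, |H θ y - d| ≤ R * (Q n : ℝ) ^ (θ - 1)) →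
    (S.card : ℝ) ≤ C * Λ ^ (4 * (n + 1)) * R ^ 2 := by
  induction n with
  | zero =>
    intro K A hK hA
    refine ⟨625, by norm_num, ?_⟩
    intro θ Λ Q hs R c d hR _ S hS h1 h2
    have hΛ := hs.Λ1
    have hinj : Set.InjOn (fun y : Fin (0 + 1) → ℕ × ℕ => y 0) (S : Set (Fin (0 + 1) → ℕ × ℕ)) := by
      intro x _ y _ hxy
      funext i
      have : i = 0 := Fin.ext (by have := i.isLt; simp only [Fin.val_zero]; omega)
      rw [this]; exact hxy
    rw [← card_image_of_injOn hinj]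
    have hval : ∀ (y : Fin (0 + 1) → ℕ × ℕ), G θ y = g θ (y 0) ∧ H θ y = h θ (y 0) := by
      intro y
      unfold G H
      constructor <;> exact Fin.sum_univ_one _
    have := pair_count θ Λ (Q 0) hs.th (hs.one 0) (hs.log 0) R hR c d (S.image fun y => y 0) (by
      intro p hp
      rw [mem_image] at hp
      obtain ⟨y, hy, rfl⟩ := hp
      have := Fintype.mem_piFinset.1 (hS hy) 0
      exact this) (by
      intro p hp
      rw [mem_image] at hp
      obtain ⟨y, hy, rfl⟩ := hp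
      have := h1 y hy
      rwa [(hval y).1] at this) (by
      intro p hp
      rw [mem_image] at hp
      obtain ⟨y, hy, rfl⟩ := hp
      have := h2 y hy
      rwa [(hval y).2] at this)
    refine this.trans ?_
    have e1 : Λ ^ 2 ≤ Λ ^ (4 * (0 + 1)) := pow_le_pow_right₀ hΛ (by norm_num)
    calc (25 * R * Λ) ^ 2 = 625 * Λ ^ 2 * R ^ 2 := by ring
      _ ≤ 625 * Λ ^ (4 * (0 + 1)) * R ^ 2 := by gcongr
  | succ n ih =>
    intro K A hK hA
    obtain ⟨C, hC, hI⟩ := ih (K + 2 * A) A (by linarith) hA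
    refine ⟨C * (K + 2 * A) ^ 2 * 625, ?_, ?_⟩
    · have : (1 : ℝ) ≤ (K + 2 * A) ^ 2 := one_le_pow₀ (by linarith)
      nlinarith
    intro θ Λ Q hs R c d hR hRK S hS h1 h2
    have hΛ := hs.Λ1
    have hth := hs.th
    set q : ℝ := (Q (n + 1) : ℝ) with hq
    have hq1 : 1 ≤ q := by rw [hq]; exact_mod_cast hs.one (n + 1)
    have hq0 : 0 < q := by linarith
    set f : (Fin (n + 1 + 1) → ℕ × ℕ) → (Fin (n + 1) → ℕ × ℕ) := fun y i => y i.castSucc with hf
    have hGs : ∀ y : Fin (n + 1 + 1) → ℕ × ℕ, G θ y = G θ (f y) + g θ (y (Fin.last _)) := by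
      intro y; unfold G; rw [Fin.sum_univ_castSucc]
    have hHs : ∀ y : Fin (n + 1 + 1) → ℕ × ℕ, H θ y = H θ (f y) + h θ (y (Fin.last _)) := by
      intro y; unfold H; rw [Fin.sum_univ_castSucc]
    have hmem : ∀ y ∈ S, f y ∈ Y Q (n + 1) ∧ y (Fin.last _) ∈ box (Q (n + 1)) := by
      intro y hy
      have := Fintype.mem_piFinset.1 (hS hy)
      constructor
      · apply Fintype.mem_piFinset.2
        intro i
        exact this i.castSucc
      · exact this (Fin.last _)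
    have hqq : q ^ θ = q * q ^ (θ - 1) := by
      rw [← Real.rpow_one_add' hq0.le (by linarith)]; congr 1; ring
    have hRq : R * q ^ (θ - 1) ≤ K * Λ * q ^ θ := by
      rw [hqq]
      calc R * q ^ (θ - 1) ≤ (K * Λ * q) * q ^ (θ - 1) := mul_le_mul_of_nonneg_right hRK (by positivity)
        _ = _ := by ring
    have hlow : q ^ θ ≤ (Q n : ℝ) ^ (θ - 1) := hs.low n
    have hqθ : 0 < q ^ θ := by positivity
    have hR' : 1 ≤ (K + 2 * A) * Λ := by nlinarith
    have hQn1 : (1 : ℝ) ≤ Q n := by exact_mod_cast hs.one n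
    have himg := hI θ Λ Q hs ((K + 2 * A) * Λ) c d hR' (by
        apply le_mul_of_one_le_right (by positivity) hQn1) (S.image f) (by
      intro z hz
      rw [mem_image] at hz
      obtain ⟨y, hy, rfl⟩ := hz
      exact (hmem y hy).1) (by
      intro z hz
      rw [mem_image] at hz
      obtain ⟨y, hy, rfl⟩ := hz
      have e1 := h1 y hy
      rw [hGs] at e1
      have e2 := g_bound hs (n + 1) _ (hmem y hy).2
      have e3 : G θ (f y) - c = (G θ (f y) + g θ (y (Fin.last _)) - c) - g θ (y (Fin.last _)) := by ring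
      rw [e3]
      calc _ ≤ |G θ (f y) + g θ (y (Fin.last _)) - c| + |g θ (y (Fin.last _))| := abs_sub _ _
        _ ≤ K * Λ * q ^ θ + 2 * A * q ^ θ := by
          rw [abs_of_nonneg e2.1]
          exact add_le_add (e1.trans hRq) e2.2
        _ ≤ ((K + 2 * A) * Λ) * q ^ θ := by
          have : 2 * A * q ^ θ * 1 ≤ 2 * A * q ^ θ * Λ := mul_le_mul_of_nonneg_left hΛ (by positivity)
          nlinarith
        _ ≤ _ := mul_le_mul_of_nonneg_left hlow (by positivity)) (by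
      intro z hz
      rw [mem_image] at hz
      obtain ⟨y, hy, rfl⟩ := hz
      have e1 := h2 y hy
      rw [hHs] at e1
      have e2 := h_bound hs (n + 1) _ (hmem y hy).2
      have e3 : H θ (f y) - d = (H θ (f y) + h θ (y (Fin.last _)) - d) - h θ (y (Fin.last _)) := by ring
      rw [e3]
      calc _ ≤ |H θ (f y) + h θ (y (Fin.last _)) - d| + |h θ (y (Fin.last _))| := abs_sub _ _
        _ ≤ K * Λ * q ^ θ + 2 * A * Λ * q ^ θ := by
          rw [abs_of_nonneg e2.1]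
          exact add_le_add (e1.trans hRq) e2.2
        _ = ((K + 2 * A) * Λ) * q ^ θ := by ring
        _ ≤ _ := mul_le_mul_of_nonneg_left hlow (by positivity))
    have hfib := card_fib S f ((25 * R * Λ) ^ 2) (by
      intro z hz
      set F := S.filter (fun y => f y = z) with hF
      have hinj : Set.InjOn (fun y : Fin (n + 1 + 1) → ℕ × ℕ => y (Fin.last _)) (F : Set (Fin (n + 1 + 1) → ℕ × ℕ)) := by
        intro x hx y hy hxy
        have hx' := (mem_filter.1 (mem_coe.1 hx)).2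
        have hy' := (mem_filter.1 (mem_coe.1 hy)).2
        funext i
        refine Fin.lastCases ?_ ?_ i
        · exact hxy
        · intro j
          have : f x j = f y j := by rw [hx', hy']
          exact this
      rw [← card_image_of_injOn hinj]
      apply pair_count θ Λ (Q (n + 1)) hs.th (hs.one _) (hs.log _) R hR (c - G θ z) (d - H θ z)
      · intro p hp
        rw [mem_image] at hp
        obtain ⟨y, hy, rfl⟩ := hp
        exact (hmem y (mem_filter.1 hy).1).2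
      · intro p hp
        rw [mem_image] at hp
        obtain ⟨y, hy, rfl⟩ := hp
        have e1 := h1 y (mem_filter.1 hy).1
        rw [hGs, (mem_filter.1 hy).2] at e1
        have : g θ (y (Fin.last _)) - (c - G θ z) = G θ z + g θ (y (Fin.last _)) - c := by ring
        rw [this]; exact e1
      · intro p hp
        rw [mem_image] at hp
        obtain ⟨y, hy, rfl⟩ := hp
        have e1 := h2 y (mem_filter.1 hy).1
        rw [hHs, (mem_filter.1 hy).2] at e1
        have : h θ (y (Fin.last _)) - (d - H θ z) = H θ z + h θ (y (Fin.last _)) - d := by ring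
        rw [this]; exact e1)
    refine hfib.trans ?_
    calc (25 * R * Λ) ^ 2 * ((S.image f).card : ℝ)
        ≤ (25 * R * Λ) ^ 2 * (C * Λ ^ (4 * (n + 1)) * ((K + 2 * A) * Λ) ^ 2) := by gcongr
      _ = C * (K + 2 * A) ^ 2 * 625 * Λ ^ (4 * (n + 1 + 1)) * R ^ 2 := by ring

end Pool.Agent.Zk40.W
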