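import Mathlib

/-!
Waring's problem for almost all real exponents: the pairs `(a, b)` in a box `[Q, 2Q] × [3Q, 4Q]` with given
approximate values of `a ^ θ + b ^ θ` and `a ^ θ log a + b ^ θ log b`.
-/

namespace Pool.Agent.Zk40.W

open Finset

/-- the sum of the `θ`-th powers of a pair -/
noncomputable def g (θ : ℝ) (p : ℕ × ℕ) : ℝ := (p.1 : ℝ) ^ θ + (p.2 : ℝ) ^ θ

/-- the derivative of `g` with respect to `θ` -/
noncomputable def h (θ : ℝ) (p : ℕ × ℕ) : ℝ :=
  (p.1 : ℝ) ^ θ * Real.log p.1 + (p.2 : ℝ) ^ θ * Real.log p.2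

/-- the box `[Q, 2Q] × [3Q, 4Q]` -/
def box (Q : ℕ) : Finset (ℕ × ℕ) := Icc Q (2 * Q) ×ˢ Icc (3 * Q) (4 * Q)

lemma slope (lo hi t s : ℝ) (hlo : 0 < lo) (h1 : lo ≤ t) (h2 : t ≤ hi) (h3 : lo ≤ s) (h4 : s ≤ hi) :
    ∃ l : ℝ, Real.log lo + 1 ≤ l ∧ l ≤ Real.log hi + 1 ∧ t * Real.log t - s * Real.log s = l * (t - s) := by
  have key : ∀ t s : ℝ, lo ≤ s → s < t → t ≤ hi →
      ∃ l : ℝ, Real.log lo + 1 ≤ l ∧ l ≤ Real.log hi + 1 ∧ t * Real.log t - s * Real.log s = l * (t - s) := by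
    intro t s h1 h2 h3
    obtain ⟨c, hc, hc2⟩ := exists_hasDerivAt_eq_slope (fun x => x * Real.log x) (fun x => Real.log x + 1) h2
      (by
        apply ContinuousOn.mul continuousOn_id
        apply Real.continuousOn_log.mono
        intro x hx
        simp only [Set.mem_compl_iff, Set.mem_singleton_iff]
        have := hx.1
        linarith)
      (by
        intro x hx
        exact Real.hasDerivAt_mul_log (by have := hx.1; linarith))
    refine ⟨Real.log c + 1, ?_, ?_, ?_⟩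
    · have := Real.log_le_log hlo (show lo ≤ c by linarith [hc.1])
      linarith
    · have := Real.log_le_log (show 0 < c by linarith [hc.1]) (show c ≤ hi by linarith [hc.2])
      linarith
    · have hts : t - s ≠ 0 := by linarith
      rw [hc2]
      field_simp
  rcases lt_trichotomy t s with h | h | h
  · obtain ⟨l, a1, a2, a3⟩ := key s t h1 h h4
    exact ⟨l, a1, a2, by linarith⟩
  · refine ⟨Real.log lo + 1, le_rfl, ?_, by rw [h]; ring⟩
    have := Real.log_le_log hlo (h1.trans h2)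
    linarith
  · exact key t s h3 h h2

lemma pow_diff (θ Q a b : ℝ) (hθ : 1 ≤ θ) (hQ : 1 ≤ Q) (ha : Q ≤ a) (hb : Q ≤ b) :
    |a - b| * Q ^ (θ - 1) ≤ |a ^ θ - b ^ θ| := by
  have key : ∀ a b : ℝ, Q ≤ b → b ≤ a → (a - b) * Q ^ (θ - 1) ≤ a ^ θ - b ^ θ := by
    intro a b hb hab
    have hb0 : 0 < b := by linarith
    have ha0 : 0 < a := by linarith
    have e1 : a ^ θ = a * a ^ (θ - 1) := by
      rw [← Real.rpow_one_add' ha0.le (by linarith)]; congr 1; ring
    have e2 : b ^ θ = b * b ^ (θ - 1) := by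
      rw [← Real.rpow_one_add' hb0.le (by linarith)]; congr 1; ring
    have e3 : b ^ (θ - 1) ≤ a ^ (θ - 1) := Real.rpow_le_rpow hb0.le hab (by linarith)
    have e4 : Q ^ (θ - 1) ≤ a ^ (θ - 1) := Real.rpow_le_rpow (by linarith) (by linarith) (by linarith)
    rw [e1, e2]
    nlinarith
  rcases le_total b a with hab | hab
  · have := key a b hb hab
    rw [abs_of_nonneg (by linarith : 0 ≤ a - b)]
    exact this.trans (le_abs_self _)
  · have := key b a ha hab
    rw [abs_sub_comm a b, abs_sub_comm (a ^ θ), abs_of_nonneg (by linarith : 0 ≤ b - a)]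
    exact this.trans (le_abs_self _)

lemma pow_log (θ a : ℝ) (hθ : 1 ≤ θ) (ha : 0 < a) : a ^ θ * Real.log a = (a ^ θ * Real.log (a ^ θ)) / θ := by
  rw [Real.log_rpow ha]
  field_simp

/-- the number of pairs with given approximate values of `g` and `h` -/
theorem pair_count (θ Λ : ℝ) (Q : ℕ) (hθ : 1 ≤ θ) (hQ : 1 ≤ Q) (hΛ : Real.log (4 * Q) + 1 ≤ Λ) (R : ℝ) (hR : 1 ≤ R)
    (c d : ℝ) (S : Finset (ℕ × ℕ)) (hS : S ⊆ box Q)
    (h1 : ∀ p ∈ S, |g θ p - c| ≤ R * (Q : ℝ) ^ (θ - 1)) (h2 : ∀ p ∈ S, |h θ p - d| ≤ R * (Q : ℝ) ^ (θ - 1)) :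
    (S.card : ℝ) ≤ (25 * R * Λ) ^ 2 := by
  have hQ1 : (1 : ℝ) ≤ Q := by exact_mod_cast hQ
  have hQ0 : (0 : ℝ) < Q := by linarith
  have hlog4 : 0 ≤ Real.log (4 * Q) := Real.log_nonneg (by linarith)
  have hΛ1 : 1 ≤ Λ := by linarith
  have hθ0 : 0 < θ := by linarith
  rcases S.eq_empty_or_nonempty with hE | ⟨q, hq⟩
  · rw [hE]; simp; positivity
  set D : ℝ := (Q : ℝ) ^ (θ - 1) with hD
  have hD0 : 0 < D := Real.rpow_pos_of_pos hQ0 _
  have key : ∀ p ∈ S, |(p.1 : ℝ) - q.1| ≤ 12 * R * Λ ∧ |(p.2 : ℝ) - q.2| ≤ 12 * R * Λ := by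
    intro p hp
    have hp' := hS hp
    have hq' := hS hq
    simp only [box, mem_product, mem_Icc] at hp' hq'
    obtain ⟨⟨p1, p2⟩, p3, p4⟩ := hp'
    obtain ⟨⟨q1, q2⟩, q3, q4⟩ := hq'
    have p1' : (Q : ℝ) ≤ p.1 := by exact_mod_cast p1
    have p2' : (p.1 : ℝ) ≤ 2 * Q := by exact_mod_cast p2
    have p3' : 3 * (Q : ℝ) ≤ p.2 := by exact_mod_cast p3
    have p4' : (p.2 : ℝ) ≤ 4 * Q := by exact_mod_cast p4
    have q1' : (Q : ℝ) ≤ q.1 := by exact_mod_cast q1
    have q2' : (q.1 : ℝ) ≤ 2 * Q := by exact_mod_cast q2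
    have q3' : 3 * (Q : ℝ) ≤ q.2 := by exact_mod_cast q3
    have q4' : (q.2 : ℝ) ≤ 4 * Q := by exact_mod_cast q4
    have hmono : ∀ x y : ℝ, 0 ≤ x → x ≤ y → x ^ θ ≤ y ^ θ := fun x y hx hxy => Real.rpow_le_rpow hx hxy hθ0.le
    obtain ⟨l1, l1a, l1b, l1c⟩ := slope ((Q : ℝ) ^ θ) ((2 * Q : ℝ) ^ θ) ((p.1 : ℝ) ^ θ) ((q.1 : ℝ) ^ θ) (by positivity)
      (hmono _ _ hQ0.le p1') (hmono _ _ (by linarith) p2') (hmono _ _ hQ0.le q1') (hmono _ _ (by linarith) q2')
    obtain ⟨l2, l2a, l2b, l2c⟩ := slope ((3 * Q : ℝ) ^ θ) ((4 * Q : ℝ) ^ θ) ((p.2 : ℝ) ^ θ) ((q.2 : ℝ) ^ θ) (by positivity)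
      (hmono _ _ (by linarith) p3') (hmono _ _ (by linarith) p4') (hmono _ _ (by linarith) q3') (hmono _ _ (by linarith) q4')
    rw [Real.log_rpow (by positivity)] at l1a l1b l2a l2b
    have hl2Q : Real.log (2 * Q) ≤ Real.log (4 * Q) := Real.log_le_log (by linarith) (by linarith)
    have hl0Q : 0 ≤ Real.log Q := Real.log_nonneg hQ1
    have hl3 : Real.log (3 * Q) = Real.log (2 * Q) + Real.log (3 / 2) := by
      rw [← Real.log_mul (by positivity) (by norm_num)]; congr 1; ring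
    have hl32 : (2 : ℝ) / 5 ≤ Real.log (3 / 2) := by
      rw [Real.le_log_iff_exp_le (by norm_num)]
      have h5 := Real.exp_one_lt_d9
      have h6 : Real.exp (2 / 5) ^ 5 ≤ (3 / 2 : ℝ) ^ 5 := by
        rw [← Real.exp_nat_mul]
        have : Real.exp (((5 : ℕ) : ℝ) * (2 / 5)) = Real.exp 1 * Real.exp 1 := by
          rw [← Real.exp_add]; congr 1; norm_num
        rw [this]
        have h7 : 0 < Real.exp 1 := Real.exp_pos 1
        nlinarith
      exact (pow_le_pow_iff_left₀ (Real.exp_pos _).le (by norm_num) (by norm_num)).1 h6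
    set A1 : ℝ := (p.1 : ℝ) ^ θ - (q.1 : ℝ) ^ θ with hA1
    set A2 : ℝ := (p.2 : ℝ) ^ θ - (q.2 : ℝ) ^ θ with hA2
    have hs : |A1 + A2| ≤ 2 * R * D := by
      have e1 := h1 p hp
      have e2 := h1 q hq
      have : A1 + A2 = (g θ p - c) - (g θ q - c) := by simp only [g, hA1, hA2]; ring
      rw [this]
      calc _ ≤ |g θ p - c| + |g θ q - c| := abs_sub _ _
        _ ≤ _ := by linarith
    have ht : |l1 * A1 + l2 * A2| ≤ 2 * R * D * θ := by
      have e1 := h2 p hp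
      have e2 := h2 q hq
      have : l1 * A1 + l2 * A2 = ((h θ p - d) - (h θ q - d)) * θ := by
        simp only [h]
        rw [pow_log θ p.1 hθ (by linarith), pow_log θ p.2 hθ (by linarith), pow_log θ q.1 hθ (by linarith),
          pow_log θ q.2 hθ (by linarith), ← l1c, ← l2c]
        field_simp
        ring
      rw [this, abs_mul, abs_of_pos hθ0]
      apply mul_le_mul_of_nonneg_right _ hθ0.le
      calc _ ≤ |h θ p - d| + |h θ q - d| := abs_sub _ _
        _ ≤ _ := by linarith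
    have hl1 : 0 ≤ l1 ∧ l1 ≤ θ * Λ := by
      constructor
      · nlinarith
      · nlinarith
    have hdiff : 2 / 5 * θ ≤ l2 - l1 := by
      rw [hl3] at l2a
      nlinarith
    have hA2b : |A2| ≤ 10 * R * Λ * D := by
      have e1 : (l2 - l1) * A2 = (l1 * A1 + l2 * A2) - l1 * (A1 + A2) := by ring
      have e2 : (l2 - l1) * |A2| ≤ 2 * R * D * θ + θ * Λ * (2 * R * D) := by
        have hpos : 0 ≤ l2 - l1 := by nlinarith
        calc (l2 - l1) * |A2| = |(l2 - l1) * A2| := by rw [abs_mul, abs_of_nonneg hpos]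
          _ = |(l1 * A1 + l2 * A2) - l1 * (A1 + A2)| := by rw [e1]
          _ ≤ |l1 * A1 + l2 * A2| + |l1 * (A1 + A2)| := abs_sub _ _
          _ ≤ 2 * R * D * θ + θ * Λ * (2 * R * D) := by
            rw [abs_mul, abs_of_nonneg hl1.1]
            gcongr
            exact hl1.2
      have e3 : 2 / 5 * θ * |A2| ≤ 2 * R * D * θ + θ * Λ * (2 * R * D) :=
        (mul_le_mul_of_nonneg_right hdiff (abs_nonneg _)).trans e2
      have e4 : 2 * R * D ≤ 2 * R * D * Λ := le_mul_of_one_le_right (by positivity) hΛ1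
      have e5 : 2 / 5 * |A2| ≤ 4 * R * D * Λ := by
        have : θ * (2 / 5 * |A2|) ≤ θ * (4 * R * D * Λ) := by nlinarith
        exact le_of_mul_le_mul_left this hθ0
      linarith
    have hA1b : |A1| ≤ 12 * R * Λ * D := by
      have : A1 = (A1 + A2) - A2 := by ring
      rw [this]
      have e4 : 2 * R * D ≤ 2 * R * D * Λ := le_mul_of_one_le_right (by positivity) hΛ1
      calc _ ≤ |A1 + A2| + |A2| := abs_sub _ _
        _ ≤ _ := by linarith
    constructor
    · have := pow_diff θ Q p.1 q.1 hθ hQ1 p1' q1'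
      have e : |(p.1 : ℝ) - q.1| * D ≤ 12 * R * Λ * D := this.trans hA1b
      exact le_of_mul_le_mul_right e hD0
    · have := pow_diff θ Q p.2 q.2 hθ hQ1 (by linarith) (by linarith)
      have e : |(p.2 : ℝ) - q.2| * D ≤ 12 * R * Λ * D := this.trans (hA2b.trans (by
        have : 0 ≤ R * Λ * D := by positivity
        nlinarith))
      exact le_of_mul_le_mul_right e hD0
  set m : ℕ := ⌊12 * R * Λ⌋₊ with hm
  have hRΛ : 0 ≤ 12 * R * Λ := by positivity
  have hmle : (m : ℝ) ≤ 12 * R * Λ := Nat.floor_le hRΛ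
  have hsub : S ⊆ Icc (q.1 - m) (q.1 + m) ×ˢ Icc (q.2 - m) (q.2 + m) := by
    intro p hp
    obtain ⟨k1, k2⟩ := key p hp
    have aux : ∀ x y : ℕ, |(x : ℝ) - y| ≤ 12 * R * Λ → y - m ≤ x ∧ x ≤ y + m := by
      intro x y hxy
      rw [abs_le] at hxy
      rcases le_total x y with hc | hc
      · refine ⟨?_, by omega⟩
        have : ((y - x : ℕ) : ℝ) ≤ 12 * R * Λ := by rw [Nat.cast_sub hc]; linarith [hxy.1]
        have := Nat.le_floor this
        omega
      · refine ⟨by omega, ?_⟩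
        have : ((x - y : ℕ) : ℝ) ≤ 12 * R * Λ := by rw [Nat.cast_sub hc]; linarith [hxy.2]
        have := Nat.le_floor this
        omega
    simp only [mem_product, mem_Icc]
    exact ⟨aux _ _ k1, aux _ _ k2⟩
  have hcard : S.card ≤ (2 * m + 1) * (2 * m + 1) := by
    refine (card_le_card hsub).trans ?_
    rw [card_product, Nat.card_Icc, Nat.card_Icc]
    apply Nat.mul_le_mul <;> omega
  have h3 : (S.card : ℝ) ≤ (2 * m + 1) * (2 * m + 1) := by exact_mod_cast hcard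
  have h4 : (2 * m + 1 : ℝ) ≤ 25 * R * Λ := by nlinarith
  calc (S.card : ℝ) ≤ (2 * m + 1) * (2 * m + 1) := h3
    _ ≤ (25 * R * Λ) * (25 * R * Λ) := by gcongr
    _ = _ := by ring

end Pool.Agent.Zk40.W
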