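import Pool.Agent.Zk40.W.Main

/-!
Waring's problem for almost all real exponents: the lower bound for the average over a window.
-/

namespace Pool.Agent.Zk40.W

open Finset Filter Topology MeasureTheory

lemma pow_up (θ x y : ℝ) (hθ : 1 < θ) (hx : 0 ≤ x) (hxy : x ≤ y) : y ^ θ - x ^ θ ≤ (y - x) * (θ * y ^ (θ - 1)) := by
  rcases eq_or_lt_of_le hxy with h | h
  · rw [h]; simp
  obtain ⟨z, hz, hz2⟩ := exists_hasDerivAt_eq_slope (fun t : ℝ => t ^ θ) (fun t => θ * t ^ (θ - 1)) h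
    (by
      apply Continuous.continuousOn
      exact Real.continuous_rpow_const (by linarith))
    (by
      intro t ht
      exact Real.hasDerivAt_rpow_const (Or.inl (by linarith [ht.1])))
  have h0 : 0 < y - x := by linarith
  have h1 : y ^ θ - x ^ θ = (y - x) * (θ * z ^ (θ - 1)) := by
    rw [hz2]
    field_simp
  rw [h1]
  apply mul_le_mul_of_nonneg_left _ h0.le
  apply mul_le_mul_of_nonneg_left _ (by linarith)
  exact Real.rpow_le_rpow (by linarith [hz.1]) hz.2.le (by linarith)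

/-- many values in a window -/
lemma many_z (θ : ℝ) (hθ : 1 < θ) (M W : ℕ) (hM : 1 ≤ M) (hW : 1 ≤ W) (a : ℤ) (D : ℝ) (hD : D = θ * (5 * (M : ℝ)) ^ (θ - 1))
    (h1 : (M : ℝ) ^ θ + W ≤ a) (h2 : (a : ℝ) < (4 * (M : ℝ)) ^ θ) (h3 : 2 * D ≤ W) (h4 : (W : ℝ) ≤ M * D) :
    (W : ℝ) / (2 * D) ≤ (((Ioc M (4 * M)).filter (fun z => a - W < (wt θ z : ℤ) ∧ (wt θ z : ℤ) ≤ a)).card : ℝ) := by
  have hM1 : (1 : ℝ) ≤ M := by exact_mod_cast hM
  have hW1 : (1 : ℝ) ≤ W := by exact_mod_cast hW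
  have hD0 : 0 < D := by rw [hD]; positivity
  have hθ0 : 0 < θ := by linarith
  -- the least `z` with `z ^ θ ≥ a - W + 1`
  have hex : ∃ z : ℕ, (a : ℝ) - W + 1 ≤ (z : ℝ) ^ θ := by
    refine ⟨4 * M, ?_⟩
    push_cast
    linarith
  obtain ⟨z₀, hz₀⟩ : ∃ z₀, z₀ = Nat.find hex := ⟨_, rfl⟩
  have hz1 : (a : ℝ) - W + 1 ≤ (z₀ : ℝ) ^ θ := by rw [hz₀]; exact Nat.find_spec hex
  have hz2 : M < z₀ := by
    by_contra hcon
    push Not at hcon
    have : (z₀ : ℝ) ^ θ ≤ (M : ℝ) ^ θ := Real.rpow_le_rpow (Nat.cast_nonneg _) (by exact_mod_cast hcon) hθ0.le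
    linarith
  have hz3 : ((z₀ - 1 : ℕ) : ℝ) ^ θ < (a : ℝ) - W + 1 := by
    have := Nat.find_min hex (show z₀ - 1 < Nat.find hex by rw [← hz₀]; omega)
    push Not at this
    exact this
  have hz4 : z₀ ≤ 4 * M := by
    rw [hz₀]
    apply Nat.find_min'
    push_cast
    linarith
  set K := ⌊(W : ℝ) / D⌋₊ with hK
  have hK1 : (K : ℝ) * D ≤ W := by
    have := Nat.floor_le (show 0 ≤ (W : ℝ) / D by positivity)
    rwa [le_div_iff₀ hD0] at this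
  have hK2 : (W : ℝ) < (K + 1) * D := by
    have := Nat.lt_floor_add_one ((W : ℝ) / D)
    rwa [div_lt_iff₀ hD0] at this
  have hKM : K ≤ M := by
    have : (K : ℝ) ≤ M := by
      have h5 : (K : ℝ) * D ≤ M * D := hK1.trans h4
      exact le_of_mul_le_mul_right h5 hD0
    exact_mod_cast this
  have hsub : (range K).image (fun k => z₀ + k) ⊆
      (Ioc M (4 * M)).filter (fun z => a - W < (wt θ z : ℤ) ∧ (wt θ z : ℤ) ≤ a) := by
    intro z hz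
    rw [mem_image] at hz
    obtain ⟨k, hk, rfl⟩ := hz
    rw [mem_range] at hk
    have hk1 : ((k : ℝ) + 1) ≤ K := by exact_mod_cast hk
    have hcast : ((z₀ - 1 : ℕ) : ℝ) = (z₀ : ℝ) - 1 := by
      rw [Nat.cast_sub (by omega)]; simp
    have hz5 : ((z₀ + k : ℕ) : ℝ) ≤ 5 * M := by
      have : z₀ + k ≤ 5 * M := by omega
      exact_mod_cast this
    have hup : ((z₀ + k : ℕ) : ℝ) ^ θ < a + 1 := by
      have e1 := pow_up θ ((z₀ - 1 : ℕ) : ℝ) ((z₀ + k : ℕ) : ℝ) hθ (Nat.cast_nonneg _) (by exact_mod_cast (by omega : z₀ - 1 ≤ z₀ + k))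
      have e2 : θ * ((z₀ + k : ℕ) : ℝ) ^ (θ - 1) ≤ D := by
        rw [hD]
        apply mul_le_mul_of_nonneg_left _ hθ0.le
        exact Real.rpow_le_rpow (Nat.cast_nonneg _) hz5 (by linarith)
      have e3 : ((z₀ + k : ℕ) : ℝ) - ((z₀ - 1 : ℕ) : ℝ) = k + 1 := by
        rw [hcast]; push_cast; ring
      rw [e3] at e1
      have e4 : ((k : ℝ) + 1) * (θ * ((z₀ + k : ℕ) : ℝ) ^ (θ - 1)) ≤ K * D :=
        mul_le_mul hk1 e2 (by positivity) (Nat.cast_nonneg _)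
      linarith
    have hlow : (a : ℝ) - W + 1 ≤ ((z₀ + k : ℕ) : ℝ) ^ θ := by
      refine hz1.trans (Real.rpow_le_rpow (Nat.cast_nonneg _) ?_ hθ0.le)
      exact_mod_cast Nat.le_add_right z₀ k
    have hle : z₀ + k ≤ 4 * M := by
      by_contra hcon
      push Not at hcon
      have e1 : ((4 * M + 1 : ℕ) : ℝ) ^ θ ≤ ((z₀ + k : ℕ) : ℝ) ^ θ :=
        Real.rpow_le_rpow (Nat.cast_nonneg _) (by exact_mod_cast hcon) hθ0.le
      have e2 := pow_diff θ 1 ((4 * M + 1 : ℕ) : ℝ) (4 * (M : ℝ)) hθ.le le_rfl (by push_cast; linarith) (by linarith)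
      rw [Real.one_rpow, mul_one] at e2
      have e3 : |((4 * M + 1 : ℕ) : ℝ) - 4 * (M : ℝ)| = 1 := by push_cast; simp
      have e4 : (4 * (M : ℝ)) ^ θ ≤ ((4 * M + 1 : ℕ) : ℝ) ^ θ :=
        Real.rpow_le_rpow (by positivity) (by push_cast; linarith) hθ0.le
      rw [e3, abs_of_nonneg (by linarith)] at e2
      linarith
    rw [mem_filter, mem_Ioc]
    refine ⟨⟨by omega, hle⟩, ?_, ?_⟩
    · have e1 : (a - W + 1 : ℤ) ≤ ⌊((z₀ + k : ℕ) : ℝ) ^ θ⌋ := by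
        apply Int.le_floor.2
        push_cast at hlow ⊢
        exact hlow
      have e2 : (⌊((z₀ + k : ℕ) : ℝ) ^ θ⌋ : ℤ) = (wt θ (z₀ + k) : ℤ) := by
        have := wt_floor θ (z₀ + k)
        exact_mod_cast this
      omega
    · have e1 : ⌊((z₀ + k : ℕ) : ℝ) ^ θ⌋ < a + 1 := by
        apply Int.floor_lt.2
        push_cast at hup ⊢
        exact hup
      have e2 : (⌊((z₀ + k : ℕ) : ℝ) ^ θ⌋ : ℤ) = (wt θ (z₀ + k) : ℤ) := by
        have := wt_floor θ (z₀ + k)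
        exact_mod_cast this
      omega
  have hcard : K ≤ ((Ioc M (4 * M)).filter (fun z => a - W < (wt θ z : ℤ) ∧ (wt θ z : ℤ) ≤ a)).card := by
    calc K = ((range K).image (fun k => z₀ + k)).card := by
          rw [card_image_of_injective _ (add_right_injective z₀), card_range]
      _ ≤ _ := card_le_card hsub
  have hcard' : (K : ℝ) ≤ (((Ioc M (4 * M)).filter (fun z => a - W < (wt θ z : ℤ) ∧ (wt θ z : ℤ) ≤ a)).card : ℝ) := by
    exact_mod_cast hcard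
  refine le_trans ?_ hcard'
  rw [div_le_iff₀ (by positivity)]
  nlinarith

/-- the average over a window -/
theorem window {ι : Type} (Ys : Finset ι) (V : ι → ℕ) (Z₁ Z₂ : Finset ℕ) (w : ℕ → ℕ) (W N : ℕ) (m : ℝ)
    (hmany : ∀ x ∈ Ys, ∀ y ∈ Ys, ∀ z₂ ∈ Z₂, m ≤ (((Z₁.filter (fun z => ((N : ℤ) - V x - V y - w z₂) - W < (w z : ℤ) ∧
      (w z : ℤ) ≤ (N : ℤ) - V x - V y - w z₂)).card : ℕ) : ℝ)) :
    (Ys.card : ℝ) ^ 2 * Z₂.card * m ≤ ∑ j ∈ range W, (((((Ys ×ˢ Ys) ×ˢ (Z₁ ×ˢ Z₂)).filter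
      (fun p => (((V p.1.1 + V p.1.2) + (w p.2.1 + w p.2.2) : ℕ) : ℤ) = (N : ℤ) - j)).card : ℕ) : ℝ) := by
  have h1 : ∀ p : (ι × ι) × (ℕ × ℕ),
      (if ((N : ℤ) - V p.1.1 - V p.1.2 - w p.2.2) - W < (w p.2.1 : ℤ) ∧ (w p.2.1 : ℤ) ≤ (N : ℤ) - V p.1.1 - V p.1.2 - w p.2.2
        then (1 : ℝ) else 0) ≤
      ∑ j ∈ range W, (if (((V p.1.1 + V p.1.2) + (w p.2.1 + w p.2.2) : ℕ) : ℤ) = (N : ℤ) - j then (1 : ℝ) else 0) := by
    intro p
    split_ifs with h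
    · obtain ⟨j, hj⟩ : ∃ j : ℕ, (j : ℤ) = (N : ℤ) - V p.1.1 - V p.1.2 - w p.2.2 - w p.2.1 := by
        refine ⟨((N : ℤ) - V p.1.1 - V p.1.2 - w p.2.2 - w p.2.1).toNat, ?_⟩
        rw [Int.toNat_of_nonneg]
        omega
      have hjW : j ∈ range W := by
        rw [mem_range]
        omega
      have h2 : (1 : ℝ) = (if (((V p.1.1 + V p.1.2) + (w p.2.1 + w p.2.2) : ℕ) : ℤ) = (N : ℤ) - j then (1 : ℝ) else 0) := by
        rw [if_pos]
        push_cast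
        omega
      refine h2.le.trans ?_
      exact single_le_sum (f := fun j : ℕ => (if (((V p.1.1 + V p.1.2) + (w p.2.1 + w p.2.2) : ℕ) : ℤ) = (N : ℤ) - j then (1 : ℝ) else 0))
        (fun i _ => by split_ifs <;> norm_num) hjW
    · exact sum_nonneg fun i _ => by split_ifs <;> norm_num
  have h2 : ∑ j ∈ range W, (((((Ys ×ˢ Ys) ×ˢ (Z₁ ×ˢ Z₂)).filter
      (fun p => (((V p.1.1 + V p.1.2) + (w p.2.1 + w p.2.2) : ℕ) : ℤ) = (N : ℤ) - j)).card : ℕ) : ℝ) =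
      ∑ p ∈ (Ys ×ˢ Ys) ×ˢ (Z₁ ×ˢ Z₂), ∑ j ∈ range W,
        (if (((V p.1.1 + V p.1.2) + (w p.2.1 + w p.2.2) : ℕ) : ℤ) = (N : ℤ) - j then (1 : ℝ) else 0) := by
    rw [sum_comm]
    apply sum_congr rfl
    intro j _
    rw [card_filter]
    push_cast
    rfl
  rw [h2]
  refine le_trans ?_ (sum_le_sum fun p _ => h1 p)
  rw [sum_product]
  have h3 : ∀ q ∈ Ys ×ˢ Ys, (Z₂.card : ℝ) * m ≤ ∑ z ∈ Z₁ ×ˢ Z₂,
      (if ((N : ℤ) - V q.1 - V q.2 - w z.2) - W < (w z.1 : ℤ) ∧ (w z.1 : ℤ) ≤ (N : ℤ) - V q.1 - V q.2 - w z.2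
        then (1 : ℝ) else 0) := by
    intro q hq
    rw [mem_product] at hq
    rw [sum_product_right]
    calc (Z₂.card : ℝ) * m = ∑ _z ∈ Z₂, m := by rw [sum_const, nsmul_eq_mul]
      _ ≤ _ := by
        apply sum_le_sum
        intro z hz
        refine (hmany q.1 hq.1 q.2 hq.2 z hz).trans (le_of_eq ?_)
        rw [card_filter]
        push_cast
        rfl
  calc (Ys.card : ℝ) ^ 2 * Z₂.card * m = ∑ _q ∈ Ys ×ˢ Ys, (Z₂.card : ℝ) * m := by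
        rw [sum_const, nsmul_eq_mul, card_product]
        push_cast
        ring
    _ ≤ _ := sum_le_sum h3

end Pool.Agent.Zk40.W
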